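import Pool.Agent.W792.WA.Stm

/-!
Statements of the second part of the project WA: one function `f` for all laws and all small
couplings.
-/

namespace Pool.Agent.W792.WA

open MeasureTheory Filter Pool.Agent.W792.LL
open scoped Topology

noncomputable section

/-- Measurable functions. -/
def MX : Type := {X : ℝ → ℝ // Measurable X}

/-- Law of `X(u)`, `u` uniform in `(0,1]`. -/
def qlaw (X : MX) : Measure ℝ := Measure.map X.1 (volume.restrict (Set.Ioc (0 : ℝ) 1))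

instance (X : MX) : IsProbabilityMeasure (qlaw X) := by
  have : IsProbabilityMeasure (volume.restrict (Set.Ioc (0 : ℝ) 1)) := ⟨by simp⟩
  exact Measure.isProbabilityMeasure_map X.2.aemeasurable

/-- Squared distance of two functions after the Cayley transform. -/
def cd (X Y : MX) : ℝ := ∫ u in Set.Ioc (0 : ℝ) 1, ‖cay (X.1 u) - cay (Y.1 u)‖ ^ 2

/-- Total boundedness. -/
def TB (𝓧 : Set MX) : Prop :=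
  ∀ τ : ℝ, 0 < τ → ∃ F : Set MX, F.Finite ∧ ∀ X ∈ 𝓧, ∃ Y ∈ F, cd X Y ≤ τ ^ 2

/-- Monotone functions with values in `[-δ, δ]`. -/
def Mo (δ : ℝ) : Set MX := {X | Monotone X.1 ∧ ∀ u, |X.1 u| ≤ δ}

/-- Averaged imaginary part of the kinetic resolvent. -/
def jf {d : ℕ} (ρ : Measure ℝ) (K : C(UnitAddTorus (Fin d), ℝ)) (z : ℂ) : ℝ :=
  ∫ k, (∫ a, 1 / ((K k : ℂ) + a - z) ∂ρ).im

/-- Quantile functions. -/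
def S_QNT : Prop :=
  ∀ (μ : Measure ℝ) [IsProbabilityMeasure μ] (δ : ℝ), 0 ≤ δ → (∀ᵐ x ∂μ, |x| ≤ δ) →
    ∃ X ∈ Mo δ, qlaw X = μ

/-- Bounded monotone functions form a totally bounded set. -/
def S_NETX : Prop := ∀ δ : ℝ, 0 < δ → TB (Mo δ)

/-- Dependence of the effective phase on the law. -/
def S_PSIW : Prop :=
  ∀ q : ℝ, 0 ≤ q → q < 1 → ∃ L : ℝ, 0 < L ∧ ∀ (X Y : MX) (τ : ℝ), 0 ≤ τ → cd X Y ≤ τ ^ 2 →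
    ∀ (d : ℕ) (m : C(UnitAddTorus (Fin d), ℂ)), ‖m‖ ≤ q →
      ‖psi (qlaw X) m - psi (qlaw Y) m‖ ≤ L * τ

/-- Dependence of `Zf` on the law. -/
def S_ZFW : Prop :=
  ∀ q : ℝ, 0 ≤ q → q < 1 → ∃ L : ℝ, 0 < L ∧ ∀ (X Y : MX) (τ : ℝ), 0 ≤ τ → cd X Y ≤ τ ^ 2 →
    ∀ (d : ℕ) (m m' : C(UnitAddTorus (Fin d), ℂ)), ‖m‖ ≤ q → ‖m'‖ ≤ q →
      ∫ v, ‖Zf m (fun x => cay (v x)) - Zf m' (fun x => cay (v x))‖ ∂(Pn (qlaw X) (Fin d → ℤ))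
        ≤ ∫ v, ‖Zf m (fun x => cay (v x)) - Zf m' (fun x => cay (v x))‖
            ∂(Pn (qlaw Y) (Fin d → ℤ)) + L * τ

/-- Uniform bounds and continuity in the energy, uniformly in the law. -/
def S_UNI2 : Prop :=
  ∀ (d : ℕ) (ρ : Measure ℝ) [IsProbabilityMeasure ρ] (C σ : ℝ) (K : C(UnitAddTorus (Fin d), ℝ)),
    ρ (Set.Icc (-C) C)ᶜ = 0 → (∀ a b : ℝ, ρ {a, b} < 1) → 0 < σ →
    (∃ q : ℝ, 0 ≤ q ∧ q < 1 ∧ ∀ (ν : Measure ℝ) [IsProbabilityMeasure ν], 0 < vr ν →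
      (∀ z ∈ Zs d, ∀ s, IsFix ν ρ (wz K z) s → ‖s‖ ≤ 1 - σ) →
      (∀ z ∈ Zs d, ∃! s, IsFix ν ρ (wz K z) s) ∧
      ∀ z ∈ Zs d, ∀ s, IsFix ν ρ (wz K z) s → ‖UU ρ (wz K z) s‖ ≤ q) ∧
    ∀ e : ℝ, 0 < e → ∃ θ : ℝ, 0 < θ ∧ ∀ (ν : Measure ℝ) [IsProbabilityMeasure ν], 0 < vr ν →
      (∀ z ∈ Zs d, ∀ s, IsFix ν ρ (wz K z) s → ‖s‖ ≤ 1 - σ) →
      ∀ z ∈ Zs d, ∀ z' ∈ Zs d, ‖z - z'‖ ≤ θ →
      ∀ s s', IsFix ν ρ (wz K z) s → IsFix ν ρ (wz K z') s' →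
        ‖s - s'‖ ≤ e ∧ ‖UU ρ (wz K z) s - UU ρ (wz K z') s'‖ ≤ e

/-- Adding one level, uniformly in the law. -/
def S_STEP2 : Prop :=
  ∀ (d : ℕ) (ψ : C(UnitAddCircle, ℝ)) (ρ : Measure ℝ) [IsProbabilityMeasure ρ] (C σ l : ℝ)
    (K : C(UnitAddTorus (Fin d), ℝ)) (𝓧 : Set MX),
    0 < d → IsSemi ψ → (∀ X ∈ 𝓧, 0 < vr (qlaw X)) → TB 𝓧 → ρ (Set.Icc (-C) C)ᶜ = 0 →
    (∀ a b : ℝ, ρ {a, b} < 1) → 0 < l → 0 < σ →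
    (∀ X ∈ 𝓧, ∀ z ∈ Zs d, ∀ s, IsFix (qlaw X) ((lev ψ l).conv ρ) (wz K z) s → ‖s‖ ≤ 1 - σ) →
    ∀ e : ℝ, 0 < e → ∃ M₀ : ℕ, ∀ M : ℕ, M₀ ≤ M → ∀ X ∈ 𝓧, ∀ z ∈ Zs d, ∀ s s',
      IsFix (qlaw X) ((lev ψ l).conv ρ) (wz K z) s → IsFix (qlaw X) ρ (wz (addL ψ K l M) z) s' →
      ‖s - s'‖ ≤ e ∧ ∫ v, ‖Zf (UU ((lev ψ l).conv ρ) (wz K z) s) (fun x => cay (v x))
        - Zf (UU ρ (wz (addL ψ K l M) z) s') (fun x => cay (v x))‖ ∂(Pn (qlaw X) (Fin d → ℤ)) ≤ e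

/-- Lower bound for the first level. -/
def S_J0 : Prop :=
  ∀ (ψ : C(UnitAddCircle, ℝ)), IsSemi ψ → ∀ (r : ℝ) (d : ℕ), 0 < r → 0 < d →
    ∃ J : ℝ, 0 < J ∧ ∀ (ρ' : Measure ℝ) [IsProbabilityMeasure ρ'],
      ρ' (Set.Icc (-(r / 8)) (r / 8))ᶜ = 0 → ∀ z ∈ Zs d, J ≤ jf ((lev ψ r).conv ρ') (lap d) z

/-- The lower bound is almost preserved by adding a level. -/
def S_JSTEP : Prop :=
  ∀ (ψ : C(UnitAddCircle, ℝ)), IsSemi ψ → ∀ (d : ℕ) (K : C(UnitAddTorus (Fin d), ℝ)) (l l' C : ℝ)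
    (ρ'' : Measure ℝ) [IsProbabilityMeasure ρ''], 0 < d → 0 < l → 0 < l' →
    ρ'' (Set.Icc (-C) C)ᶜ = 0 → ∀ e : ℝ, 0 < e → ∃ M₀ : ℕ, ∀ M : ℕ, M₀ ≤ M → ∀ z ∈ Zs d,
      jf ((lev ψ l).conv ((lev ψ l').conv ρ'')) K z - e ≤ jf ((lev ψ l').conv ρ'') (addL ψ K l M) z

/-- Gap for small potentials, for any kinetic energy. -/
def S_BASE3 : Prop :=
  ∀ (ψ : C(UnitAddCircle, ℝ)), IsSemi ψ → ∀ (r J κ : ℝ), 0 < r → 0 < J → 0 < κ →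
    ∃ δ₂ c : ℝ, 0 < δ₂ ∧ 0 < c ∧ ∀ (ν : Measure ℝ) [IsProbabilityMeasure ν] (δ : ℝ) (d : ℕ)
      (K : C(UnitAddTorus (Fin d), ℝ)) (ρ' : Measure ℝ) [IsProbabilityMeasure ρ'] (C : ℝ) (z : ℂ),
      0 < δ → δ ≤ δ₂ → (∀ᵐ x ∂ν, |x| ≤ δ) → κ * δ ^ 2 ≤ vr ν → ρ' (Set.Icc (-C) C)ᶜ = 0 →
      0 < z.im → J ≤ jf ((lev ψ r).conv ρ') K z →
      ∀ s : C(UnitAddTorus (Fin d), ℂ), IsFix ν ((lev ψ r).conv ρ') (wz K z) s →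
        ‖s‖ ≤ 1 - c * δ ^ 2

/-- The construction of one `f`. -/
def S_UCHAIN : Prop :=
  ∀ (d : ℕ) (ε : ℝ), 0 < d → 0 < ε → ∃ f : C(ℝ, ℝ), (∀ t, |f t - t| ≤ ε) ∧
    ∀ (ν : Measure ℝ) [IsProbabilityMeasure ν] (C : ℝ), 0 < C →
    (∀ᵐ x ∂ν, |x| ≤ C) → (∀ a : ℝ, ν {a} < 1) → ∃ lam₀ : ℝ, 0 < lam₀ ∧
    ∀ lam : ℝ, 0 < lam → lam ≤ lam₀ → ∀ [IsProbabilityMeasure (ν.map fun x => lam * x)],
    ∃ η p : ℕ → ℝ, (∀ n, 0 < η n ∧ η n ≤ 1) ∧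
      Tendsto η atTop (𝓝 0) ∧ (∀ n, 0 < p n) ∧ Antitone p ∧
      ∀ (n : ℕ) (E : ℝ), 0 ≤ E → E ≤ 4 * d →
        ∫ v, |Pf d f (η (n + 1)) E v - Pf d f (η n) E v|
          ∂(Pn (ν.map fun x => lam * x) (Fin d → ℤ)) ≤ p n / 4 ^ n ∧
        (Pn (ν.map fun x => lam * x) (Fin d → ℤ) {v | Pf d f (η n) E v < p n}).toReal
          ≤ 1 / 4 ^ n

/-- The final theorem: one `f` for all laws and all small couplings. -/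
def S_UFIN : Prop :=
  ∀ (d : ℕ) (ε : ℝ), 0 < d → 0 < ε → ∃ f : C(ℝ, ℝ), (∀ t, |f t - t| ≤ ε) ∧
    ∀ (ν : Measure ℝ) [IsProbabilityMeasure ν] (C : ℝ), (∀ᵐ x ∂ν, |x| ≤ C) →
    (∀ a : ℝ, ν {a} < 1) → ∃ lam₀ : ℝ, 0 < lam₀ ∧ ∀ lam : ℝ, 0 < lam → lam ≤ lam₀ →
      ∀ᵐ v ∂(Pn ν (Fin d → ℤ)), ACIn (ker f d) lam v

end

end Pool.Agent.W792.WA
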