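import Pool.Agent.W792.WA.Defs
import Pool.Agent.W792.LL.Stm

/-!
Statements of the parts of the project WA.
-/

namespace Pool.Agent.W792.WA

open MeasureTheory Filter Pool.Agent.W792.LL
open scoped Topology

noncomputable section

/-! ## A. Scalar estimates -/

/-- The effective contraction lies in the disc. -/
def S_SC1 : Prop :=
  ∀ (ρ : Measure ℝ) [IsProbabilityMeasure ρ] (w : ℝ → ℂ) (q : ℝ) (s : ℂ), Measurable w →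
    0 ≤ q → q ≤ 1 → (∀ᵐ a ∂ρ, ‖w a‖ ≤ q) → ‖s‖ ≤ 1 → q * ‖s‖ < 1 →
    (∀ᵐ a ∂ρ, 1 - w a * s ≠ 0) ∧ 1 + s * Bs ρ w s ≠ 0 ∧ ‖Us ρ w s‖ ≤ q ∧ 1 - Us ρ w s * s ≠ 0 ∧
      Us ρ w s / (1 - Us ρ w s * s) = Bs ρ w s

/-- Contraction of the hyperbolic distance. -/
def S_SC2 : Prop :=
  ∀ (ρ : Measure ℝ) [IsProbabilityMeasure ρ] (w : ℝ → ℂ) (q : ℝ) (s₁ s₂ : ℂ), Measurable w →
    0 ≤ q → q < 1 → (∀ᵐ a ∂ρ, ‖w a‖ ≤ q) → ‖s₁‖ ≤ 1 → ‖s₂‖ ≤ 1 →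
    ‖Us ρ w s₁ - Us ρ w s₂‖ ^ 2 * ((1 - ‖s₁‖ ^ 2) * (1 - ‖s₂‖ ^ 2))
      ≤ q ^ 4 * ‖s₁ - s₂‖ ^ 2 * ((1 - ‖Us ρ w s₁‖ ^ 2) * (1 - ‖Us ρ w s₂‖ ^ 2)) ∧
    ‖Us ρ w s₁ - Us ρ w s₂‖ ^ 2 * (1 - q ^ 2) ^ 2
      ≤ q ^ 4 * ‖s₁ - s₂‖ ^ 2 * ((1 - ‖Us ρ w s₁‖ ^ 2) * (1 - ‖Us ρ w s₂‖ ^ 2))

/-- Lipschitz bounds. -/
def S_SCL : Prop :=
  ∀ (ρ : Measure ℝ) [IsProbabilityMeasure ρ] (w₁ w₂ : ℝ → ℂ) (σ e : ℝ) (s₁ s₂ : ℂ),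
    Measurable w₁ → Measurable w₂ → 0 < σ → (∀ᵐ a ∂ρ, ‖w₁ a‖ ≤ 1) → (∀ᵐ a ∂ρ, ‖w₂ a‖ ≤ 1) →
    ‖s₁‖ ≤ 1 → ‖s₂‖ ≤ 1 → (∀ᵐ a ∂ρ, ‖w₁ a‖ * ‖s₁‖ ≤ 1 - σ) → (∀ᵐ a ∂ρ, ‖w₂ a‖ * ‖s₂‖ ≤ 1 - σ) →
    (∀ᵐ a ∂ρ, ‖w₁ a - w₂ a‖ ≤ e) → ‖Us ρ w₁ s₁ - Us ρ w₂ s₂‖ ≤ 8 / σ ^ 2 * (e + ‖s₁ - s₂‖)

/-- Strict contraction at real energies, uniformly in the first argument. -/
def S_GAIN : Prop :=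
  ∀ (ρ : Measure ℝ) [IsProbabilityMeasure ρ] (C D σ : ℝ), ρ (Set.Icc (-C) C)ᶜ = 0 →
    (∀ a b : ℝ, ρ {a, b} < 1) → 0 < σ → ∃ γ : ℝ, 0 < γ ∧ γ < 1 ∧
    ∀ x s₁ s₂ : ℂ, ‖x‖ ≤ D → x.im ≤ 0 → ‖s₁‖ < 1 → ‖s₂‖ ≤ 1 - σ →
      ‖Us ρ (cayx x) s₁ - Us ρ (cayx x) s₂‖ ^ 2 * ((1 - ‖s₁‖ ^ 2) * (1 - ‖s₂‖ ^ 2))
        ≤ (1 - γ) * ‖s₁ - s₂‖ ^ 2
          * ((1 - ‖Us ρ (cayx x) s₁‖ ^ 2) * (1 - ‖Us ρ (cayx x) s₂‖ ^ 2)) ∧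
      ‖Us ρ (cayx x) s₂‖ ^ 2 ≤ 1 - γ

/-! ## B. Symbols -/

/-- A real symbol as a complex one. -/
def cR {d : ℕ} (g : C(UnitAddTorus (Fin d), ℝ)) : C(UnitAddTorus (Fin d), ℂ) :=
  toC fun k => (g k : ℂ)

/-- Symbol calculus. -/
def S_SYMB : Prop :=
  ∀ d : ℕ, (∀ (a b : C(UnitAddTorus (Fin d), ℂ)) (u v : l2 (Fin d → ℤ)),
      inner ℂ (opr a u) (opr b v) = inner ℂ u (opr (star a * b) v)) ∧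
    (∀ a : C(UnitAddTorus (Fin d), ℂ), ‖opr a‖ = ‖a‖) ∧
    (∀ a : C(UnitAddTorus (Fin d), ℂ),
      (∀ u : l2 (Fin d → ℤ), 0 ≤ (inner ℂ u (opr a u)).re) ↔ ∀ k, 0 ≤ (a k).re) ∧
    (∀ (g : C(UnitAddTorus (Fin d), ℂ)) (g₁ g₂ : C(UnitAddTorus (Fin d), ℝ)) (θ : ℝ), 0 ≤ θ →
      (∀ k, 0 ≤ g₁ k) → (∀ k, 0 ≤ g₂ k) →
      ((∀ u₁ u₂ : l2 (Fin d → ℤ), ‖inner ℂ u₁ (opr g u₂)‖ ^ 2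
          ≤ θ * (inner ℂ u₁ (opr (cR g₁) u₁)).re * (inner ℂ u₂ (opr (cR g₂) u₂)).re) ↔
        ∀ k, ‖g k‖ ^ 2 ≤ θ * g₁ k * g₂ k)) ∧
    (∀ (a : C(UnitAddTorus (Fin d), ℂ)) (x y : Fin d → ℤ),
      opr a (dl y) x = UnitAddTorus.mFourierCoeff a (x - y))

/-! ## C. Averages -/

/-- The averaged resolvent. -/
def S_CSYM : Prop :=
  ∀ (ν : Measure ℝ) [IsProbabilityMeasure ν] (d : ℕ) (m : C(UnitAddTorus (Fin d), ℂ)), ‖m‖ < 1 →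
    (∀ v, ‖rsv m v‖ ≤ 1 / (1 - ‖m‖) ∧ (1 - opr m * dc v) * rsv m v = 1 ∧
      rsv m v * (1 - opr m * dc v) = 1) ∧
    (∀ (u : l2 (Fin d → ℤ)) (x : Fin d → ℤ),
      (Measurable fun v => (rsv m v u) x) ∧ (Measurable fun v => (dc v (rsv m v u)) x) ∧
      ∫ v, (dc v (rsv m v u)) x ∂(Pn ν (Fin d → ℤ)) = opr (csym ν m) u x ∧
      ∫ v, (rsv m v u) x ∂(Pn ν (Fin d → ℤ)) = u x + opr (m * csym ν m) u x) ∧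
    ‖csym ν m‖ ≤ 1 / (1 - ‖m‖)

/-- Inequalities for the effective phase. -/
def S_PSI : Prop :=
  ∀ (ν : Measure ℝ) [IsProbabilityMeasure ν] (d : ℕ) (q : ℝ)
    (m₁ m₂ : C(UnitAddTorus (Fin d), ℂ)), 0 ≤ q → q < 1 → ‖m₁‖ ≤ q → ‖m₂‖ ≤ q →
    (∀ k, 1 + m₁ k * csym ν m₁ k ≠ 0 ∧
      psi ν m₁ k = csym ν m₁ k / (1 + m₁ k * csym ν m₁ k) ∧
      ‖psi ν m₁ k‖ ≤ 1 ∧ 1 - m₁ k * psi ν m₁ k ≠ 0 ∧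
      csym ν m₁ k = psi ν m₁ k / (1 - m₁ k * psi ν m₁ k) ∧
      ‖psi ν m₁ k‖ ^ 2 ≤ 1 - (1 - q ^ 2) * vr ν / 4) ∧
    (∀ T : ℝ, 0 ≤ T →
      (∀ k, ‖m₁ k - m₂ k‖ ^ 2 ≤ T * ((1 - ‖m₁ k‖ ^ 2) * (1 - ‖m₂ k‖ ^ 2))) →
      ∀ k, ‖psi ν m₁ k - psi ν m₂ k‖ ^ 2
        ≤ T * ((1 - ‖psi ν m₁ k‖ ^ 2) * (1 - ‖psi ν m₂ k‖ ^ 2))) ∧
    ‖psi ν m₁ - psi ν m₂‖ ≤ ‖m₁ - m₂‖ / (1 - q ^ 2)

/-! ## D. Quasi-local operators and asymptotic freeness -/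

/-- Quasi-local operators form an algebra closed under inverses. -/
def S_QL : Prop :=
  ∀ d : ℕ, (∀ m : C(UnitAddTorus (Fin d), ℂ), IsQL fun _ => opr m) ∧
    IsQL (d := d) dc ∧
    (∀ Q Q' : ((Fin d → ℤ) → ℝ) → (l2 (Fin d → ℤ) →L[ℂ] l2 (Fin d → ℤ)), IsQL Q → IsQL Q' →
      IsQL (fun v => Q v + Q' v) ∧ IsQL (fun v => Q v - Q' v) ∧ IsQL fun v => Q v * Q' v) ∧
    (∀ (Q : ((Fin d → ℤ) → ℝ) → (l2 (Fin d → ℤ) →L[ℂ] l2 (Fin d → ℤ))) (q : ℝ), IsQL Q →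
      q < 1 → (∀ v, ‖Q v‖ ≤ q) → IsQL fun v => Ring.inverse (1 - Q v)) ∧
    ∀ Q : ((Fin d → ℤ) → ℝ) → (l2 (Fin d → ℤ) →L[ℂ] l2 (Fin d → ℤ)), IsQL Q →
      (∃ C : ℝ, ∀ v, ‖Q v‖ ≤ C) ∧ ∀ u x, Measurable fun v => Q v u x

/-- Sums against a flat kernel have small influences. -/
def S_INF : Prop :=
  ∀ (ν : Measure ℝ) [IsProbabilityMeasure ν] (d R L N : ℕ) (δ : ℝ) (X Y : Finset (Fin d → ℤ))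
    (F : (Fin d → ℤ) → ((Fin d → ℤ) → ℝ) → ℂ) (r : (Fin d → ℤ) → ℂ), 0 ≤ δ →
    (∀ y, IsDg N (F y)) → (∀ y v, avg ν (bx R y) (F y) v = 0) → (∀ x, ‖r x‖ ≤ δ) →
    (∀ x, ∫ v, ‖∑ y ∈ Y, r (x - y) * F y v‖ ^ 2 ∂(Pn ν (Fin d → ℤ))
      ≤ N * (2 * R + 1) ^ d * δ ^ 2 * ∑ y ∈ Y, ∫ v, ‖F y v‖ ^ 2 ∂(Pn ν (Fin d → ℤ))) ∧
    ∑ x ∈ X, ∫ v, ‖∑ y ∈ Y, r (x - y) * F y v
        - avg ν (bx L x) (fun v' => ∑ y ∈ Y, r (x - y) * F y v') v‖ ^ 2 ∂(Pn ν (Fin d → ℤ))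
      ≤ N ^ 2 * (2 * L + 1) ^ d * (2 * R + 1) ^ d * δ ^ 2
        * ∑ y ∈ Y, ∫ v, ‖F y v‖ ^ 2 ∂(Pn ν (Fin d → ℤ))

/-- Asymptotic freeness for local operators. -/
def S_FREEL : Prop :=
  ∀ (ν : Measure ℝ) [IsProbabilityMeasure ν] (d R : ℕ) (C : ℝ) (n : ℕ) (e : ℝ), 0 < e →
    ∃ δ : ℝ, 0 < δ ∧ ∀ Q : ((Fin d → ℤ) → ℝ) → (l2 (Fin d → ℤ) →L[ℂ] l2 (Fin d → ℤ)),
    IsLoc R C Q → (∀ x y, ∫ v, Q v (dl y) x ∂(Pn ν (Fin d → ℤ)) = 0) →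
    ∀ m : C(UnitAddTorus (Fin d), ℂ), ‖m‖ ≤ 1 →
    (∀ x, ‖UnitAddTorus.mFourierCoeff m x‖ ≤ δ) → ∀ u : l2 (Fin d → ℤ), ‖u‖ ≤ 1 →
      (∀ w : l2 (Fin d → ℤ), ‖w‖ ≤ 1 →
        ‖∫ v, inner ℂ w (Q v (((opr m * Q v) ^ n) u)) ∂(Pn ν (Fin d → ℤ))‖ ≤ e) ∧
      (1 ≤ n → ∀ x, ∫ v, ‖(((opr m * Q v) ^ n) u) x‖ ^ 2 ∂(Pn ν (Fin d → ℤ)) ≤ e)

/-- Asymptotic freeness for quasi-local operators. -/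
def S_FREE : Prop :=
  ∀ (ν : Measure ℝ) [IsProbabilityMeasure ν] (d : ℕ)
    (Q : ((Fin d → ℤ) → ℝ) → (l2 (Fin d → ℤ) →L[ℂ] l2 (Fin d → ℤ))), IsQL Q →
    (∀ x y, ∫ v, Q v (dl y) x ∂(Pn ν (Fin d → ℤ)) = 0) → ∀ (n : ℕ) (e : ℝ), 0 < e →
    ∃ δ : ℝ, 0 < δ ∧ ∀ m : C(UnitAddTorus (Fin d), ℂ), ‖m‖ ≤ 1 →
    (∀ x, ‖UnitAddTorus.mFourierCoeff m x‖ ≤ δ) → ∀ u : l2 (Fin d → ℤ), ‖u‖ ≤ 1 →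
      (∀ w : l2 (Fin d → ℤ), ‖w‖ ≤ 1 →
        ‖∫ v, inner ℂ w (Q v (((opr m * Q v) ^ n) u)) ∂(Pn ν (Fin d → ℤ))‖ ≤ e) ∧
      (1 ≤ n → ∀ x, ∫ v, ‖(((opr m * Q v) ^ n) u) x‖ ^ 2 ∂(Pn ν (Fin d → ℤ)) ≤ e)

/-- The limit theorem for small symbols. -/
def S_SMALL : Prop :=
  ∀ (ν : Measure ℝ) [IsProbabilityMeasure ν] (d : ℕ) (s U : C(UnitAddTorus (Fin d), ℂ)),
    ‖s‖ ≤ 1 → ‖U‖ ≤ 1 / 16 → psi ν U = s → ∀ e : ℝ, 0 < e → ∃ δ : ℝ, 0 < δ ∧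
    ∀ W : C(UnitAddTorus (Fin d), ℂ), ‖W‖ ≤ 1 / 16 →
    (∀ x, ‖UnitAddTorus.mFourierCoeff
      (fun k => W k / (1 - W k * s k) - U k / (1 - U k * s k)) x‖ ≤ δ) →
      (∀ k, ‖csym ν W k - s k / (1 - W k * s k)‖ ≤ e) ∧
      ∫ v, ‖Zf W (fun x => cay (v x)) - Zf U (fun x => cay (v x))‖ ∂(Pn ν (Fin d → ℤ)) ≤ e

/-! ## E. Analytic continuation -/

/-- Convergence theorem for bounded analytic functions with values in a Banach space. -/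
def S_VIT1 : Prop :=
  ∀ (E : Type) [NormedAddCommGroup E] [NormedSpace ℂ E] [CompleteSpace E] (r t₀ C : ℝ)
    (f : ℕ → ℂ → E), 1 < r → 0 < t₀ →
    (∀ M, DifferentiableOn ℂ (f M) (Metric.ball 0 r)) →
    (∀ M, ∀ t ∈ Metric.ball (0 : ℂ) r, ‖f M t‖ ≤ C) →
    (∀ t ∈ Metric.ball (0 : ℂ) t₀, Tendsto (fun M => f M t) atTop (𝓝 0)) →
    Tendsto (fun M => f M 1) atTop (𝓝 0)

/-- The same in the mean. -/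
def S_VIT2 : Prop :=
  ∀ (Ω : Type) [MeasurableSpace Ω] (P : Measure Ω) [IsProbabilityMeasure P] (r t₀ C : ℝ)
    (g : ℕ → ℂ → Ω → ℂ), 1 < r → 0 < t₀ →
    (∀ M ω, DifferentiableOn ℂ (fun t => g M t ω) (Metric.ball 0 r)) →
    (∀ M ω, ∀ t ∈ Metric.ball (0 : ℂ) r, ‖g M t ω‖ ≤ C) →
    (∀ M, ∀ t ∈ Metric.ball (0 : ℂ) r, Measurable (g M t)) →
    (∀ t ∈ Metric.ball (0 : ℂ) t₀, Tendsto (fun M => ∫ ω, ‖g M t ω‖ ∂P) atTop (𝓝 0)) →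
    Tendsto (fun M => ∫ ω, ‖g M 1 ω‖ ∂P) atTop (𝓝 0)

/-- Bounded weakly analytic functions are analytic. -/
def S_HOLP : Prop :=
  ∀ (E : Type) [NormedAddCommGroup E] [NormedSpace ℂ E] [CompleteSpace E] (Λ : Set (E →L[ℂ] ℂ))
    (O : Set ℂ) (f : ℂ → E) (C : ℝ), IsOpen O → (∀ l ∈ Λ, ‖l‖ ≤ 1) →
    (∀ (x : E) (c : ℝ), 0 ≤ c → (∀ l ∈ Λ, ‖l x‖ ≤ c) → ‖x‖ ≤ c) → (∀ t ∈ O, ‖f t‖ ≤ C) →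
    (∀ l ∈ Λ, DifferentiableOn ℂ (fun t => l (f t)) O) → DifferentiableOn ℂ f O

/-- Analytic dependence on the symbol. -/
def S_HOLC : Prop :=
  ∀ (ν : Measure ℝ) [IsProbabilityMeasure ν] (d : ℕ) (O : Set ℂ)
    (m : ℂ → C(UnitAddTorus (Fin d), ℂ)) (q : ℝ), IsOpen O → q < 1 → DifferentiableOn ℂ m O →
    (∀ t ∈ O, ‖m t‖ ≤ q) →
    DifferentiableOn ℂ (fun t => csym ν (m t)) O ∧ DifferentiableOn ℂ (fun t => psi ν (m t)) O ∧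
    ∀ v : (Fin d → ℤ) → ℝ, DifferentiableOn ℂ (fun t => Zf (m t) (fun x => cay (v x))) O

/-- Analytic dependence of the effective contraction. -/
def S_HOLU : Prop :=
  ∀ (d : ℕ) (ρ : Measure ℝ) [IsProbabilityMeasure ρ] (C q r : ℝ)
    (w : UnitAddTorus (Fin d) → ℝ → ℂ) (s : ℂ → C(UnitAddTorus (Fin d), ℂ)),
    ρ (Set.Icc (-C) C)ᶜ = 0 → Continuous (Function.uncurry w) →
    (∀ k, ∀ a ∈ Set.Icc (-C) C, ‖w k a‖ ≤ q) → 0 ≤ q →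
    0 < r → r * q < 1 → DifferentiableOn ℂ s (Metric.ball 0 r) →
    (∀ t ∈ Metric.ball (0 : ℂ) r, ‖s t‖ ≤ 1) →
    DifferentiableOn ℂ (fun t => UU ρ (fun k a => t * w k a) (s t)) (Metric.ball 0 r) ∧
    ∀ t ∈ Metric.ball (0 : ℂ) r, ∀ k,
      UU ρ (fun k a => t * w k a) (s t) k = Us ρ (fun a => t * w k a) (s t k)

/-! ## F. The effective medium -/

/-- Continuity of the effective contraction in the momentum. -/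
def S_UUC : Prop :=
  ∀ (d : ℕ) (ρ : Measure ℝ) [IsProbabilityMeasure ρ] (C q : ℝ)
    (w : UnitAddTorus (Fin d) → ℝ → ℂ) (s : C(UnitAddTorus (Fin d), ℂ)),
    ρ (Set.Icc (-C) C)ᶜ = 0 → Continuous (Function.uncurry w) → 0 ≤ q → q ≤ 1 →
    (∀ k, ∀ a ∈ Set.Icc (-C) C, ‖w k a‖ ≤ q) → ‖s‖ ≤ 1 → q * ‖s‖ < 1 →
    (∀ k, UU ρ w s k = Us ρ (w k) (s k)) ∧ ‖UU ρ w s‖ ≤ q

/-- Existence, uniqueness, invariant sets. -/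
def S_FIX : Prop :=
  ∀ (ν : Measure ℝ) [IsProbabilityMeasure ν] (d : ℕ) (ρ : Measure ℝ) [IsProbabilityMeasure ρ]
    (C q : ℝ) (w : UnitAddTorus (Fin d) → ℝ → ℂ), 0 < vr ν → ρ (Set.Icc (-C) C)ᶜ = 0 →
    Continuous (Function.uncurry w) → 0 ≤ q → q < 1 →
    (∀ k, ∀ a ∈ Set.Icc (-C) C, ‖w k a‖ ≤ q) →
    (∃! s : C(UnitAddTorus (Fin d), ℂ), IsFix ν ρ w s) ∧
    (∀ s, IsFix ν ρ w s → ∀ k, ‖s k‖ ^ 2 ≤ 1 - (1 - q ^ 2) * vr ν / 4) ∧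
    ∀ Z : Set C(UnitAddTorus (Fin d), ℂ), IsClosed Z → Z.Nonempty → (∀ s ∈ Z, ‖s‖ ≤ 1) →
      (∀ s ∈ Z, psi ν (UU ρ w s) ∈ Z) → ∀ s, IsFix ν ρ w s → s ∈ Z

/-- Analytic families of solutions. -/
def S_HOLF : Prop :=
  ∀ (ν : Measure ℝ) [IsProbabilityMeasure ν] (d : ℕ) (ρ : Measure ℝ) [IsProbabilityMeasure ρ]
    (C q r : ℝ) (w : UnitAddTorus (Fin d) → ℝ → ℂ), 0 < vr ν → ρ (Set.Icc (-C) C)ᶜ = 0 →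
    Continuous (Function.uncurry w) → 0 ≤ q → (∀ k, ∀ a ∈ Set.Icc (-C) C, ‖w k a‖ ≤ q) →
    0 < r → r * q < 1 →
    ∃ S : ℂ → C(UnitAddTorus (Fin d), ℂ), DifferentiableOn ℂ S (Metric.ball 0 r) ∧
      DifferentiableOn ℂ (fun t => UU ρ (fun k a => t * w k a) (S t)) (Metric.ball 0 r) ∧
      ∀ t ∈ Metric.ball (0 : ℂ) r, IsFix ν ρ (fun k a => t * w k a) (S t)

/-- The symbol `W(k, M lap k)`. -/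
def WM {d : ℕ} (W : C(UnitAddTorus (Fin d) × UnitAddCircle, ℂ)) (M : ℕ) :
    C(UnitAddTorus (Fin d), ℂ) :=
  toC fun k => W (k, ((M * lap d k / (2 * Real.pi) : ℝ) : UnitAddCircle))

/-- The limit theorem. -/
def S_C1 : Prop :=
  ∀ (ν : Measure ℝ) [IsProbabilityMeasure ν] (d : ℕ), 0 < d → 0 < vr ν → ∀ (q : ℝ)
    (W : C(UnitAddTorus (Fin d) × UnitAddCircle, ℂ)) (s U : C(UnitAddTorus (Fin d), ℂ)),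
    q < 1 → ‖W‖ ≤ q → ‖U‖ ≤ q → ‖s‖ ≤ 1 → psi ν U = s →
    (∀ k, U k / (1 - U k * s k)
      = ∫ φ in Set.Ioc (0 : ℝ) 1, W (k, (φ : UnitAddCircle)) / (1 - W (k, φ) * s k)) →
    ∀ e : ℝ, 0 < e → ∃ M₀ : ℕ, ∀ M : ℕ, M₀ ≤ M →
      ‖psi ν (WM W M) - s‖ ≤ e ∧
      ∫ v, ‖Zf (WM W M) (fun x => cay (v x)) - Zf U (fun x => cay (v x))‖
        ∂(Pn ν (Fin d → ℤ)) ≤ e

/-- Stability of the effective medium equation. -/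
def S_STAB : Prop :=
  ∀ (ν : Measure ℝ) [IsProbabilityMeasure ν] (d : ℕ) (ρ : Measure ℝ) [IsProbabilityMeasure ρ]
    (C q σ γ e : ℝ) (w : UnitAddTorus (Fin d) → ℝ → ℂ) (s t : C(UnitAddTorus (Fin d), ℂ)),
    0 < vr ν → ρ (Set.Icc (-C) C)ᶜ = 0 → Continuous (Function.uncurry w) → 0 ≤ q → q < 1 →
    (∀ k, ∀ a ∈ Set.Icc (-C) C, ‖w k a‖ ≤ q) → 0 < σ → 0 < γ → γ < 1 → IsFix ν ρ w s → ‖t‖ ≤ 1 - σ →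
    ‖psi ν (UU ρ w t) - t‖ ≤ e → 28 * e ≤ σ * γ →
    (∀ k, ‖UU ρ w s k - UU ρ w t k‖ ^ 2 * ((1 - ‖s k‖ ^ 2) * (1 - ‖t k‖ ^ 2))
      ≤ (1 - γ) * ‖s k - t k‖ ^ 2 * ((1 - ‖UU ρ w s k‖ ^ 2) * (1 - ‖UU ρ w t k‖ ^ 2))) →
    ‖s - t‖ ^ 2 ≤ 28 * e / (σ * γ)

/-! ## G. Base case -/

/-- Perturbation theory for small potentials. -/
def S_PERT : Prop :=
  ∀ CB : ℝ, 1 ≤ CB → ∃ c₀ : ℝ, 0 < c₀ ∧ ∀ (ν : Measure ℝ) [IsProbabilityMeasure ν] (d : ℕ)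
    (s U B : C(UnitAddTorus (Fin d), ℂ)) (δ J : ℝ), 0 < δ → δ ≤ c₀ →
    (∀ᵐ x ∂ν, ‖cay x + 1‖ ≤ 2 * δ) → ‖U‖ < 1 → ‖s‖ ≤ 1 → (∀ k, ‖s k + 1‖ ≤ 4 * δ) →
    (∀ k, ‖B k‖ ≤ CB) → (∀ k, U k * (1 + s k * B k) = B k) → 0 < J →
    J ≤ ∫ k, (‖1 + s k * B k‖ ^ 2 - ‖B k‖ ^ 2) → δ ^ 2 ≤ c₀ * Real.sqrt (vr ν * J) →
    ∀ k, ‖psi ν U k + 1‖ ≤ 4 * δ ∧ ‖psi ν U k‖ ^ 2 ≤ 1 - vr ν * J / 16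

/-- The semicircle function. -/
def S_SEMI : Prop := ∃ ψ : C(UnitAddCircle, ℝ), IsSemi ψ

/-- The averaged one site resolvent with a semicircle level. -/
def S_BASEJ : Prop :=
  ∀ (ψ : C(UnitAddCircle, ℝ)), IsSemi ψ → ∀ (r : ℝ) (d : ℕ), 0 < r → 0 < d →
    ∃ (S δ₁ J CB : ℝ), 0 < S ∧ 0 < δ₁ ∧ 0 < J ∧ 1 ≤ CB ∧ ∀ (ρ' : Measure ℝ)
      [IsProbabilityMeasure ρ'], ρ' (Set.Icc (-S) S)ᶜ = 0 → ∀ z ∈ Zs d,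
      ∀ s : C(UnitAddTorus (Fin d), ℂ), ‖s‖ ≤ 1 → (∀ k, ‖s k + 1‖ ≤ 4 * δ₁) →
      (∀ k, ‖Bs ((lev ψ r).conv ρ') (wz (lap d) z k) (s k)‖ ≤ CB) ∧
      J ≤ ∫ k, (‖1 + s k * Bs ((lev ψ r).conv ρ') (wz (lap d) z k) (s k)‖ ^ 2
        - ‖Bs ((lev ψ r).conv ρ') (wz (lap d) z k) (s k)‖ ^ 2)

/-- Base case of the induction. -/
def S_BASE : Prop :=
  ∀ (ψ : C(UnitAddCircle, ℝ)), IsSemi ψ → ∀ (r : ℝ) (d : ℕ), 0 < r → 0 < d → ∃ S : ℝ, 0 < S ∧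
    ∀ κ : ℝ, 0 < κ → ∃ δ₂ : ℝ, 0 < δ₂ ∧ ∀ (ν : Measure ℝ) [IsProbabilityMeasure ν] (δ : ℝ),
      0 < δ → δ ≤ δ₂ → (∀ᵐ x ∂ν, |x| ≤ δ) → κ * δ ^ 2 ≤ vr ν →
      ∃ σ : ℝ, 0 < σ ∧ ∀ (ρ' : Measure ℝ) [IsProbabilityMeasure ρ'],
        ρ' (Set.Icc (-S) S)ᶜ = 0 → ∀ z ∈ Zs d, ∀ s : C(UnitAddTorus (Fin d), ℂ),
        IsFix ν ((lev ψ r).conv ρ') (wz (lap d) z) s → ‖s‖ ≤ 1 - σ

/-- The variance of the Cayley transform of a small multiple of a random variable. -/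
def S_VR : Prop :=
  ∀ (ν : Measure ℝ) [IsProbabilityMeasure ν] (C : ℝ), 0 < C → (∀ᵐ x ∂ν, |x| ≤ C) →
    (∀ a : ℝ, ν {a} < 1) → ∃ κ lam₁ : ℝ, 0 < κ ∧ 0 < lam₁ ∧ ∀ lam : ℝ, 0 < lam → lam ≤ lam₁ →
      κ * (lam * C) ^ 2 ≤ vr (ν.map fun x => lam * x)

/-- Laws of the future levels. -/
def S_FUT : Prop :=
  ∀ (ψ : C(UnitAddCircle, ℝ)), IsSemi ψ → ∀ l : ℕ → ℝ, (∀ n, 0 < l n) → Summable l →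
    ∃ ρ : ℕ → Measure ℝ, (∀ n, IsProbabilityMeasure (ρ n)) ∧
      (∀ n, ρ n = (lev ψ (l n)).conv (ρ (n + 1))) ∧
      (∀ n, ρ n (Set.Icc (-(∑' j, l (n + j))) (∑' j, l (n + j)))ᶜ = 0) ∧
      ∀ (n : ℕ) (a b : ℝ), ρ n {a, b} < 1

/-- Uniform bounds and continuity in the energy. -/
def S_UNI : Prop :=
  ∀ (ν : Measure ℝ) [IsProbabilityMeasure ν] (d : ℕ) (ρ : Measure ℝ) [IsProbabilityMeasure ρ]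
    (C σ : ℝ) (K : C(UnitAddTorus (Fin d), ℝ)), 0 < vr ν → ρ (Set.Icc (-C) C)ᶜ = 0 →
    (∀ a b : ℝ, ρ {a, b} < 1) → 0 < σ →
    (∀ z ∈ Zs d, ∀ s, IsFix ν ρ (wz K z) s → ‖s‖ ≤ 1 - σ) →
    (∀ z ∈ Zs d, ∃! s, IsFix ν ρ (wz K z) s) ∧
    (∃ q : ℝ, 0 ≤ q ∧ q < 1 ∧ ∀ z ∈ Zs d, ∀ s, IsFix ν ρ (wz K z) s → ‖UU ρ (wz K z) s‖ ≤ q) ∧
    ∀ e : ℝ, 0 < e → ∃ θ : ℝ, 0 < θ ∧ ∀ z ∈ Zs d, ∀ z' ∈ Zs d, ‖z - z'‖ ≤ θ →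
      ∀ s s', IsFix ν ρ (wz K z) s → IsFix ν ρ (wz K z') s' →
        ‖s - s'‖ ≤ e ∧ ‖UU ρ (wz K z) s - UU ρ (wz K z') s'‖ ≤ e

/-- Adding one level. -/
def S_STEP : Prop :=
  ∀ (ν : Measure ℝ) [IsProbabilityMeasure ν] (d : ℕ) (ψ : C(UnitAddCircle, ℝ))
    (ρ : Measure ℝ) [IsProbabilityMeasure ρ] (C σ l : ℝ) (K : C(UnitAddTorus (Fin d), ℝ)),
    0 < d → IsSemi ψ → 0 < vr ν → ρ (Set.Icc (-C) C)ᶜ = 0 → (∀ a b : ℝ, ρ {a, b} < 1) →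
    0 < l → 0 < σ → (∀ z ∈ Zs d, ∀ s, IsFix ν ((lev ψ l).conv ρ) (wz K z) s → ‖s‖ ≤ 1 - σ) →
    ∀ e : ℝ, 0 < e → ∃ M₀ : ℕ, ∀ M : ℕ, M₀ ≤ M → ∀ z ∈ Zs d, ∀ s s',
      IsFix ν ((lev ψ l).conv ρ) (wz K z) s → IsFix ν ρ (wz (addL ψ K l M) z) s' →
      ‖s - s'‖ ≤ e ∧ ∫ v, ‖Zf (UU ((lev ψ l).conv ρ) (wz K z) s) (fun x => cay (v x))
        - Zf (UU ρ (wz (addL ψ K l M) z) s') (fun x => cay (v x))‖ ∂(Pn ν (Fin d → ℤ)) ≤ e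

/-- Energies: bounds for `cayx`. -/
def S_CX : Prop :=
  (∀ (x : ℂ) (a : ℝ), x.im ≤ 0 → ‖cayx x a‖ ≤ 1 ∧ (x : ℂ) + a - Complex.I ≠ 0) ∧
  (∀ (x x' : ℂ) (a a' : ℝ), x.im ≤ 0 → x'.im ≤ 0 →
    ‖cayx x a - cayx x' a'‖ ≤ 2 * (‖x - x'‖ + |a - a'|)) ∧
  (∀ C D η : ℝ, 0 < η → ∃ q : ℝ, 0 ≤ q ∧ q < 1 ∧
    ∀ (x : ℂ) (a : ℝ), ‖x‖ ≤ D → x.im ≤ -η → |a| ≤ C → ‖cayx x a‖ ≤ q) ∧
  ∀ (d : ℕ) (K : C(UnitAddTorus (Fin d), ℝ)) (z : ℂ), 0 ≤ z.im →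
    Continuous (Function.uncurry (wz K z))

/-! ## H. Spectral measures -/

/-- Measurability of `Zf` in the potential. -/
def S_MZP : Prop :=
  ∀ (d : ℕ) (m : C(UnitAddTorus (Fin d), ℂ)) (q : ℝ), q < 1 → ‖m‖ ≤ q →
    Measurable fun v : (Fin d → ℤ) → ℝ => Zf m (fun x => cay (v x))

/-- The spectral measure at the origin, and the equation. -/
def S_SPM : Prop :=
  ∀ (d : ℕ) (K : C(UnitAddTorus (Fin d), ℝ)) (v : (Fin d → ℤ) → ℝ) (C : ℝ), (∀ x, |v x| ≤ C) →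
    ∃ μ : Measure ℝ, IsFiniteMeasure μ ∧ ∀ z : ℂ, 0 < z.im →
      (∃ w, Sol (hopK K) 1 v z 0 w) ∧ ∀ w, Sol (hopK K) 1 v z 0 w →
        w 0 = ∫ E : ℝ, 1 / ((E : ℂ) - z) ∂μ

/-- Stieltjes inversion. -/
def S_ACI : Prop :=
  ∀ (μ : Measure ℝ) [IsFiniteMeasure μ] (a b : ℝ) (η : ℕ → ℝ), a < b → (∀ n, 0 < η n) →
    Tendsto η atTop (𝓝 0) →
    (Summable fun n : ℕ => ∫ E in Set.Icc a b,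
      |(∫ t : ℝ, 1 / ((t : ℂ) - ⟨E, η (n + 1)⟩) ∂μ).im
        - (∫ t : ℝ, 1 / ((t : ℂ) - ⟨E, η n⟩) ∂μ).im|) →
    (∀ᵐ E ∂(volume.restrict (Set.Ioo a b)), ∃ L : ℝ, 0 < L ∧
      Tendsto (fun n => (∫ t : ℝ, 1 / ((t : ℂ) - ⟨E, η n⟩) ∂μ).im) atTop (𝓝 L)) →
    ∃ h : ℝ → ℝ, Measurable h ∧ (∀ᵐ E ∂(volume.restrict (Set.Ioo a b)), 0 < h E) ∧
      μ.restrict (Set.Ioo a b)
        = (volume.restrict (Set.Ioo a b)).withDensity fun E => ENNReal.ofReal (h E)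

/-- Shift of the origin. -/
def S_SHF : Prop :=
  ∀ (ν : Measure ℝ) [IsProbabilityMeasure ν] (d : ℕ) (Q : ((Fin d → ℤ) → ℝ) → Prop),
    (∀ᵐ v ∂(Pn ν (Fin d → ℤ)), Q v) →
    ∀ᵐ v ∂(Pn ν (Fin d → ℤ)), ∀ x : Fin d → ℤ, Q fun y => v (y + x)

/-- Scaling of the law. -/
def S_SCA : Prop :=
  ∀ (ν : Measure ℝ) [IsProbabilityMeasure ν] (lam : ℝ)
    [IsProbabilityMeasure (ν.map fun x => lam * x)] (d : ℕ) (Q : ((Fin d → ℤ) → ℝ) → Prop),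
    (∀ᵐ v ∂(Pn (ν.map fun x => lam * x) (Fin d → ℤ)), Q v) →
    ∀ᵐ v ∂(Pn ν (Fin d → ℤ)), Q fun y => lam * v y

/-- The symbol of `f(-Δ)`. -/
def fK (f : C(ℝ, ℝ)) (d : ℕ) : C(UnitAddTorus (Fin d), ℝ) := f.comp (lap d)

/-- The normalized imaginary part of the Green function at `E + i η`. -/
def Pf (d : ℕ) (f : C(ℝ, ℝ)) (η E : ℝ) (v : (Fin d → ℤ) → ℝ) : ℝ :=
  2 * (Zf (us (Measure.dirac 0) 1 ⟨E, η⟩ (fK f d)) (fun x => cay (v x))).re - 1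

/-- The construction of `f`. -/
def S_CHAIN : Prop :=
  ∀ (d : ℕ) (ν : Measure ℝ) [IsProbabilityMeasure ν] (C ε : ℝ), 0 < d → 0 < C →
    (∀ᵐ x ∂ν, |x| ≤ C) → (∀ a : ℝ, ν {a} < 1) → 0 < ε → ∃ lam₀ : ℝ, 0 < lam₀ ∧
    ∀ lam : ℝ, 0 < lam → lam ≤ lam₀ → ∀ [IsProbabilityMeasure (ν.map fun x => lam * x)],
    ∃ (f : C(ℝ, ℝ)) (η p : ℕ → ℝ), (∀ t, |f t - t| ≤ ε) ∧ (∀ n, 0 < η n ∧ η n ≤ 1) ∧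
      Tendsto η atTop (𝓝 0) ∧ (∀ n, 0 < p n) ∧ Antitone p ∧
      ∀ (n : ℕ) (E : ℝ), 0 ≤ E → E ≤ 4 * d →
        ∫ v, |Pf d f (η (n + 1)) E v - Pf d f (η n) E v|
          ∂(Pn (ν.map fun x => lam * x) (Fin d → ℤ)) ≤ p n / 4 ^ n ∧
        (Pn (ν.map fun x => lam * x) (Fin d → ℤ) {v | Pf d f (η n) E v < p n}).toReal
          ≤ 1 / 4 ^ n

/-- The final theorem. -/
def S_FIN : Prop :=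
  ∀ (d : ℕ) (ν : Measure ℝ) [IsProbabilityMeasure ν] (C ε : ℝ), 0 < d → 0 < C →
    (∀ᵐ x ∂ν, |x| ≤ C) → (∀ a : ℝ, ν {a} < 1) → 0 < ε → ∃ lam₀ : ℝ, 0 < lam₀ ∧
    ∀ lam : ℝ, 0 < lam → lam ≤ lam₀ → ∃ f : C(ℝ, ℝ), (∀ t, |f t - t| ≤ ε) ∧
      ∀ᵐ v ∂(Pn ν (Fin d → ℤ)), ACIn (ker f d) lam v

end

end Pool.Agent.W792.WA
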