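import Pool.Agent.W792.WA.Stm2

/-!
Statements of the third part of the project WA: unbounded laws.
-/

namespace Pool.Agent.W792.WA

open MeasureTheory Filter Pool.Agent.W792.LL
open scoped Topology

noncomputable section

/-- Functions with values in `[-δ, δ]`. -/
def Bd (δ : ℝ) : Set MX := {X | ∀ u, |X.1 u| ≤ δ}

/-- Quantile functions. -/
def Qf : Set MX := {X | MonotoneOn X.1 (Set.Ioo 0 1)}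

/-- Quantile functions, all laws. -/
def S_QNT2 : Prop :=
  ∀ (μ : Measure ℝ) [IsProbabilityMeasure μ], ∃ X ∈ Qf, qlaw X = μ

/-- Quantile functions form a totally bounded set. -/
def S_NETX2 : Prop := TB Qf

/-- Dependence of the effective phase on the law, explicit constant. -/
def S_PSIX : Prop :=
  ∀ (q τ : ℝ) (X Y : MX), 0 ≤ q → q < 1 → 0 ≤ τ → cd X Y ≤ τ ^ 2 →
    ∀ (d : ℕ) (m : C(UnitAddTorus (Fin d), ℂ)), ‖m‖ ≤ q →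
      ‖psi (qlaw X) m - psi (qlaw Y) m‖ ≤ 8 / (1 - q) ^ 3 * τ

/-- `S_PERT` with a strict invariance. -/
def S_PERT3 : Prop :=
  ∀ CB : ℝ, 1 ≤ CB → ∃ c₀ : ℝ, 0 < c₀ ∧ ∀ (ν : Measure ℝ) [IsProbabilityMeasure ν] (d : ℕ)
    (s U B : C(UnitAddTorus (Fin d), ℂ)) (δ J : ℝ), 0 < δ → δ ≤ c₀ →
    (∀ᵐ x ∂ν, ‖cay x + 1‖ ≤ 2 * δ) → ‖U‖ < 1 → ‖s‖ ≤ 1 → (∀ k, ‖s k + 1‖ ≤ 4 * δ) →
    (∀ k, ‖B k‖ ≤ CB) → (∀ k, U k * (1 + s k * B k) = B k) → 0 < J →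
    J ≤ ∫ k, (‖1 + s k * B k‖ ^ 2 - ‖B k‖ ^ 2) → δ ^ 2 ≤ c₀ * Real.sqrt (vr ν * J) →
    ∀ k, ‖psi ν U k + 1‖ ≤ 3 * δ ∧ ‖psi ν U k‖ ^ 2 ≤ 1 - vr ν * J / 16

/-- Gap for laws close to laws with small support. -/
def S_BASE4 : Prop :=
  ∀ (ψ : C(UnitAddCircle, ℝ)), IsSemi ψ → ∀ (r J κ D C : ℝ), 0 < r → 0 < J → 0 < κ →
    ∃ δ₂ c : ℝ, 0 < δ₂ ∧ 0 < c ∧ ∀ (X X' : MX) (δ : ℝ) (d : ℕ)
      (K : C(UnitAddTorus (Fin d), ℝ)) (ρ' : Measure ℝ) [IsProbabilityMeasure ρ'] (z : ℂ),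
      0 < δ → δ ≤ δ₂ → X' ∈ Bd δ → cd X X' ≤ (δ ^ 14) ^ 2 → κ * δ ^ 3 ≤ vr (qlaw X') →
      ρ' (Set.Icc (-C) C)ᶜ = 0 → ‖K‖ ≤ D → ‖z‖ ≤ D → 0 < z.im →
      J ≤ jf ((lev ψ r).conv ρ') K z →
      ∀ s : C(UnitAddTorus (Fin d), ℂ), IsFix (qlaw X) ((lev ψ r).conv ρ') (wz K z) s →
        0 < vr (qlaw X) ∧ ‖s‖ ≤ 1 - c * δ ^ 3

/-- Laws with enough moments. -/
def S_MOM : Prop :=
  ∀ (ν : Measure ℝ) [IsProbabilityMeasure ν], Integrable (fun x : ℝ => x ^ 60) ν →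
    (∀ a : ℝ, ν {a} < 1) → ∃ κ lam₁ : ℝ, 0 < κ ∧ 0 < lam₁ ∧ lam₁ ≤ 1 ∧
    ∀ lam : ℝ, 0 < lam → lam ≤ lam₁ → ∀ X : MX, qlaw X = (ν.map fun x => lam * x) →
      ∃ X' ∈ Bd (lam ^ (2 / 3 : ℝ)), cd X X' ≤ ((lam ^ (2 / 3 : ℝ)) ^ 14) ^ 2 ∧
        κ * (lam ^ (2 / 3 : ℝ)) ^ 3 ≤ vr (qlaw X')

/-- The spectral measure at the origin, any potential. -/
def S_SPMU : Prop :=
  ∀ (d : ℕ) (K : C(UnitAddTorus (Fin d), ℝ)) (v : (Fin d → ℤ) → ℝ),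
    ∃ μ : Measure ℝ, IsFiniteMeasure μ ∧ ∀ z : ℂ, 0 < z.im →
      (∃ w, Sol (hopK K) 1 v z 0 w) ∧ ∀ w, Sol (hopK K) 1 v z 0 w →
        w 0 = ∫ E : ℝ, 1 / ((E : ℂ) - z) ∂μ

/-- The mean estimates for a law. -/
def Mest (d : ℕ) (f : C(ℝ, ℝ)) (ν : Measure ℝ) [IsProbabilityMeasure ν] : Prop :=
  ∃ η p : ℕ → ℝ, (∀ n, 0 < η n ∧ η n ≤ 1) ∧
      Tendsto η atTop (𝓝 0) ∧ (∀ n, 0 < p n) ∧ Antitone p ∧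
      ∀ (n : ℕ) (E : ℝ), 0 ≤ E → E ≤ 4 * d →
        ∫ v, |Pf d f (η (n + 1)) E v - Pf d f (η n) E v| ∂(Pn ν (Fin d → ℤ)) ≤ p n / 4 ^ n ∧
        (Pn ν (Fin d → ℤ) {v | Pf d f (η n) E v < p n}).toReal ≤ 1 / 4 ^ n

/-- From the mean estimates to spectral measures. -/
def S_AEQ : Prop :=
  ∀ (d : ℕ) (ν : Measure ℝ) [IsProbabilityMeasure ν] (lam ε : ℝ) (f : C(ℝ, ℝ))
    [IsProbabilityMeasure (ν.map fun x => lam * x)], 0 < d → 0 < lam → (∀ t, |f t - t| ≤ ε) →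
    Mest d f (ν.map fun x => lam * x) → ∀ᵐ v ∂(Pn ν (Fin d → ℤ)), ACIn (ker f d) lam v

/-- The final theorem: one `f` for all laws with finite moments and all small couplings. -/
def S_UFIN2 : Prop :=
  ∀ (d : ℕ) (ε : ℝ), 0 < d → 0 < ε → ∃ f : C(ℝ, ℝ), (∀ t, |f t - t| ≤ ε) ∧
    ∀ (ν : Measure ℝ) [IsProbabilityMeasure ν], Integrable (fun x : ℝ => x ^ 60) ν →
    (∀ a : ℝ, ν {a} < 1) → ∃ lam₀ : ℝ, 0 < lam₀ ∧ ∀ lam : ℝ, 0 < lam → lam ≤ lam₀ →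
      ∀ᵐ v ∂(Pn ν (Fin d → ℤ)), ACIn (ker f d) lam v

end

end Pool.Agent.W792.WA
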