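import Pool.Agent.W792.WA.Stm4

/-!
Statements of the fifth part of the project WA: arbitrary disorder strength, perturbations of the
kinetic energy small in `L^p`, `p < 2`.
-/

namespace Pool.Agent.W792.WA

open MeasureTheory Filter Pool.Agent.W792.LL
open scoped Topology

noncomputable section

/-- Level functions. -/
structure IsLv (ψ : C(UnitAddCircle, ℝ)) : Prop where
  bound : ∀ t, |ψ t| ≤ 1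
  atom : ∀ a, volume {φ : ℝ | φ ∈ Set.Ioc (0 : ℝ) 1 ∧ ψ (φ : UnitAddCircle) = a} = 0

/-- `S_STEP2` for any level function. -/
def S_STEPL : Prop :=
  ∀ (d : ℕ) (ψ : C(UnitAddCircle, ℝ)) (ρ : Measure ℝ) [IsProbabilityMeasure ρ] (C σ l : ℝ)
    (K : C(UnitAddTorus (Fin d), ℝ)) (𝓧 : Set MX),
    0 < d → IsLv ψ → (∀ X ∈ 𝓧, 0 < vr (qlaw X)) → TB 𝓧 → ρ (Set.Icc (-C) C)ᶜ = 0 →
    (∀ a b : ℝ, ρ {a, b} < 1) → 0 < l → 0 < σ →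
    (∀ X ∈ 𝓧, ∀ z ∈ Zs d, ∀ s, IsFix (qlaw X) ((lev ψ l).conv ρ) (wz K z) s → ‖s‖ ≤ 1 - σ) →
    ∀ e : ℝ, 0 < e → ∃ M₀ : ℕ, ∀ M : ℕ, M₀ ≤ M → ∀ X ∈ 𝓧, ∀ z ∈ Zs d, ∀ s s',
      IsFix (qlaw X) ((lev ψ l).conv ρ) (wz K z) s → IsFix (qlaw X) ρ (wz (addL ψ K l M) z) s' →
      ‖s - s'‖ ≤ e ∧ ∫ v, ‖Zf (UU ((lev ψ l).conv ρ) (wz K z) s) (fun x => cay (v x))
        - Zf (UU ρ (wz (addL ψ K l M) z) s') (fun x => cay (v x))‖ ∂(Pn (qlaw X) (Fin d → ℤ)) ≤ e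

/-- Support and atoms of a convolution with a level. -/
def S_ATM : Prop :=
  ∀ (ψ : C(UnitAddCircle, ℝ)) (l C : ℝ) (ρ : Measure ℝ) [IsProbabilityMeasure ρ], IsLv ψ → 0 < l →
    IsProbabilityMeasure (lev ψ l) ∧
    (ρ (Set.Icc (-C) C)ᶜ = 0 → ((lev ψ l).conv ρ) (Set.Icc (-(C + l)) (C + l))ᶜ = 0) ∧
    ∀ a b : ℝ, ((lev ψ l).conv ρ) {a, b} < 1

/-- Cauchy average. -/
def S_CAUI : Prop :=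
  ∀ (γ : ℝ) (x s : ℂ), 0 < γ → x.im < 0 → ‖s‖ < 1 →
    ∫ a, cayx x (γ * a) / (1 - cayx x (γ * a) * s) ∂(ProbabilityTheory.cauchyMeasure 0 1)
      = cayx (x - γ * Complex.I) 0 / (1 - cayx (x - γ * Complex.I) 0 * s)

/-- Level functions with law close to the Cauchy law. -/
def S_TAN : Prop :=
  ∀ γ τ : ℝ, 0 < γ → 0 < τ → τ ≤ 1 / 2 → ∃ (ψ : C(UnitAddCircle, ℝ)) (R : ℝ), IsLv ψ ∧ 0 < R ∧
    (∀ (f : ℝ → ℂ) (F : ℝ), Measurable f → (∀ a, ‖f a‖ ≤ F) →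
      ‖∫ a, f a ∂(lev ψ R) - ∫ a, f (γ * a) ∂(ProbabilityTheory.cauchyMeasure 0 1)‖
        ≤ 2 * τ * F) ∧
    ∀ p : ℝ, 1 < p → p < 2 → ∫ φ in Set.Ioc (0 : ℝ) 1, |R * ψ (φ : UnitAddCircle)| ^ p
      ≤ 2 * γ ^ p * τ ^ (1 - p) / (p - 1)

/-- The first level: uniform absorption. -/
def S_LEV0 : Prop :=
  ∀ p κ D ε : ℝ, 1 < p → p < 2 → 0 < κ → κ ≤ 1 → 0 < ε →
    ∃ (ψ : C(UnitAddCircle, ℝ)) (R η q : ℝ), IsLv ψ ∧ 0 < R ∧ 0 < η ∧ η < 1 ∧ 0 ≤ q ∧ q < 1 ∧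
      η ≤ (1 - q ^ 2) * κ / 8 ∧
      (∫ φ in Set.Ioc (0 : ℝ) 1, |R * ψ (φ : UnitAddCircle)| ^ p ≤ ε) ∧
      ∀ (ρ' : Measure ℝ) [IsProbabilityMeasure ρ'], ρ' (Set.Icc (-1) 1)ᶜ = 0 →
        ∀ x s : ℂ, ‖x‖ ≤ D → x.im < 0 → ‖s‖ ≤ 1 - η →
          ‖Us ((lev ψ R).conv ρ') (cayx x) s‖ ≤ q

/-- Gap for all laws with enough variance. -/
def S_GAPC : Prop :=
  ∀ p κ D ε : ℝ, 1 < p → p < 2 → 0 < κ → κ ≤ 1 → 0 < ε →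
    ∃ (ψ : C(UnitAddCircle, ℝ)) (R η : ℝ), IsLv ψ ∧ 0 < R ∧ 0 < η ∧
      (∫ φ in Set.Ioc (0 : ℝ) 1, |R * ψ (φ : UnitAddCircle)| ^ p ≤ ε) ∧
      ∀ (ν : Measure ℝ) [IsProbabilityMeasure ν] (d : ℕ) (K : C(UnitAddTorus (Fin d), ℝ)) (z : ℂ)
        (ρ' : Measure ℝ) [IsProbabilityMeasure ρ'], κ ≤ vr ν → ρ' (Set.Icc (-1) 1)ᶜ = 0 →
        ‖K‖ + ‖z‖ ≤ D → 0 < z.im → ∀ s : C(UnitAddTorus (Fin d), ℂ),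
        IsFix ν ((lev ψ R).conv ρ') (wz K z) s → ‖s‖ ≤ 1 - η

/-- Equidistribution of `M lap / 2π`. -/
def S_EQD : Prop :=
  ∀ (d : ℕ) (h : C(UnitAddCircle, ℝ)), 0 < d → ∀ e : ℝ, 0 < e → ∃ M₀ : ℕ, ∀ M : ℕ, M₀ ≤ M →
    |(∫ k : UnitAddTorus (Fin d), h ((M * lap d k / (2 * Real.pi) : ℝ) : UnitAddCircle))
      - ∫ φ in Set.Ioc (0 : ℝ) 1, h (φ : UnitAddCircle)| ≤ e

/-- Scaling of `vr`. -/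
def S_VRS : Prop :=
  ∀ (ν : Measure ℝ) [IsProbabilityMeasure ν] (α : ℝ), 0 < α →
    min (α ^ 2) (1 / α ^ 2) * vr ν ≤ vr (ν.map fun x => α * x)

/-- Normalized form of the theorem at arbitrary disorder. -/
def S_NPN : Prop :=
  ∀ (d : ℕ) (K : C(UnitAddTorus (Fin d), ℝ)) (p κ ε : ℝ), 0 < d → 1 < p → p < 2 → 0 < κ → 0 < ε →
    ∃ g : C(ℝ, ℝ), (∃ B : ℝ, ∀ t, |g t| ≤ B) ∧
      (∫ k : UnitAddTorus (Fin d), |g (lap d k)| ^ p ≤ ε) ∧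
    ∀ (ν : Measure ℝ) [IsProbabilityMeasure ν], κ ≤ vr ν →
      ∀ᵐ v ∂(Pn ν (Fin d → ℤ)), ACIK (K + gK g d) 1 v 0 (4 * d)

/-- The theorem at arbitrary disorder. -/
def S_NPFIN : Prop :=
  ∀ (d : ℕ) (K : C(UnitAddTorus (Fin d), ℝ)) (a b p κ ε : ℝ), 0 < d → a < b → 1 < p → p < 2 →
    0 < κ → 0 < ε → ∃ g : C(ℝ, ℝ), (∃ B : ℝ, ∀ t, |g t| ≤ B) ∧
      (∫ k : UnitAddTorus (Fin d), |g (lap d k)| ^ p ≤ ε) ∧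
    ∀ (ν : Measure ℝ) [IsProbabilityMeasure ν], κ ≤ vr ν →
      ∀ᵐ v ∂(Pn ν (Fin d → ℤ)), ACIK (K + gK g d) 1 v a b

end

end Pool.Agent.W792.WA
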