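import Pool.Agent.W792.WA.G3

/-!
The chain: construction.
-/

namespace Pool.Agent.W792.WA.Ch

open MeasureTheory Filter Pool.Agent.W792.LL Pool.Agent.W792.WA
open scoped Topology

noncomputable section

theorem exists_CD (hU : S_UNI) (hS : S_STEP) (hF : S_FUT) {ν : Measure ℝ}
    [IsProbabilityMeasure ν] {d : ℕ} (hd : 0 < d) {ψ : C(UnitAddCircle, ℝ)} (hψ : IsSemi ψ)
    (hv : 0 < vr ν) {r S σ : ℝ} (hr : 0 < r) (hS0 : 0 < S) (hσ : 0 < σ)
    (hB : ∀ (ρ' : Measure ℝ) [IsProbabilityMeasure ρ'],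
        ρ' (Set.Icc (-S) S)ᶜ = 0 → ∀ z ∈ Zs d, ∀ s : C(UnitAddTorus (Fin d), ℂ),
        IsFix ν ((lev ψ r).conv ρ') (wz (lap d) z) s → ‖s‖ ≤ 1 - σ) :
    ∃ D : CD ν d ψ, D.T 0 ≤ 2 * r := by
  -- geometric levels
  set t : ℝ := min (1 / 2) (S / (2 * r)) with ht
  have ht0 : 0 < t := lt_min (by norm_num) (by positivity)
  have ht1 : t ≤ 1 / 2 := min_le_left _ _
  have ht2 : 2 * r * t ≤ S := by
    have h1 : t ≤ S / (2 * r) := min_le_right _ _
    calc 2 * r * t ≤ 2 * r * (S / (2 * r)) := by gcongr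
      _ = S := by field_simp
  set l : ℕ → ℝ := fun n => r * t ^ n with hl
  set T : ℕ → ℝ := fun n => 2 * r * t ^ n with hT
  have hl0 : ∀ n, 0 < l n := fun n => by simp only [hl]; positivity
  have hsum : Summable l := (summable_geometric_of_lt_one ht0.le (by linarith)).mul_left r
  obtain ⟨ρ, hρ1, hρ2, hρ3, hρ4⟩ := hF ψ hψ l hl0 hsum
  have htail : ∀ n, ∑' j, l (n + j) ≤ T n := by
    intro n
    have h1 : ∀ j, l (n + j) = (r * t ^ n) * t ^ j := by
      intro j; simp only [hl]; rw [pow_add]; ring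
    simp only [h1]
    rw [tsum_mul_left, tsum_geometric_of_lt_one ht0.le (by linarith)]
    have h2 : (1 - t)⁻¹ ≤ 2 := by
      rw [inv_le_comm₀ (by linarith) (by norm_num)]
      linarith
    calc r * t ^ n * (1 - t)⁻¹ ≤ r * t ^ n * 2 := by gcongr
      _ = T n := by simp only [hT]; ring
  have hρ3' : ∀ n, ρ n (Set.Icc (-(T n)) (T n))ᶜ = 0 := by
    intro n
    refine measure_mono_null (Set.compl_subset_compl.2 ?_) (hρ3 n)
    have := htail n
    exact Set.Icc_subset_Icc (by linarith) this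
  -- base
  have hbase : Gap ν d (ρ 0) (ContinuousMap.id ℝ) σ := by
    intro z hz s hs
    have := hρ1 1
    rw [fK_id, hρ2 0] at hs
    have h0 : l 0 = r := by simp [hl]
    rw [h0] at hs
    refine hB (ρ (0 + 1)) ?_ z hz s hs
    refine measure_mono_null (Set.compl_subset_compl.2 ?_) (hρ3' 1)
    have h1 : T 1 ≤ S := by simp only [hT]; rw [pow_one]; exact ht2
    exact Set.Icc_subset_Icc (by linarith) h1
  -- carry the identity at stage 0 along
  obtain ⟨x, hx⟩ := exists_seq (α := C(ℝ, ℝ) × ℝ)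
    (fun n a => Inv ν d ρ σ n a ∧ (n = 0 → a.1 = ContinuousMap.id ℝ))
    (fun n a b => Rel ν d ψ l ρ n a b) (by
      have := hρ1 0
      obtain ⟨q, hq0, hq1, hq2⟩ := (hU ν d (ρ 0) (T 0) σ (fK (ContinuousMap.id ℝ) d) hv (hρ3' 0)
        (hρ4 0) hσ hbase).2.1
      have hq3 : 0 < (1 - q ^ 2) / 8 := by
        have : q ^ 2 < 1 := by nlinarith
        linarith
      have hq4 : (1 - q ^ 2) / 8 ≤ 1 := by nlinarith
      refine ⟨(ContinuousMap.id ℝ, (1 - q ^ 2) / 8), ⟨?_, hq3, hq4, q, hq0, hq1, le_rfl, hq2⟩,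
        fun _ => rfl⟩
      have e : σ * (1 / 2 + 1 / 2 ^ (0 + 1)) = σ := by ring
      rw [e]
      exact hbase) (by
      intro n a ha
      obtain ⟨b, hb1, hb2⟩ := step_inv hU hS hd hψ hv hl0 hρ1 hρ2 hρ3' hρ4 hσ n a ha.1
      exact ⟨b, ⟨hb1, fun h => absurd h (Nat.succ_ne_zero n)⟩, hb2⟩)
  have hM : ∀ n, ∃ M : ℕ, (x (n + 1)).1 = nx ψ (x n).1 (l n) M := fun n => (hx n).2.1
  choose M hM using hM
  have hq : ∀ n, ∃ q : ℝ, 0 ≤ q ∧ q < 1 ∧ (x n).2 ≤ (1 - q ^ 2) / 8 ∧ Ctr ν d (ρ n) (x n).1 q :=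
    fun n => (hx n).1.1.2.2.2
  choose q hq0 hq1 hq2 hq3 using hq
  refine ⟨{
    l := l, ρ := ρ, T := T, σ := σ / 2, f := fun n => (x n).1, p := fun n => (x n).2, M := M, q := q
    hv := hv
    hψ := hψ.bound
    hl := hl0
    hT := ?_
    hTp := fun n => by simp only [hT]; positivity
    hT0 := ?_
    hρ1 := hρ1
    hρ3 := hρ3'
    hρ4 := hρ4
    hσ := by positivity
    gap := ?_
    hp := fun n => (hx n).1.1.2.1
    anti := fun n => (hx n).2.2.1
    hq0 := hq0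
    hq1 := hq1
    hq2 := hq2
    ctr := hq3
    f0 := (hx 0).1.2 rfl
    fs := hM
    rel := fun n => (hx n).2.2.2 }, ?_⟩
  · intro n
    simp only [hl, hT]
    rw [pow_succ]
    have : 0 < r * t ^ n := by positivity
    nlinarith
  · have h1 := (tendsto_pow_atTop_nhds_zero_of_lt_one ht0.le (by linarith : t < 1)).const_mul (2 * r)
    simpa using h1
  · intro n z hz s hs
    have h1 := (hx n).1.1.1 z hz s hs
    have h2 : σ / 2 ≤ σ * (1 / 2 + 1 / 2 ^ (n + 1)) := by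
      have : 0 < σ * (1 / 2 ^ (n + 1)) := by positivity
      linarith
    linarith
  · simp [hT]

/-- The chain theorem from the parts. -/
theorem main (hX : S_CX) (hUU : S_UUC) (hL : S_SCL) (hZ : S_ZF) (hCay : S_CAY)
    (hM : S_MZP) (hU : S_UNI) (hS : S_STEP) (hF : S_FUT) (hV : S_VR) (hB : S_BASE)
    (hψ : S_SEMI) : S_CHAIN := by
  intro d ν hν C ε hd hC hνC hνd hε
  obtain ⟨ψ, hψ⟩ := hψ
  obtain ⟨S, hS0, hB1⟩ := hB ψ hψ (ε / 2) d (by positivity) hd
  obtain ⟨κ, lam₁, hκ, hlam₁, hV1⟩ := hV ν C hC hνC hνd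
  obtain ⟨δ₂, hδ₂, hB2⟩ := hB1 κ hκ
  refine ⟨min lam₁ (δ₂ / C), lt_min hlam₁ (by positivity), fun lam h0 h1 hP => ?_⟩
  have h2 : lam ≤ lam₁ := h1.trans (min_le_left _ _)
  have h3 : lam * C ≤ δ₂ := by
    have h4 : lam ≤ δ₂ / C := h1.trans (min_le_right _ _)
    calc lam * C ≤ δ₂ / C * C := by gcongr
      _ = δ₂ := by field_simp
  have hvr := hV1 lam h0 h2
  have hδ : 0 < lam * C := by positivity
  have hsupp : ∀ᵐ x ∂(ν.map fun x => lam * x), |x| ≤ lam * C := by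
    have hm : AEMeasurable (fun x : ℝ => lam * x) ν := by fun_prop
    refine (ae_map_iff (p := fun x => |x| ≤ lam * C) hm
      (measurableSet_le measurable_id.abs measurable_const)).2 ?_
    filter_upwards [hνC] with x hx
    rw [abs_mul, abs_of_pos h0]
    gcongr
  obtain ⟨σ, hσ, hB3⟩ := hB2 (ν.map fun x => lam * x) (lam * C) hδ h3 hsupp hvr
  have hv : 0 < vr (ν.map fun x => lam * x) := lt_of_lt_of_le (by positivity) hvr
  obtain ⟨D, hD⟩ := exists_CD hU hS hF hd hψ hv (r := ε / 2) (by positivity) hS0 hσ hB3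
  obtain ⟨f, η, p, c1, c2, c3, c4, c5, c6⟩ := D.concl hX hUU hL hZ hCay hM hU
  refine ⟨f, η, p, fun t => (c1 t).trans ?_, c2, c3, c4, c5, c6⟩
  linarith

end

end Pool.Agent.W792.WA.Ch
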