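import Pool.Agent.W378.WA.SC1
import Pool.Agent.W800.WA.Sc2
import Pool.Agent.W991.WA.Scl
import Pool.Agent.W881.WA.Gain
import Pool.Agent.W683.WA.Symb
import Pool.Agent.W298.WA.Csym
import Pool.Agent.W19.WAPsi
import Pool.Agent.W74.WA.Ql
import Pool.Agent.W308.WA.Inf2
import Pool.Agent.W18.WA.Freel
import Pool.Agent.W563.WA.Free
import Pool.Agent.W214.WA.Small
import Pool.Agent.W298.WA.Vit1
import Pool.Agent.W391.WA.Vit2
import Pool.Agent.W973.WA.Holp
import Pool.Agent.W636.WAHolc
import Pool.Agent.W585.WA.Holu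
import Pool.Agent.W589.WA.Uuc
import Pool.Agent.W376.WAFix
import Pool.Agent.W571.WAHolf
import Pool.Agent.W293.WA.C1
import Pool.Agent.W701.WA.Stab
import Pool.Agent.W191.WA.Pert
import Pool.Agent.W853.WA.Semi
import Pool.Agent.W335.WAB.BaseJ
import Pool.Agent.W414.WA.Base
import Pool.Agent.W999.WA.Vr
import Pool.Agent.W800.WA.Fut
import Pool.Agent.W402.WAUni
import Pool.Agent.W685.WA.Step
import Pool.Agent.W382.WA.Cx
import Pool.Agent.W64.WAMzp
import Pool.Agent.W605.WA.SPM
import Pool.Agent.W465.WAAci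
import Pool.Agent.W571.WAShf
import Pool.Agent.W800.WA.Sca
import Pool.Agent.W156.WAFin
import Pool.Agent.W792.WA.G4

/-!
All parts of the project WA.
-/

namespace Pool.Agent.W792.WA.Al

open Pool.Agent.W792.LL Pool.Agent.W792.WA

theorem sc1 : S_SC1 := Pool.Agent.W378.WA.SC1.main
theorem sc2 : S_SC2 := Pool.Agent.W800.WA.Sc2.main sc1
theorem scl : S_SCL := Pool.Agent.W991.WA.Scl.main sc1
theorem gain : S_GAIN := Pool.Agent.W881.WA.Gain.main sc1
theorem symb : S_SYMB := Pool.Agent.W683.WA.main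
theorem csym : S_CSYM := Pool.Agent.W298.WA.Csym.main symb
theorem psi : S_PSI := Pool.Agent.W19.WAPsi.main symb csym
theorem ql : S_QL := Pool.Agent.W74.WA.QL.main
theorem inf : S_INF := Pool.Agent.W308.WAInf.main
theorem freel : S_FREEL := Pool.Agent.W18.WA.Freel.main inf
theorem free : S_FREE := Pool.Agent.W563.WA.Free.main freel ql
theorem small : S_SMALL := Pool.Agent.W214.WA.main symb csym psi ql free
theorem vit1 : S_VIT1 := Pool.Agent.W298.WA.Vit1.main
theorem vit2 : S_VIT2 := Pool.Agent.W391.WA.Vit2.main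
theorem holp : S_HOLP := Pool.Agent.W973.WA.Holp.main
theorem holc : S_HOLC := Pool.Agent.W636.WAHolc.main symb csym psi holp
theorem holu : S_HOLU := Pool.Agent.W585.WA.Holu.main sc1 holp
theorem uuc : S_UUC := Pool.Agent.W589.WA.Uuc.main sc1
theorem fix : S_FIX := Pool.Agent.W376.WAFix.main sc2 psi uuc
theorem holf : S_HOLF := Pool.Agent.W571.WAHolf.main sc1 sc2 psi uuc holc holu fix
theorem c1 : S_C1 := Pool.Agent.W293.WA.C1.main symb csym psi uuc fix holc holf vit1 vit2 small
theorem stab : S_STAB := Pool.Agent.W701.WA.Stab.main psi uuc fix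
theorem pert : S_PERT := Pool.Agent.W191.WA.main symb csym
theorem semi : S_SEMI := Pool.Agent.W853.WA.main
theorem basej : S_BASEJ := Pool.Agent.W335.WAB.BaseJ.main
theorem cx : S_CX := Pool.Agent.W382.WACx.main
theorem base : S_BASE := Pool.Agent.W414.WA.main sc1 uuc psi fix pert basej cx
theorem vr : S_VR := Pool.Agent.W999.WA.Vr.main
theorem fut : S_FUT := Pool.Agent.W800.WA.Fut.main
theorem uni : S_UNI := Pool.Agent.W402.WAUni.main sc1 scl gain psi uuc fix stab cx
theorem step : S_STEP := Pool.Agent.W685.WA.Step.main sc1 scl gain psi uuc fix stab cx uni c1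
theorem mzp : S_MZP := Pool.Agent.W64.WAMzp.main
theorem spm : S_SPM := Pool.Agent.W605.WA.SPM.main
theorem aci : S_ACI := Pool.Agent.W465.WAAci.main
theorem shf : S_SHF := Pool.Agent.W571.WAShf.main
theorem sca : S_SCA := Pool.Agent.W800.WA.Sca.main
theorem opr : S_OPR := Pool.Agent.W918.LL.main
theorem dia : S_DIA := Pool.Agent.W792.LL.DiaP.main
theorem cay : S_CAY := Pool.Agent.W335.LLCay.main
theorem zf : S_ZF := Pool.Agent.W762.LL.main opr dia
theorem chain : S_CHAIN := Ch.main cx uuc scl zf cay mzp uni step fut vr base semi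
theorem fin : S_FIN := Pool.Agent.W156.WAFin.main chain spm aci shf sca mzp

end Pool.Agent.W792.WA.Al
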