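import Pool.Agent.W792.WA.G11

/-!
All kinetic energies: conclusion.
-/

namespace Pool.Agent.W792.WA.ChK

open MeasureTheory Filter Pool.Agent.W792.LL Pool.Agent.W792.WA Pool.Agent.W792.WA.Ch
open scoped Topology

noncomputable section

theorem MestK_congr {d : ℕ} {K : C(UnitAddTorus (Fin d), ℝ)} {ν ν' : Measure ℝ}
    [IsProbabilityMeasure ν] [IsProbabilityMeasure ν'] (h : ν = ν') (hG : MestK K ν) :
    MestK K ν' := by
  subst h
  exact hG

theorem exists_Pr3 (hF : S_FUT) (hJ0 : S_J0K) (hB : S_BASE4) {d : ℕ} (hd : 0 < d)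
    {K : C(UnitAddTorus (Fin d), ℝ)} (hK0 : ∀ E : ℝ, 0 ≤ E → E ≤ 4 * d → ∃ k, K k = E)
    {ψ : C(UnitAddCircle, ℝ)} (hψ : IsSemi ψ) {r : ℝ} (hr : 0 < r) :
    ∃ D : Pr3 K ψ, D.l = (fun n => r * (1 / 16) ^ n) ∧ D.T = (fun n => 2 * r * (1 / 16) ^ n) ∧
      Tendsto D.δ atTop (𝓝 0) := by
  set l : ℕ → ℝ := fun n => r * (1 / 16) ^ n with hl
  set T : ℕ → ℝ := fun n => 2 * r * (1 / 16) ^ n with hT
  have hl0 : ∀ n, 0 < l n := fun n => by simp only [hl]; positivity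
  have hsum : Summable l :=
    (summable_geometric_of_lt_one (by norm_num) (by norm_num)).mul_left r
  obtain ⟨ρ, hρ1, hρ2, hρ3, hρ4⟩ := hF ψ hψ l hl0 hsum
  have htail : ∀ n, ∑' j, l (n + j) ≤ T n := by
    intro n
    have h1 : ∀ j, l (n + j) = (r * (1 / 16) ^ n) * (1 / 16) ^ j := by
      intro j; simp only [hl]; rw [pow_add]; ring
    simp only [h1]
    rw [tsum_mul_left, tsum_geometric_of_lt_one (by norm_num) (by norm_num)]
    have h2 : 0 < r * (1 / 16 : ℝ) ^ n := by positivity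
    simp only [hT]
    have h3 : ((1 : ℝ) - 1 / 16)⁻¹ ≤ 2 := by norm_num
    calc r * (1 / 16 : ℝ) ^ n * (1 - 1 / 16)⁻¹ ≤ r * (1 / 16 : ℝ) ^ n * 2 := by gcongr
      _ = 2 * r * (1 / 16) ^ n := by ring
  have hρ3' : ∀ n, ρ n (Set.Icc (-(T n)) (T n))ᶜ = 0 := by
    intro n
    refine measure_mono_null (Set.compl_subset_compl.2 ?_) (hρ3 n)
    have := htail n
    exact Set.Icc_subset_Icc (by linarith) this
  have hTp : ∀ n, 0 ≤ T n := fun n => by simp only [hT]; positivity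
  have hTT : ∀ n, l n + T (n + 1) ≤ T n := by
    intro n
    simp only [hT, hl]
    rw [pow_succ]
    have : 0 < r * (1 / 16 : ℝ) ^ n := by positivity
    linarith
  have hTle : ∀ n, T n ≤ T 0 := by
    intro n
    simp only [hT]
    have : (1 / 16 : ℝ) ^ n ≤ 1 := pow_le_one₀ (by norm_num) (by norm_num)
    rw [pow_zero]
    gcongr
  have hρ3'' : ∀ n, ρ n (Set.Icc (-(T 0)) (T 0))ᶜ = 0 := by
    intro n
    refine measure_mono_null (Set.compl_subset_compl.2 ?_) (hρ3' n)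
    have := hTle n
    exact Set.Icc_subset_Icc (by linarith) this
  obtain ⟨J, hJ, hJ1⟩ := hJ0 ψ hψ r d K hr hd hK0
  have hJ2 : ∀ z ∈ Zs d, J ≤ jf (ρ 0) K z := by
    intro z hz
    have := hρ1 (0 + 1)
    have h0 : l 0 = r := by simp [hl]
    rw [hρ2 0, h0]
    refine hJ1 (ρ (0 + 1)) ?_ z hz
    have h1 : T (0 + 1) = r / 8 := by simp only [hT]; ring
    have := hρ3' (0 + 1)
    rwa [h1] at this
  set B : ℝ := ‖K‖ + 4 * d + T 0 + 1 with hBdef
  have hB' := fun n : ℕ => hB ψ hψ (l n) (J / 2) (1 / ((n : ℝ) + 1)) B (T 0) (hl0 n)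
    (by positivity) (by positivity)
  choose δ₂ c hδ₂ hc hB2 using hB'
  obtain ⟨δ, hδ0, -, hδa, hδle, hδt⟩ := exists_eta δ₂ hδ₂
  refine ⟨{
    l := l, ρ := ρ, T := T, J := J, δ := δ, c := c, B := B
    hψ := hψ.bound
    hl := hl0
    hT := hTT
    hTp := hTp
    hB := le_rfl
    hρ1 := hρ1
    hρ2 := hρ2
    hρ3 := hρ3'
    hρ4 := hρ4
    hJ := hJ
    hJ0 := hJ2
    hδ := hδ0
    hδa := hδa
    hc := hc
    hbase := ?_ }, rfl, rfl, hδt⟩
  intro n X X' δ' h1 h2 h3 h3' h4 K' z hKB hzB hz hK s hs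
  have i1 := hρ1 (n + 1)
  rw [hρ2 n] at hK hs
  exact (hB2 n X X' δ' d K' (ρ (n + 1)) z h1 (h2.trans (hδle n)) h3 h3' h4
    (hρ3'' (n + 1)) hKB hzB hz hK s hs).2

/-- The main construction: one function for all classes. -/
theorem exists_f3 (hX : S_CX) (hUU : S_UUC) (hL : S_SCL) (hZ : S_ZF) (hCay : S_CAY)
    (hM : S_MZP) (hU : S_UNI) (hU2 : S_UNI2) (hS2 : S_STEP2) (hJS : S_JSTEP) (hN : S_NETX2)
    {d : ℕ} (hd : 0 < d) {K : C(UnitAddTorus (Fin d), ℝ)} {ψ : C(UnitAddCircle, ℝ)}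
    (hψ : IsSemi ψ) {r : ℝ} (D : Pr3 K ψ) (hDT : D.T = fun n => 2 * r * (1 / 16) ^ n) :
    ∃ f : C(ℝ, ℝ), (∀ t, |f t| ≤ 2 * r) ∧
      ∀ (n : ℕ), ∀ X ∈ En2 D.δ n, MestK (kg K f) (qlaw X) := by
  obtain ⟨x, hx⟩ := exists_seq (α := C(ℝ, ℝ) × ℝ)
    (fun n a => Inv3 K D.ρ D.T D.J D.δ D.se n a ∧ (n = 0 → a.1 = 0))
    (fun n a b => Rel3 K ψ D.l D.ρ D.δ n a b) (D.init hU2) (by
      intro n a ha
      obtain ⟨b, hb1, hb2⟩ := D.step hU2 hS2 hJS hN hd hψ n a ha.1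
      exact ⟨b, ⟨hb1, fun h => absurd h (Nat.succ_ne_zero n)⟩, hb2⟩)
  have hMe : ∀ n, ∃ M : ℕ, (x (n + 1)).1 = nx ψ (x n).1 (D.l n) M := fun n => (hx n).2.1
  choose M hMe using hMe
  have hq : ∀ n, ∃ q : ℝ, 0 ≤ q ∧ q < 1 ∧ (x n).2 ≤ (1 - q ^ 2) / 8 ∧
      ∀ X ∈ Xn2 D.δ n, CtrK (qlaw X) (D.ρ n) (kg K (x n).1) q := fun n => (hx n).1.1.2.2.2.2
  choose q hq0 hq1 hq2 hq3 using hq
  let L : LvK ψ := {
    l := D.l, T := D.T, f := fun n => (x n).1, M := M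
    hψ := hψ.bound
    hl := D.hl
    hT := D.hT
    hTp := D.hTp
    f0 := (hx 0).1.2 rfl
    fs := hMe }
  have hT0 : D.T 0 = 2 * r := by rw [hDT]; simp
  have hTt : Tendsto D.T atTop (𝓝 0) := by
    rw [hDT]
    have h1 := (tendsto_pow_atTop_nhds_zero_of_lt_one (by norm_num : (0 : ℝ) ≤ 1 / 16)
      (by norm_num : (1 : ℝ) / 16 < 1)).const_mul (2 * r)
    simpa using h1
  refine ⟨L.fI, fun t => (L.fI_id t).trans hT0.le, fun j X hXj => ?_⟩
  have hXn : ∀ n, X ∈ Xn2 D.δ (n + j) := fun n => ⟨j, by omega, hXj⟩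
  let E : CEK (qlaw X) K := {
    ρ := fun n => D.ρ (n + j)
    T := fun n => D.T (n + j)
    σ := D.se j / 2
    f := fun n => (x (n + j)).1
    fI := L.fI
    B := D.T 0
    p := fun n => (x (n + j)).2
    q := fun n => q (n + j)
    hv := Xn2_vr (hXn 0)
    T_anti := fun a b hab => L.T_anti (by omega)
    hTp := fun n => D.hTp _
    hT0 := hTt.comp (tendsto_add_atTop_nat j)
    hρ1 := fun n => D.hρ1 _
    hρ3 := fun n => D.hρ3 _
    hρ4 := fun n => D.hρ4 _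
    hσ := by have := D.se_pos j; positivity
    gap := by
      intro n z hz s hs
      have h1 := (hx (n + j)).1.1.2.1 j (by omega) X hXj z hz s hs
      have h2 : 0 < D.se j * (1 / 2 ^ (n + j + 1)) := by
        have := D.se_pos j
        positivity
      linarith
    hp := fun n => (hx (n + j)).1.1.2.2.2.1
    anti := by
      intro n
      have e : n + 1 + j = n + j + 1 := by omega
      rw [e]
      exact (hx (n + j)).2.2.1
    hq0 := fun n => hq0 _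
    hq1 := fun n => hq1 _
    hq2 := fun n => hq2 _
    ctr := fun n => hq3 _ X (hXn n)
    fI_diff := fun n t => L.fI_diff (n + j) t
    fI_id := L.fI_id
    f_id := fun n t => L.f_id (n + j) t
    rel := by
      intro n z hz s s' hs hs'
      have e : n + 1 + j = n + j + 1 := by omega
      rw [e] at hs' ⊢
      refine ((hx (n + j)).2.2.2 X (hXn n) z hz s s' hs hs').trans ?_
      have h1 := (hx (n + j)).1.1.2.2.2.1
      apply div_le_div_of_nonneg_left h1.le (by positivity)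
      have h2 : (8 : ℝ) ^ n ≤ 8 ^ (n + j) := pow_le_pow_right₀ (by norm_num) (by omega)
      linarith }
  exact E.concl hX hUU hL hZ hCay hM hU

/-- The final theorem. -/
theorem kn (hX : S_CX) (hUU : S_UUC) (hL : S_SCL) (hZ : S_ZF) (hCay : S_CAY)
    (hM : S_MZP) (hU : S_UNI) (hU2 : S_UNI2) (hS2 : S_STEP2) (hJS : S_JSTEP) (hN : S_NETX2)
    (hF : S_FUT) (hJ0 : S_J0K) (hB : S_BASE4) (hV : S_MOM) (hQ : S_QNT2) (hψ : S_SEMI)
    (hA : S_AEQK) : S_KN := by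
  intro d K ε hd hε hK0
  obtain ⟨ψ, hψ⟩ := hψ
  obtain ⟨D, -, hD2, hD3⟩ := exists_Pr3 hF hJ0 hB hd hK0 hψ (r := ε / 2) (by positivity)
  obtain ⟨f, hf1, hf2⟩ := exists_f3 hX hUU hL hZ hCay hM hU hU2 hS2 hJS hN hd hψ
    (r := ε / 2) D hD2
  have hf : ∀ t, |f t| ≤ ε := fun t => (hf1 t).trans (by linarith)
  refine ⟨f, hf, fun ν hν hνm hνd => ?_⟩
  obtain ⟨κ, lam₁, hκ, hlam₁, hlam₁', hV1⟩ := hV ν hνm hνd
  obtain ⟨n₀, hn₀⟩ := exists_nat_one_div_lt hκ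
  have hδn₀ := D.hδ n₀
  refine ⟨min lam₁ (D.δ n₀ ^ (3 / 2 : ℝ)), lt_min hlam₁ (by positivity), fun lam h0 h1 => ?_⟩
  have h2 : lam ≤ lam₁ := h1.trans (min_le_left _ _)
  have h3 : lam ^ (2 / 3 : ℝ) ≤ D.δ n₀ := by
    have h4 : lam ≤ D.δ n₀ ^ (3 / 2 : ℝ) := h1.trans (min_le_right _ _)
    calc lam ^ (2 / 3 : ℝ) ≤ (D.δ n₀ ^ (3 / 2 : ℝ)) ^ (2 / 3 : ℝ) :=
          Real.rpow_le_rpow h0.le h4 (by norm_num)
      _ = D.δ n₀ := by
        rw [← Real.rpow_mul hδn₀.le]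
        norm_num
  have hδ : 0 < lam ^ (2 / 3 : ℝ) := by positivity
  have hP : IsProbabilityMeasure (ν.map fun x => lam * x) :=
    Measure.isProbabilityMeasure_map (by fun_prop)
  obtain ⟨X, hX1, hX2⟩ := hQ (ν.map fun x => lam * x)
  obtain ⟨X', hX3, hX4, hX5⟩ := hV1 lam h0 h2 X hX2
  obtain ⟨j, hj1, hj2, hj3⟩ := find_class hD3 hδ h3
  have hvr : 0 < vr (qlaw X) := by
    rw [hX2]
    refine vr_pos hCay _ fun a => ?_
    rw [Measure.map_apply (by fun_prop) (measurableSet_singleton a)]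
    have : (fun x => lam * x) ⁻¹' {a} = {a / lam} := by
      ext x
      simp only [Set.mem_preimage, Set.mem_singleton_iff]
      rw [eq_div_iff h0.ne', mul_comm]
    rw [this]
    exact hνd _
  have hXE : X ∈ En2 D.δ j := by
    refine ⟨hX1, hvr, lam ^ (2 / 3 : ℝ), hj2, hj3, X', hX3, hX4, ?_⟩
    refine le_trans ?_ hX5
    have h5 : 1 / ((j : ℝ) + 1) ≤ κ := by
      have h6 : (n₀ : ℝ) ≤ j := by exact_mod_cast hj1
      have h7 : 1 / ((j : ℝ) + 1) ≤ 1 / ((n₀ : ℝ) + 1) := by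
        apply one_div_le_one_div_of_le (by positivity)
        linarith
      linarith
    gcongr
  exact hA d ν lam (K + gK f d) hd h0 (MestK_congr hX2 (hf2 j X hXE))

end

end Pool.Agent.W792.WA.ChK
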