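import Pool.Agent.W792.WA.All
import Pool.Agent.W915.WAPsiw
import Pool.Agent.W304.WA.Zfw
import Pool.Agent.W392.WA.Uni2
import Pool.Agent.W930.WA.Step2
import Pool.Agent.W366.WA.J0
import Pool.Agent.W577.WA.Jstep
import Pool.Agent.W554.WAPsix
import Pool.Agent.W63.WA.Pert3
import Pool.Agent.W12.WA.Qnt2
import Pool.Agent.W12.WA.Base4
import Pool.Agent.W125.WA.Netx2
import Pool.Agent.W397.WAMom
import Pool.Agent.W759.WA.Spmu
import Pool.Agent.W479.WAAeq
import Pool.Agent.W925.WAJ0k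
import Pool.Agent.W298.WA.Aeqk
import Pool.Agent.W338.WA.Aff
import Pool.Agent.W298.WA.Kfin
import Pool.Agent.W792.WA.G12

/-!
All parts of the project WA, parts 2, 3 and 4.
-/

namespace Pool.Agent.W792.WA.Al

open Pool.Agent.W792.LL Pool.Agent.W792.WA

theorem psiw : S_PSIW := Pool.Agent.W915.WA.main symb csym psi
theorem zfw : S_ZFW := Pool.Agent.W304.WA.Zfw.main symb csym
theorem uni2 : S_UNI2 := Pool.Agent.W392.WA.Uni2.main sc1 scl gain psi uuc fix stab cx
theorem step2 : S_STEP2 :=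
  Pool.Agent.W930.WA.Step2.main step sc1 scl gain psi uuc fix stab cx psiw zfw
theorem j0 : S_J0 := Pool.Agent.W366.WA.J0.main
theorem jstep : S_JSTEP := Pool.Agent.W577.WAJ.main
theorem qnt2 : S_QNT2 := Pool.Agent.W12.WA.Qnt2.main
theorem netx2 : S_NETX2 := Pool.Agent.W125.WA.Netx2.main
theorem mom : S_MOM := Pool.Agent.W397.WAMom.main
theorem psix : S_PSIX := Pool.Agent.W554.WAPsix.main symb csym psi
theorem pert3 : S_PERT3 := Pool.Agent.W63.WA.Pert3.main symb csym
theorem base4 : S_BASE4 := Pool.Agent.W12.WA.Base4.main sc1 uuc psi fix pert3 cx psix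
theorem spmu : S_SPMU := Pool.Agent.W759.WA.Spmu.main
theorem aeq : S_AEQ := Pool.Agent.W479.WAAeq.main spmu aci shf sca mzp
theorem ufin2 : S_UFIN2 := Ch.ufin2 cx uuc scl zf cay mzp uni uni2 step2 jstep netx2 fut j0 base4
  mom qnt2 semi aeq
theorem j0k : S_J0K := Pool.Agent.W925.WAJ0k.main
theorem aeqk : S_AEQK := Pool.Agent.W298.WA.Aeqk.main spmu aci shf sca mzp
theorem kn : S_KN := ChK.kn cx uuc scl zf cay mzp uni uni2 step2 jstep netx2 fut j0k base4
  mom qnt2 semi aeqk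
theorem aff : S_AFF := Pool.Agent.W338.WA.Aff.main
theorem kfin : S_KFIN := Pool.Agent.W298.WA.Kfin.main kn aff

end Pool.Agent.W792.WA.Al
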