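import Pool.Agent.W792.WA.G13

/-!
Arbitrary disorder: assembly.
-/

namespace Pool.Agent.W792.WA.ChN

open MeasureTheory Filter Pool.Agent.W792.LL Pool.Agent.W792.WA Pool.Agent.W792.WA.Ch
  Pool.Agent.W792.WA.ChK
open scoped Topology

noncomputable section

theorem rpow_add_le {a b p : ℝ} (hp1 : 1 < p) (hp2 : p < 2) :
    |a + b| ^ p ≤ 4 * (|a| ^ p + |b| ^ p) := by
  have ha := abs_nonneg a
  have hb := abs_nonneg b
  have hap : 0 ≤ |a| ^ p := by positivity
  have hbp : 0 ≤ |b| ^ p := by positivity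
  have h2 : (2 : ℝ) ^ p ≤ 4 := by
    calc (2 : ℝ) ^ p ≤ 2 ^ (2 : ℝ) := Real.rpow_le_rpow_of_exponent_le (by norm_num) hp2.le
      _ = 4 := by norm_num
  have h1 : |a + b| ≤ 2 * max |a| |b| := by
    refine (abs_add_le a b).trans ?_
    have := le_max_left |a| |b|
    have := le_max_right |a| |b|
    linarith
  have hmax : 0 ≤ max |a| |b| := ha.trans (le_max_left _ _)
  calc |a + b| ^ p ≤ (2 * max |a| |b|) ^ p := Real.rpow_le_rpow (abs_nonneg _) h1 (by linarith)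
    _ = 2 ^ p * (max |a| |b|) ^ p := Real.mul_rpow (by norm_num) hmax
    _ ≤ 4 * (max |a| |b|) ^ p := by gcongr
    _ ≤ 4 * (|a| ^ p + |b| ^ p) := by
      have : (max |a| |b|) ^ p ≤ |a| ^ p + |b| ^ p := by
        rcases le_total |a| |b| with h | h
        · rw [max_eq_right h]; linarith
        · rw [max_eq_left h]; linarith
      linarith

theorem vol_one (d : ℕ) : (volume : Measure (UnitAddTorus (Fin d))).real Set.univ = 1 := by
  have h : (volume : Measure (UnitAddTorus (Fin d))) Set.univ = 1 := by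
    change (Measure.pi fun _ : Fin d => (volume : Measure UnitAddCircle)) Set.univ = 1
    rw [Measure.pi_univ]
    simp
  rw [Measure.real, h]
  rfl

theorem z_le {d : ℕ} {z : ℂ} (hz : z ∈ Zs d) : ‖z‖ ≤ 4 * d + 1 := by
  obtain ⟨h1, h2, h3, h4⟩ := hz
  refine (Complex.norm_le_abs_re_add_abs_im z).trans ?_
  rw [abs_of_nonneg h1, abs_of_pos h3]
  linarith

theorem npn (hX : S_CX) (hUU : S_UUC) (hL : S_SCL) (hZ : S_ZF) (hCay : S_CAY)
    (hM : S_MZP) (hU : S_UNI) (hU2 : S_UNI2) (hS2 : S_STEP2) (hSL : S_STEPL) (hN : S_NETX2)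
    (hF : S_FUT) (hG : S_GAPC) (hQ : S_QNT2) (hψ : S_SEMI) (hE : S_EQD) (hAt : S_ATM)
    (hA : S_AEQK) : S_NPN := by
  intro d K p κ ε hd hp1 hp2 hκ hε
  have hκ' : 0 < min κ 1 := lt_min hκ one_pos
  obtain ⟨ψ₀, R, η, hψ₀, hR, hη, hint, hgap⟩ := hG p (min κ 1) (‖K‖ + (4 * d + 1)) (ε / 16)
    hp1 hp2 hκ' (min_le_right _ _) (by positivity)
  obtain ⟨ψ, hψ⟩ := hψ
  set 𝓧 : Set MX := {X | X ∈ Qf ∧ min κ 1 ≤ vr (qlaw X)} with h𝓧
  have hv : ∀ X ∈ 𝓧, 0 < vr (qlaw X) := fun X hX => lt_of_lt_of_le hκ' hX.2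
  have hTB : TB 𝓧 := TB_mono (fun X hX => hX.1) hN
  set r : ℝ := min 1 (ε / 8) / 2 with hr
  have hmin : 0 < min 1 (ε / 8) := lt_min one_pos (by positivity)
  have hr0 : 0 < r := by positivity
  have h2r : 2 * r = min 1 (ε / 8) := by rw [hr]; ring
  obtain ⟨D, hDT⟩ := exists_Pr4 (d := d) hF hψ hv hTB hr0
  have hT0 : D.T 0 = min 1 (ε / 8) := by rw [hDT, ← h2r]; simp
  have i0 := D.hρ1 0
  have hρ1 : (D.ρ 0) (Set.Icc (-1) 1)ᶜ = 0 := by
    refine measure_mono_null (Set.compl_subset_compl.2 ?_) (D.hρ3 0)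
    have : D.T 0 ≤ 1 := by rw [hT0]; exact min_le_left _ _
    exact Set.Icc_subset_Icc (by linarith) this
  obtain ⟨il, hsup, htwo⟩ := hAt ψ₀ R (D.T 0) (D.ρ 0) hψ₀ hR
  have hgap0 : ∀ X ∈ 𝓧, ∀ z ∈ Zs d, ∀ s,
      IsFix (qlaw X) ((lev ψ₀ R).conv (D.ρ 0)) (wz K z) s → ‖s‖ ≤ 1 - η := by
    intro X hXX z hz s hs
    refine hgap (qlaw X) d K z (D.ρ 0) hXX.2 hρ1 ?_ hz.2.2.1 s hs
    have := z_le hz
    linarith
  obtain ⟨M₁, hM₁⟩ := hSL d ψ₀ (D.ρ 0) (D.T 0) η R K 𝓧 hd hψ₀ hv hTB (D.hρ3 0) (D.hρ4 0) hR hη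
    hgap0 (η / 2) (by positivity)
  have hcont : Continuous fun t : UnitAddCircle => |R * ψ₀ t| ^ p :=
    ((continuous_const.mul ψ₀.continuous).abs).rpow_const fun _ => Or.inr (by linarith)
  obtain ⟨M₂, hM₂⟩ := hE d ⟨_, hcont⟩ hd (ε / 16) (by positivity)
  set M : ℕ := max M₁ M₂ with hMdef
  have hM1 := hM₁ M (le_max_left _ _)
  have hM2 := hM₂ M (le_max_right _ _)
  set g₀ : C(ℝ, ℝ) := nx ψ₀ 0 R M with hg₀
  have hK1 : addL ψ₀ K R M = kg K g₀ := by
    rw [hg₀, kg_nx, kg_zero]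
  rw [hK1] at hM1
  have i2 : IsProbabilityMeasure ((lev ψ₀ R).conv (D.ρ 0)) := inferInstance
  have hgap1 : ∀ X ∈ 𝓧, GapK (qlaw X) (D.ρ 0) (kg K g₀) (η / 2) := by
    intro X hXX z hz s' hs'
    have hex := ((hU2 d ((lev ψ₀ R).conv (D.ρ 0)) (D.T 0 + R) η K (hsup (D.hρ3 0)) htwo
      hη).1.choose_spec.2.2 (qlaw X) (hv X hXX) (hgap0 X hXX)).1 z hz
    obtain ⟨s, hs, -⟩ := hex
    have h4 := (hM1 X hXX z hz s s' hs hs').1
    have h5 := hgap0 X hXX z hz s hs
    have h6 : ‖s'‖ ≤ ‖s‖ + ‖s - s'‖ := by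
      have := norm_sub_le s (s - s')
      rwa [sub_sub_cancel] at this
    linarith
  obtain ⟨f, hf1, hf2⟩ := D.exists_f hX hUU hL hZ hCay hM hU hU2 hS2 hd hψ hDT
    (K := kg K g₀) (σ := η / 2) (by positivity) hgap1
  have hg₀b : ∀ t, |g₀ t| ≤ R := by
    intro t
    change |(0 : ℝ) + R * ψ₀ _| ≤ R
    rw [zero_add, abs_mul, abs_of_pos hR]
    exact mul_le_of_le_one_right hR.le (hψ₀.bound _)
  refine ⟨g₀ + f, ⟨R + 2 * r, fun t => ?_⟩, ?_, fun ν _ hν => ?_⟩
  · change |g₀ t + f t| ≤ _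
    refine (abs_add_le _ _).trans ?_
    linarith [hg₀b t, hf1 t]
  · have hc1 : Continuous fun k : UnitAddTorus (Fin d) => |g₀ (lap d k)| ^ p :=
      ((g₀.continuous.comp (lap d).continuous).abs).rpow_const fun _ => Or.inr (by linarith)
    have hc2 : Continuous fun k : UnitAddTorus (Fin d) => |(g₀ + f) (lap d k)| ^ p :=
      (((g₀ + f).continuous.comp (lap d).continuous).abs).rpow_const
        fun _ => Or.inr (by linarith)
    have j1 : Integrable (fun k : UnitAddTorus (Fin d) => |g₀ (lap d k)| ^ p) :=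
      hc1.integrable_of_hasCompactSupport (HasCompactSupport.of_compactSpace _)
    have j2 : Integrable (fun k : UnitAddTorus (Fin d) => |(g₀ + f) (lap d k)| ^ p) :=
      hc2.integrable_of_hasCompactSupport (HasCompactSupport.of_compactSpace _)
    have hI : ∫ k : UnitAddTorus (Fin d), |g₀ (lap d k)| ^ p ≤ ε / 8 := by
      have h1 : (∫ k : UnitAddTorus (Fin d), |g₀ (lap d k)| ^ p)
          = ∫ k : UnitAddTorus (Fin d),
            |R * ψ₀ ((M * lap d k / (2 * Real.pi) : ℝ) : UnitAddCircle)| ^ p := by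
        refine integral_congr_ae (Filter.Eventually.of_forall fun k => ?_)
        change |(0 : ℝ) + R * ψ₀ _| ^ p = _
        rw [zero_add]
      rw [h1]
      have h2 := (abs_le.1 hM2).2
      simp only [ContinuousMap.coe_mk] at h2
      linarith
    have hpt : ∀ k : UnitAddTorus (Fin d), |(g₀ + f) (lap d k)| ^ p
        ≤ 4 * |g₀ (lap d k)| ^ p + ε / 2 := by
      intro k
      have h1 := rpow_add_le (a := g₀ (lap d k)) (b := f (lap d k)) hp1 hp2
      have h2 : |f (lap d k)| ^ p ≤ ε / 8 := by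
        have h3 := hf1 (lap d k)
        rw [h2r] at h3
        have h4 : |f (lap d k)| ≤ 1 := h3.trans (min_le_left _ _)
        have h5 : |f (lap d k)| ^ p ≤ |f (lap d k)| ^ (1 : ℝ) :=
          Real.rpow_le_rpow_of_exponent_ge' (abs_nonneg _) h4 (by norm_num) hp1.le
        rw [Real.rpow_one] at h5
        exact h5.trans (h3.trans (min_le_right _ _))
      change |g₀ (lap d k) + f (lap d k)| ^ p ≤ _
      linarith
    have h3 : ∫ k : UnitAddTorus (Fin d), |(g₀ + f) (lap d k)| ^ p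
        ≤ ∫ k : UnitAddTorus (Fin d), (4 * |g₀ (lap d k)| ^ p + ε / 2) :=
      integral_mono j2 ((j1.const_mul 4).add (integrable_const (ε / 2))) hpt
    have h4 : ∫ k : UnitAddTorus (Fin d), (4 * |g₀ (lap d k)| ^ p + ε / 2)
        = 4 * (∫ k : UnitAddTorus (Fin d), |g₀ (lap d k)| ^ p) + ε / 2 := by
      rw [integral_add (j1.const_mul 4) (integrable_const _), integral_const_mul,
        integral_const, vol_one, one_smul]
    rw [h4] at h3
    linarith
  · obtain ⟨X, hX1, hX2⟩ := hQ ν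
    have hXX : X ∈ 𝓧 := ⟨hX1, by rw [hX2]; exact (min_le_left _ _).trans hν⟩
    have hmap : ν.map (fun x => 1 * x) = ν := by
      simp
    have hP : IsProbabilityMeasure (ν.map fun x => (1 : ℝ) * x) := by
      rw [hmap]; infer_instance
    have hme : MestK (K + gK (g₀ + f) d) (ν.map fun x => (1 : ℝ) * x) := by
      have h1 := MestK_congr hX2 (hf2 X hXX)
      have h2 : kg (kg K g₀) f = K + gK (g₀ + f) d := by
        ext k
        change K k + g₀ (lap d k) + f (lap d k) = K k + (g₀ (lap d k) + f (lap d k))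
        ring
      rw [h2] at h1
      exact MestK_congr hmap.symm h1
    exact hA d ν 1 (K + gK (g₀ + f) d) hd one_pos hme

end

end Pool.Agent.W792.WA.ChN
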