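import Pool.Agent.W792.WA.All2
import Pool.Agent.W737.WA.Stepl0
import Pool.Agent.W153.WA.Atm
import Pool.Agent.W616.WA.Caui
import Pool.Agent.W125.WA.Tan
import Pool.Agent.W864.WA.Lev0
import Pool.Agent.W654.WAGapc
import Pool.Agent.W597.WAEqd
import Pool.Agent.W436.WA.Vrs
import Pool.Agent.W656.WANpfin
import Pool.Agent.W792.WA.G14

/-!
All parts of the project WA, part 5.
-/

namespace Pool.Agent.W792.WA.Al

open Pool.Agent.W792.LL Pool.Agent.W792.WA

theorem stepl : S_STEPL :=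
  Pool.Agent.W737.WA.Stepl.main0 sc1 scl gain psi uuc fix stab cx uni c1 psiw zfw
theorem atm : S_ATM := Pool.Agent.W153.WA.Atm.main
theorem caui : S_CAUI := Pool.Agent.W616.WA.main
theorem tan : S_TAN := Pool.Agent.W125.WA.Tan.main
theorem lev0 : S_LEV0 := Pool.Agent.W864.WA.main tan caui sc1
theorem gapc : S_GAPC := Pool.Agent.W654.WA.Gapc.main lev0 uuc psi fix cx
theorem eqd : S_EQD := Pool.Agent.W597.WAEqd.main
theorem vrs : S_VRS := Pool.Agent.W436.WA.Vrs.main
theorem npn : S_NPN := ChN.npn cx uuc scl zf cay mzp uni uni2 step2 stepl netx2 fut gapc qnt2 semi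
  eqd atm aeqk
theorem npfin : S_NPFIN := Pool.Agent.W656.WANpfin.main npn aff sca vrs

end Pool.Agent.W792.WA.Al
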