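import Pool.Agent.W792.WA.Stm6
import Pool.Agent.W191.LL.Avg0

/-!
Hopping amplitudes of a sum of levels.
-/

namespace Pool.Agent.W792.WA.WSP

open MeasureTheory Filter Pool.Agent.W792.LL Pool.Agent.W792.WA Pool.Agent.W191.LL UnitAddTorus
open scoped Topology

noncomputable section

theorem main : S_WS := by
  intro d ψ C S g hd hC hS hb hg x
  obtain ⟨l, M, h1, h2, h3, h4⟩ := hg
  have hden : 0 < (1 + ‖x‖) ^ ((d : ℝ) / 3) := by positivity
  let P : ℕ → UnitAddTorus (Fin d) → ℂ := fun j k =>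
    ((ψ ((M j * lap d k / (2 * Real.pi) : ℝ) : UnitAddCircle) : ℝ) : ℂ)
  have hPc : ∀ j, Continuous (P j) := by
    intro j
    have h : Continuous fun k : UnitAddTorus (Fin d) =>
        ((M j * lap d k / (2 * Real.pi) : ℝ) : UnitAddCircle) :=
      (AddCircle.continuous_mk' (1 : ℝ)).comp (by fun_prop)
    exact Complex.continuous_ofReal.comp (ψ.continuous.comp h)
  have hPn : ∀ j k, ‖P j k‖ ≤ ‖ψ‖ := by
    intro j k
    change ‖((ψ _ : ℝ) : ℂ)‖ ≤ _
    rw [Complex.norm_real]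
    exact ψ.norm_coe_le_norm _
  let F : ℕ → UnitAddTorus (Fin d) → ℂ := fun j t => mFourier (-x) t * ((l j : ℂ) * P j t)
  have hFi : ∀ j, Integrable (F j) (mu d) := fun j =>
    mfc_int (fun t => (l j : ℂ) * P j t) (continuous_const.mul (hPc j)) (-x)
  have hFn : ∀ j t, ‖F j t‖ ≤ l j * ‖ψ‖ := by
    intro j t
    simp only [F]
    rw [norm_mul, norm_mul, Complex.norm_real, Real.norm_eq_abs, abs_of_nonneg (h1 j)]
    calc ‖mFourier (-x) t‖ * (l j * ‖P j t‖) ≤ 1 * (l j * ‖ψ‖) :=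
          mul_le_mul (mf_norm _ _) (mul_le_mul_of_nonneg_left (hPn j t) (h1 j))
            (mul_nonneg (h1 j) (norm_nonneg _)) zero_le_one
      _ = l j * ‖ψ‖ := one_mul _
  have hFs : Summable fun j => ∫ t, ‖F j t‖ ∂(mu d) := by
    refine Summable.of_nonneg_of_le (fun j => integral_nonneg fun t => norm_nonneg _) ?_
      (h2.mul_right ‖ψ‖)
    intro j
    calc ∫ t, ‖F j t‖ ∂(mu d) ≤ ∫ _, l j * ‖ψ‖ ∂(mu d) :=
          integral_mono (hFi j).norm (integrable_const _) (fun t => hFn j t)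
      _ = l j * ‖ψ‖ := by simp
  have hSm := hasSum_integral_of_summable_integral_norm hFi hFs
  have e1 : (∫ t, (∑' j, F j t) ∂(mu d)) = mFourierCoeff (fun k : UnitAddTorus (Fin d) =>
      ((g (lap d k) : ℝ) : ℂ)) x := by
    rw [mfc_eq]
    congr 1
    ext t
    rw [h4]
    push_cast
    rw [tsum_mul_left]
  have e2 : ∀ j, ∫ t, F j t ∂(mu d) = (l j : ℂ) * mFourierCoeff (P j) x := by
    intro j
    rw [← mfc_smul, mfc_eq]
  rw [e1] at hSm
  have hbd : ∀ j, ‖∫ t, F j t ∂(mu d)‖ ≤ l j * (C / (1 + ‖x‖) ^ ((d : ℝ) / 3)) := by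
    intro j
    rw [e2, norm_mul, Complex.norm_real, Real.norm_eq_abs, abs_of_nonneg (h1 j)]
    exact mul_le_mul_of_nonneg_left (hb (M j) x) (h1 j)
  have hle := hSm.norm_le_of_bounded (h2.hasSum.mul_right (C / (1 + ‖x‖) ^ ((d : ℝ) / 3))) hbd
  refine hle.trans ?_
  rw [mul_div_assoc]
  exact mul_le_mul_of_nonneg_right h3 (by positivity)

end

end Pool.Agent.W792.WA.WSP
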