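import Pool.Agent.W792.WA.Br6
import Pool.Agent.W792.WA.WS
import Pool.Agent.W174.WA.KA
import Pool.Agent.W469.WA.KB
import Pool.Agent.W988.WA.KC
import Pool.Agent.W915.WA.WH
import Pool.Agent.W332.WA.WB
import Pool.Agent.W62.WA.WD

/-!
All parts of the project WA, part 6.
-/

namespace Pool.Agent.W792.WA.Al

open Pool.Agent.W792.LL Pool.Agent.W792.WA

theorem kc : S_KC := Pool.Agent.W988.WA.KC.main Pool.Agent.W174.WA.KA.main
  Pool.Agent.W469.WA.KB.main
theorem wd : S_WD := Pool.Agent.W62.WA.WD.main kc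
theorem kfdc : S_KFD := kfd Pool.Agent.W915.WA.WH.main Pool.Agent.W332.WA.WB.main wd WSP.main

end Pool.Agent.W792.WA.Al
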