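import Pool.Agent.W792.WA.All2
import Pool.Agent.W792.GK.Lap

/-!
The operator `-Δ + B + lam V`.
-/

namespace Pool.Agent.W792.WA.Br

open MeasureTheory Pool.Agent.W792.LL

noncomputable section

theorem sol_iff {d : ℕ} (B : C(UnitAddTorus (Fin d), ℝ)) (lam : ℝ) (v : (Fin d → ℤ) → ℝ) (z : ℂ)
    (x : Fin d → ℤ) (u : (Fin d → ℤ) → ℂ) :
    Sol (hopK (lap d + B)) lam v z x u ↔ Summable (fun y => ‖u y‖ ^ 2) ∧
      ∀ y, ((∑ i : Fin d, (2 * u y - u (y + Pi.single i 1) - u (y - Pi.single i 1)))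
        + (∑' y', UnitAddTorus.mFourierCoeff (fun k : UnitAddTorus (Fin d) => ((B k : ℝ) : ℂ))
            (y - y') * u y') + ((lam * v y : ℝ) : ℂ) * u y) - z * u y
          = if y = x then 1 else 0 := by
  unfold Sol
  refine and_congr_right fun hu => forall_congr' fun y => ?_
  have key : (∑ i : Fin d, (2 * u y - u (y + Pi.single i 1) - u (y - Pi.single i 1)))
      + (∑' y', UnitAddTorus.mFourierCoeff (fun k : UnitAddTorus (Fin d) => ((B k : ℝ) : ℂ))
            (y - y') * u y') = ∑' y', hopK (lap d + B) (y - y') * u y' := by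
    rw [← W792.GKLap.negLap, ← W792.GKLap.lap_conv]
    change _ + ∑' y', W792.GK.hop B (y - y') * u y'
      = ∑' y', W792.GK.hop (W792.GKLap.lapSym d + B) (y - y') * u y'
    rw [← Summable.tsum_add
      (W792.GKLap.hop_summable (W792.GKLap.lapSym d) u hu y) (W792.GKLap.hop_summable B u hu y)]
    refine tsum_congr fun y' => ?_
    rw [W792.GKLap.hop_add, add_mul]
  rw [key]

end

end Pool.Agent.W792.WA.Br
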