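import Pool.Agent.W792.WA.Br
import Pool.Agent.W338.WA.Aff
import Pool.Agent.W335.WAB.BaseJ

/-!
The operator `Δ + B + lam V`, `Δ` the adjacency operator.
-/

namespace Pool.Agent.W792.WA.Br

open MeasureTheory Pool.Agent.W792.LL

noncomputable section

theorem hopK_const {d : ℕ} (m : ℝ) (n : Fin d → ℤ) :
    hopK (ContinuousMap.const (UnitAddTorus (Fin d)) m) n = if n = 0 then (m : ℂ) else 0 := by
  have h := W338.WA.Aff.hopK_aff (ContinuousMap.const (UnitAddTorus (Fin d)) m) 1 m n
  have e : (1 : ℝ) • (ContinuousMap.const (UnitAddTorus (Fin d)) m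
      - ContinuousMap.const (UnitAddTorus (Fin d)) m) = 0 := by simp
  have h0 : hopK (0 : C(UnitAddTorus (Fin d), ℝ)) n = 0 := by
    have := W792.GKLap.hop_add (0 : C(UnitAddTorus (Fin d), ℝ)) 0 n
    rw [add_zero] at this
    change W792.GK.hop (0 : C(UnitAddTorus (Fin d), ℝ)) n = 0
    simpa using this
  rw [e, h0] at h
  push_cast at h
  rw [one_mul] at h
  exact (sub_eq_zero.1 h.symm)

/-- The symbol of the adjacency operator. -/
def adj (d : ℕ) : C(UnitAddTorus (Fin d), ℝ) := ContinuousMap.const _ (2 * d : ℝ) - lap d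

theorem adj_apply (d : ℕ) (k : UnitAddTorus (Fin d)) : adj d k = 2 * d - lap d k := rfl

theorem sol_adj_iff {d : ℕ} (B : C(UnitAddTorus (Fin d), ℝ)) (lam : ℝ) (v : (Fin d → ℤ) → ℝ)
    (z : ℂ) (x : Fin d → ℤ) (u : (Fin d → ℤ) → ℂ) :
    Sol (hopK (adj d + B)) lam v z x u ↔ Summable (fun y => ‖u y‖ ^ 2) ∧
      ∀ y, ((∑ i : Fin d, (u (y + Pi.single i 1) + u (y - Pi.single i 1)))
        + (∑' y', UnitAddTorus.mFourierCoeff (fun k : UnitAddTorus (Fin d) => ((B k : ℝ) : ℂ))
            (y - y') * u y') + ((lam * v y : ℝ) : ℂ) * u y) - z * u y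
          = if y = x then 1 else 0 := by
  classical
  unfold Sol
  refine and_congr_right fun hu => forall_congr' fun y => ?_
  have key : (∑ i : Fin d, (u (y + Pi.single i 1) + u (y - Pi.single i 1)))
      + (∑' y', UnitAddTorus.mFourierCoeff (fun k : UnitAddTorus (Fin d) => ((B k : ℝ) : ℂ))
            (y - y') * u y') = ∑' y', hopK (adj d + B) (y - y') * u y' := by
    have h1 : ∀ n, hopK (adj d + B) n
        = (if n = 0 then ((2 * d : ℝ) : ℂ) else 0) + W792.GK.hop B n
          - W792.GK.hop (W792.GKLap.lapSym d) n := by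
      intro n
      have e1 : W792.GKLap.lapSym d + (adj d + B)
          = ContinuousMap.const (UnitAddTorus (Fin d)) (2 * d : ℝ) + B := by
        ext k
        change lap d k + ((2 * d - lap d k) + B k) = 2 * d + B k
        ring
      have e2 := W792.GKLap.hop_add (W792.GKLap.lapSym d) (adj d + B) n
      have e3 := W792.GKLap.hop_add
        (ContinuousMap.const (UnitAddTorus (Fin d)) (2 * d : ℝ)) B n
      rw [e1, e3] at e2
      have e4 : W792.GK.hop (ContinuousMap.const (UnitAddTorus (Fin d)) (2 * d : ℝ)) n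
          = if n = 0 then ((2 * d : ℝ) : ℂ) else 0 := hopK_const _ n
      rw [e4] at e2
      change W792.GK.hop (adj d + B) n = _
      linear_combination -e2
    have s1 : Summable fun y' : Fin d → ℤ =>
        (if y - y' = 0 then ((2 * d : ℝ) : ℂ) else 0) * u y' := by
      refine summable_of_ne_finset_zero (s := {y}) fun b hb => ?_
      rw [if_neg, zero_mul]
      intro h
      exact hb (Finset.mem_singleton.2 (sub_eq_zero.1 h).symm)
    have s2 := W792.GKLap.hop_summable B u hu y
    have s3 := W792.GKLap.hop_summable (W792.GKLap.lapSym d) u hu y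
    have h2 : ∑' y', hopK (adj d + B) (y - y') * u y'
        = (∑' y', (if y - y' = 0 then ((2 * d : ℝ) : ℂ) else 0) * u y')
          + (∑' y', W792.GK.hop B (y - y') * u y') - W792.GKLap.negLap u y := by
      rw [← W792.GKLap.lap_conv, ← Summable.tsum_add s1 s2, ← Summable.tsum_sub (s1.add s2) s3]
      refine tsum_congr fun y' => ?_
      rw [h1]
      ring
    have h3 : (∑' y', (if y - y' = 0 then ((2 * d : ℝ) : ℂ) else 0) * u y')
        = ((2 * d : ℝ) : ℂ) * u y := by
      rw [tsum_eq_single y]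
      · simp
      · intro b hb
        rw [if_neg, zero_mul]
        intro h
        exact hb (sub_eq_zero.1 h).symm
    rw [h2, h3]
    have h4 : W792.GKLap.negLap u y = ((2 * d : ℝ) : ℂ) * u y
        - ∑ i : Fin d, (u (y + Pi.single i 1) + u (y - Pi.single i 1)) := by
      unfold W792.GKLap.negLap
      have : ∀ i : Fin d, 2 * u y - u (y + Pi.single i 1) - u (y - Pi.single i 1)
          = 2 * u y - (u (y + Pi.single i 1) + u (y - Pi.single i 1)) := fun i => by ring
      simp only [this, Finset.sum_sub_distrib, Finset.sum_const, Finset.card_univ,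
        Fintype.card_fin, nsmul_eq_mul]
      push_cast
      ring
    rw [h4]
    change _ + (∑' y', W792.GK.hop B (y - y') * u y') = _
    ring
  rw [key]

theorem lap_nonneg' (d : ℕ) (k : UnitAddTorus (Fin d)) : 0 ≤ lap d k ∧ lap d k ≤ 4 * d := by
  have h : ∀ i, 0 ≤ 2 - 2 * (fourier 1 (k i)).re ∧ 2 - 2 * (fourier 1 (k i)).re ≤ (4 : ℝ) := by
    intro i
    have h1 : |(fourier 1 (k i)).re| ≤ 1 := by
      refine (Complex.abs_re_le_norm _).trans ?_
      rw [fourier_apply]
      exact (Circle.norm_coe _).le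
    rw [abs_le] at h1
    constructor <;> linarith [h1.1, h1.2]
  constructor
  · change 0 ≤ ∑ i, (2 - 2 * (fourier 1 (k i)).re)
    exact Finset.sum_nonneg fun i _ => (h i).1
  · change ∑ i, (2 - 2 * (fourier 1 (k i)).re) ≤ _
    refine (Finset.sum_le_sum fun i _ => (h i).2).trans ?_
    simp [mul_comm]

theorem adj_inf (d : ℕ) : (⨅ k, adj d k) = -(2 * d) := by
  have hb : BddBelow (Set.range (adj d)) := (isCompact_range (adj d).continuous).bddBelow
  apply le_antisymm
  · obtain ⟨k, hk⟩ := W335.WAB.BaseJ.lap_surj d (E := 4 * d) (by positivity) le_rfl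
    refine (ciInf_le hb k).trans ?_
    rw [adj_apply, hk]
    linarith
  · refine le_ciInf fun k => ?_
    rw [adj_apply]
    linarith [(lap_nonneg' d k).2]

theorem adj_sup (d : ℕ) : (⨆ k, adj d k) = 2 * d := by
  have hb : BddAbove (Set.range (adj d)) := (isCompact_range (adj d).continuous).bddAbove
  apply le_antisymm
  · refine ciSup_le fun k => ?_
    rw [adj_apply]
    linarith [(lap_nonneg' d k).1]
  · obtain ⟨k, hk⟩ := W335.WAB.BaseJ.lap_surj d (E := 0) le_rfl (by positivity)
    refine le_trans ?_ (le_ciSup hb k)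
    rw [adj_apply, hk]
    linarith

/-- The theorem for the adjacency operator. -/
theorem adj_main (d : ℕ) (hd : 0 < d) (ε : ℝ) (hε : 0 < ε) : ∃ b : ℝ → ℝ, Continuous b ∧
    (∀ t, |b t| ≤ ε) ∧ ∀ (ν : Measure ℝ) [IsProbabilityMeasure ν],
    Integrable (fun t : ℝ => t ^ 60) ν → (∀ a : ℝ, ν {a} < 1) → ∃ lam₀ : ℝ, 0 < lam₀ ∧
    ∀ lam : ℝ, 0 < lam → lam ≤ lam₀ → ∀ (B : C(UnitAddTorus (Fin d), ℝ)),
      (∀ k, B k = b (adj d k)) →
      ∀ᵐ v ∂(Pn ν (Fin d → ℤ)), ACIK (adj d + B) lam v (-(2 * d)) (2 * d) := by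
  have hd' : (0 : ℝ) < d := by exact_mod_cast hd
  have hlt : (⨅ k, adj d k) < ⨆ k, adj d k := by
    rw [adj_inf, adj_sup]
    linarith
  obtain ⟨g, hg, h⟩ := Al.kfin d (adj d) ε hd hε hlt
  refine ⟨fun t => g (2 * d - t), g.continuous.comp (by fun_prop), fun t => hg _,
    fun ν _ hν1 hν2 => ?_⟩
  obtain ⟨lam₀, h0, h1⟩ := h ν hν1 hν2
  refine ⟨lam₀, h0, fun lam hl1 hl2 B hB => ?_⟩
  have h2 := h1 lam hl1 hl2
  rw [adj_inf, adj_sup] at h2
  have e : B = gK g d := by
    ext k
    rw [hB, adj_apply]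
    change g (2 * d - (2 * d - lap d k)) = g (lap d k)
    congr 1
    ring
  rw [e]
  exact h2

end

end Pool.Agent.W792.WA.Br
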