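import Pool.Agent.W792.WA.Br2

/-!
The operators `-Δ + b(-Δ) + lam V` and `t (-Δ + b(-Δ)) + V`.
-/

namespace Pool.Agent.W792.WA.Br

open MeasureTheory Pool.Agent.W792.LL

noncomputable section

theorem lap_inf (d : ℕ) : (⨅ k, lap d k) = 0 := by
  have hb : BddBelow (Set.range (lap d)) := (isCompact_range (lap d).continuous).bddBelow
  apply le_antisymm
  · obtain ⟨k, hk⟩ := W335.WAB.BaseJ.lap_surj d (E := 0) le_rfl (by positivity)
    exact (ciInf_le hb k).trans hk.le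
  · exact le_ciInf fun k => (lap_nonneg' d k).1

theorem lap_sup (d : ℕ) : (⨆ k, lap d k) = 4 * d := by
  have hb : BddAbove (Set.range (lap d)) := (isCompact_range (lap d).continuous).bddAbove
  apply le_antisymm
  · exact ciSup_le fun k => (lap_nonneg' d k).2
  · obtain ⟨k, hk⟩ := W335.WAB.BaseJ.lap_surj d (E := 4 * d) (by positivity) le_rfl
    exact hk.ge.trans (le_ciSup hb k)

/-- The theorem for `-Δ`. -/
theorem lap_main (d : ℕ) (hd : 0 < d) (ε : ℝ) (hε : 0 < ε) : ∃ b : ℝ → ℝ, Continuous b ∧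
    (∀ t, |b t| ≤ ε) ∧ ∀ (ν : Measure ℝ) [IsProbabilityMeasure ν],
    Integrable (fun t : ℝ => t ^ 60) ν → (∀ a : ℝ, ν {a} < 1) → ∃ lam₀ : ℝ, 0 < lam₀ ∧
    ∀ lam : ℝ, 0 < lam → lam ≤ lam₀ → ∀ (B : C(UnitAddTorus (Fin d), ℝ)),
      (∀ k, B k = b (lap d k)) →
      ∀ᵐ v ∂(Pn ν (Fin d → ℤ)), ACIK (lap d + B) lam v 0 (4 * d) := by
  have hd' : (0 : ℝ) < d := by exact_mod_cast hd
  have hlt : (⨅ k, lap d k) < ⨆ k, lap d k := by
    rw [lap_inf, lap_sup]
    linarith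
  obtain ⟨g, hg, h⟩ := Al.kfin d (lap d) ε hd hε hlt
  refine ⟨g, g.continuous, hg, fun ν _ hν1 hν2 => ?_⟩
  obtain ⟨lam₀, h0, h1⟩ := h ν hν1 hν2
  refine ⟨lam₀, h0, fun lam hl1 hl2 B hB => ?_⟩
  have h2 := h1 lam hl1 hl2
  rw [lap_inf, lap_sup] at h2
  have e : B = gK g d := by
    ext k
    rw [hB]
    rfl
  rw [e]
  exact h2

/-- Large multiples of the kinetic energy instead of small couplings. -/
theorem scale_up {d : ℕ} (K : C(UnitAddTorus (Fin d), ℝ)) {t a b : ℝ} (ht : 0 < t)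
    {v : (Fin d → ℤ) → ℝ} (h : ACIK K (1 / t) v a b) : ACIK (t • K) 1 v (t * a) (t * b) := by
  have h1 := Al.aff d (t • K) (1 / t) 0 1 a b v (by positivity)
  have e : (1 / t) • (t • K - ContinuousMap.const _ (0 : ℝ)) = K := by
    ext k
    change (1 / t) * (t * K k - 0) = K k
    field_simp
    ring
  rw [e, mul_one] at h1
  have h2 := h1 h
  have e1 : 0 + a / (1 / t) = t * a := by field_simp; ring
  have e2 : 0 + b / (1 / t) = t * b := by field_simp; ring
  rwa [e1, e2] at h2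

theorem hopK_smul {d : ℕ} (K : C(UnitAddTorus (Fin d), ℝ)) (t : ℝ) (n : Fin d → ℤ) :
    hopK (t • K) n = t * hopK K n := by
  have h := W338.WA.Aff.hopK_aff K t 0 n
  have e : t • (K - ContinuousMap.const _ (0 : ℝ)) = t • K := by
    ext k
    change t * (K k - 0) = t * K k
    ring
  rw [e] at h
  simpa using h

end

end Pool.Agent.W792.WA.Br
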