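import Pool.Agent.W792.WA.Br3
import Pool.Agent.W792.WA.All3

/-!
The operator `-Δ + g(-Δ) + V`, arbitrary disorder, `g(-Δ)` with symbol small in `L^p`, `p < 2`.
-/

namespace Pool.Agent.W792.WA.Br

open MeasureTheory Pool.Agent.W792.LL

noncomputable section

theorem abs_le_pow {c t p : ℝ} (hc : 0 < c) (hp : 1 < p) :
    |t| ≤ c + |t| ^ p * c ^ (1 - p) := by
  have hcp : 0 < c ^ (1 - p) := Real.rpow_pos_of_pos hc _
  rcases le_or_gt |t| c with h | h
  · have : 0 ≤ |t| ^ p * c ^ (1 - p) := by positivity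
    linarith
  · have ht : 0 < |t| := hc.trans h
    have h1 : |t| ^ (1 - p) ≤ c ^ (1 - p) :=
      Real.rpow_le_rpow_of_nonpos hc h.le (by linarith)
    have h2 : |t| ^ p * |t| ^ (1 - p) = |t| := by
      rw [← Real.rpow_add ht]
      simp
    have h3 : 0 < |t| ^ p := Real.rpow_pos_of_pos ht _
    nlinarith

theorem vol_pi (d : ℕ) : (Measure.pi fun _ : Fin d => (AddCircle.haarAddCircle : Measure UnitAddCircle))
    = (volume : Measure (UnitAddTorus (Fin d))) := by
  change _ = (Measure.pi fun _ : Fin d => (volume : Measure UnitAddCircle))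
  congr 1
  funext _
  rw [AddCircle.volume_eq_smul_haarAddCircle]
  simp

/-- Hopping amplitudes of a perturbation with symbol small in `L^p`. -/
theorem amp_le {d : ℕ} (B : C(UnitAddTorus (Fin d), ℝ)) {p ε : ℝ} (hp : 1 < p) (hε : 0 < ε)
    (h : ∫ k : UnitAddTorus (Fin d), |B k| ^ p ≤ (ε / 2) ^ p) (x : Fin d → ℤ) :
    ‖UnitAddTorus.mFourierCoeff (fun k : UnitAddTorus (Fin d) => ((B k : ℝ) : ℂ)) x‖ ≤ ε := by
  have hc : 0 < ε / 2 := by positivity
  have i1 : Integrable (fun k : UnitAddTorus (Fin d) => |B k|) :=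
    (B.continuous.abs).integrable_of_hasCompactSupport
      (HasCompactSupport.of_compactSpace _)
  have i2 : Integrable (fun k : UnitAddTorus (Fin d) => |B k| ^ p) :=
    (B.continuous.abs.rpow_const fun _ => Or.inr (by linarith)).integrable_of_hasCompactSupport
      (HasCompactSupport.of_compactSpace _)
  have h1' : ‖∫ k : UnitAddTorus (Fin d), UnitAddTorus.mFourier (-x) k • ((B k : ℝ) : ℂ)‖
      ≤ ∫ k : UnitAddTorus (Fin d), |B k| := by
    refine (norm_integral_le_integral_norm _).trans (integral_mono_of_nonneg ?_ i1 ?_)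
    · exact Filter.Eventually.of_forall fun _ => norm_nonneg _
    · refine Filter.Eventually.of_forall fun k => ?_
      have hm : ‖UnitAddTorus.mFourier (-x) k‖ ≤ 1 :=
        ((UnitAddTorus.mFourier (-x)).norm_coe_le_norm k).trans
          UnitAddTorus.mFourier_norm.le
      simp only [norm_smul, Complex.norm_real, Real.norm_eq_abs]
      nlinarith [abs_nonneg (B k)]
  have h1 : ‖UnitAddTorus.mFourierCoeff (fun k : UnitAddTorus (Fin d) => ((B k : ℝ) : ℂ)) x‖
      ≤ ∫ k : UnitAddTorus (Fin d), |B k| := by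
    have e : UnitAddTorus.mFourierCoeff (fun k : UnitAddTorus (Fin d) => ((B k : ℝ) : ℂ)) x
        = ∫ k : UnitAddTorus (Fin d), UnitAddTorus.mFourier (-x) k • ((B k : ℝ) : ℂ) := by
      change ∫ k, UnitAddTorus.mFourier (-x) k • ((B k : ℝ) : ℂ)
        ∂(Measure.pi fun _ : Fin d => (AddCircle.haarAddCircle : Measure UnitAddCircle)) = _
      rw [vol_pi]
    rw [e]
    exact h1'
  have h2 : ∫ k : UnitAddTorus (Fin d), |B k|
      ≤ ∫ k : UnitAddTorus (Fin d), (ε / 2 + |B k| ^ p * (ε / 2) ^ (1 - p)) := by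
    refine integral_mono i1 ?_ fun k => abs_le_pow hc hp
    exact (integrable_const _).add (i2.mul_const _)
  have h3 : ∫ k : UnitAddTorus (Fin d), (ε / 2 + |B k| ^ p * (ε / 2) ^ (1 - p))
      = ε / 2 + (∫ k : UnitAddTorus (Fin d), |B k| ^ p) * (ε / 2) ^ (1 - p) := by
    rw [integral_add (integrable_const _) (i2.mul_const _), integral_const, ChN.vol_one,
      integral_mul_const]
    simp
  have h4 : (∫ k : UnitAddTorus (Fin d), |B k| ^ p) * (ε / 2) ^ (1 - p)
      ≤ (ε / 2) ^ p * (ε / 2) ^ (1 - p) :=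
    mul_le_mul_of_nonneg_right h (Real.rpow_nonneg hc.le _)
  have h5 : (ε / 2) ^ p * (ε / 2) ^ (1 - p) = ε / 2 := by
    rw [← Real.rpow_add hc]
    simp
  linarith

/-- The theorem for `-Δ` at arbitrary disorder. -/
theorem np_main (d : ℕ) (hd : 0 < d) (a b p κ ε : ℝ) (hab : a < b) (hp1 : 1 < p) (hp2 : p < 2)
    (hκ : 0 < κ) (hε : 0 < ε) : ∃ g : ℝ → ℝ, Continuous g ∧ (∃ C : ℝ, ∀ t, |g t| ≤ C) ∧
    (∫ k : UnitAddTorus (Fin d), |g (lap d k)| ^ p ≤ ε) ∧
    (∀ x, ‖UnitAddTorus.mFourierCoeff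
      (fun k : UnitAddTorus (Fin d) => ((g (lap d k) : ℝ) : ℂ)) x‖ ≤ ε) ∧
    ∀ (ν : Measure ℝ) [IsProbabilityMeasure ν], κ ≤ vr ν → ∀ (B : C(UnitAddTorus (Fin d), ℝ)),
      (∀ k, B k = g (lap d k)) → ∀ᵐ v ∂(Pn ν (Fin d → ℤ)), ACIK (lap d + B) 1 v a b := by
  have hε1 : 0 < min ε ((ε / 2) ^ p) := lt_min hε (Real.rpow_pos_of_pos (by positivity) _)
  obtain ⟨g, hg1, hg2, hg3⟩ := Al.npfin d (lap d) a b p κ _ hd hab hp1 hp2 hκ hε1
  refine ⟨g, g.continuous, hg1, hg2.trans (min_le_left _ _), fun x => ?_, fun ν _ hν B hB => ?_⟩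
  · exact amp_le (gK g d) hp1 hε (hg2.trans (min_le_right _ _)) x
  · have e : B = gK g d := by
      ext k
      rw [hB]
      rfl
    rw [e]
    exact hg3 ν hν

/-- A law of bounded support that is not a point mass has positive `vr`. -/
theorem vr_pos (ν : Measure ℝ) [IsProbabilityMeasure ν] (C : ℝ) (hC : 0 < C)
    (h1 : ∀ᵐ x ∂ν, |x| ≤ C) (h2 : ∀ a : ℝ, ν {a} < 1) : 0 < vr ν := by
  obtain ⟨κ, l, hκ, hl, h⟩ := Al.vr ν C hC h1 h2
  have h3 := h l hl le_rfl
  have hm : Measurable fun t : ℝ => l * t := measurable_const_mul l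
  have hp : IsProbabilityMeasure (ν.map fun x => l * x) :=
    Measure.isProbabilityMeasure_map hm.aemeasurable
  have h4 := Al.vrs (ν.map fun x => l * x) (1 / l) (by positivity)
  rw [Measure.map_map (measurable_const_mul _) hm] at h4
  have e : (fun x : ℝ => 1 / l * x) ∘ (fun x => l * x) = id := by
    funext x
    simp only [Function.comp_apply, id_eq]
    field_simp
  rw [e, Measure.map_id] at h4
  have h5 : 0 < vr (ν.map fun x => l * x) := lt_of_lt_of_le (by positivity) h3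
  have h6 : 0 < min ((1 / l) ^ 2) (1 / (1 / l) ^ 2) := lt_min (by positivity) (by positivity)
  exact (mul_pos h6 h5).trans_le h4

end

end Pool.Agent.W792.WA.Br
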