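import Pool.Agent.W792.WA.G16
import Pool.Agent.W792.WA.All2

/-!
Polynomial decay of the hopping amplitudes: assembly.
-/

namespace Pool.Agent.W792.WA.Al

open MeasureTheory Filter Pool.Agent.W792.LL Pool.Agent.W792.WA
open scoped Topology

theorem knx : S_KNX := ChK.knx cx uuc scl zf cay mzp uni uni2 step2 jstep netx2 fut j0k base4
  mom qnt2 aeqk

theorem kfx : S_KFX := G16.kfx knx aff

/-- A semicircle function with polynomially decaying levels. -/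
theorem exists_lv (hH : S_WH) (hB : S_WB) (hD : S_WD) :
    ∃ ψ : C(UnitAddCircle, ℝ), IsSemi ψ ∧ ∀ d : ℕ, 0 < d → ∃ C : ℝ, 0 < C ∧
      ∀ (M : ℕ) (x : Fin d → ℤ),
      ‖UnitAddTorus.mFourierCoeff (fun k : UnitAddTorus (Fin d) =>
        ((ψ ((M * lap d k / (2 * Real.pi) : ℝ) : UnitAddCircle) : ℝ) : ℂ)) x‖
        ≤ C / (1 + ‖x‖) ^ ((d : ℝ) / 3) := by
  obtain ⟨ψ, h1, h2⟩ := hH
  exact ⟨ψ, h1, fun d hd => hD d ψ hd (hB ψ h2)⟩

/-- The density theorem with polynomial decay of the hopping amplitudes of the perturbation. -/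
def S_KFD : Prop :=
  ∀ (d : ℕ) (K : C(UnitAddTorus (Fin d), ℝ)) (ε : ℝ), 0 < d → 0 < ε →
    (⨅ k, K k) < (⨆ k, K k) →
    ∃ g : C(ℝ, ℝ), (∀ t, |g t| ≤ ε) ∧ (∀ x : Fin d → ℤ,
      ‖UnitAddTorus.mFourierCoeff (fun k : UnitAddTorus (Fin d) => ((g (lap d k) : ℝ) : ℂ)) x‖
        ≤ ε / (1 + ‖x‖) ^ ((d : ℝ) / 3)) ∧
    ∀ (ν : Measure ℝ) [IsProbabilityMeasure ν], Integrable (fun x : ℝ => x ^ 60) ν →
    (∀ a : ℝ, ν {a} < 1) → ∃ lam₀ : ℝ, 0 < lam₀ ∧ ∀ lam : ℝ, 0 < lam → lam ≤ lam₀ →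
      ∀ᵐ v ∂(Pn ν (Fin d → ℤ)), ACIK (K + gK g d) lam v (⨅ k, K k) (⨆ k, K k)

theorem kfd (hH : S_WH) (hB : S_WB) (hD : S_WD) (hS : S_WS) : S_KFD := by
  intro d K ε hd hε hlt
  obtain ⟨ψ, hψ, h⟩ := exists_lv hH hB hD
  obtain ⟨C, hC, hC1⟩ := h d hd
  have hS0 : 0 < min ε (ε / C) := lt_min hε (by positivity)
  obtain ⟨g, hg1, hg2⟩ := kfx ψ hψ d K (min ε (ε / C)) hd hS0 hlt
  refine ⟨g, fun t => (G16.IsSum.bound hψ.bound hg1 t).trans (min_le_left _ _), fun x => ?_, hg2⟩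
  have h1 := hS d ψ C (min ε (ε / C)) g hd hC.le hS0.le hC1 hg1 x
  refine h1.trans ?_
  have h2 : min ε (ε / C) * C ≤ ε := by
    calc min ε (ε / C) * C ≤ ε / C * C := mul_le_mul_of_nonneg_right (min_le_right _ _) hC.le
      _ = ε := by field_simp
  have h3 : 0 < (1 + ‖x‖) ^ ((d : ℝ) / 3) := by positivity
  exact div_le_div_of_nonneg_right h2 h3.le

end Pool.Agent.W792.WA.Al
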