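import Pool.Agent.W792.WA.Br3
import Pool.Agent.W792.WA.Dec

/-!
The operators `-Δ + b(-Δ) + lam V` and `Δ + b(Δ) + lam V`, with polynomial decay of the hopping
amplitudes of the perturbation.
-/

namespace Pool.Agent.W792.WA.Br

open MeasureTheory Pool.Agent.W792.LL

noncomputable section

/-- The theorem for `-Δ`, with decay. -/
theorem lap_mainD (hK : Al.S_KFD) (d : ℕ) (hd : 0 < d) (ε : ℝ) (hε : 0 < ε) :
    ∃ b : ℝ → ℝ, Continuous b ∧ (∀ t, |b t| ≤ ε) ∧ (∀ x : Fin d → ℤ,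
      ‖UnitAddTorus.mFourierCoeff (fun k : UnitAddTorus (Fin d) => ((b (lap d k) : ℝ) : ℂ)) x‖
        ≤ ε / (1 + ‖x‖) ^ ((d : ℝ) / 3)) ∧
    ∀ (ν : Measure ℝ) [IsProbabilityMeasure ν],
    Integrable (fun t : ℝ => t ^ 60) ν → (∀ a : ℝ, ν {a} < 1) → ∃ lam₀ : ℝ, 0 < lam₀ ∧
    ∀ lam : ℝ, 0 < lam → lam ≤ lam₀ → ∀ (B : C(UnitAddTorus (Fin d), ℝ)),
      (∀ k, B k = b (lap d k)) →
      ∀ᵐ v ∂(Pn ν (Fin d → ℤ)), ACIK (lap d + B) lam v 0 (4 * d) := by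
  have hd' : (0 : ℝ) < d := by exact_mod_cast hd
  have hlt : (⨅ k, lap d k) < ⨆ k, lap d k := by
    rw [lap_inf, lap_sup]
    linarith
  obtain ⟨g, hg, hgd, h⟩ := hK d (lap d) ε hd hε hlt
  refine ⟨g, g.continuous, hg, hgd, fun ν _ hν1 hν2 => ?_⟩
  obtain ⟨lam₀, h0, h1⟩ := h ν hν1 hν2
  refine ⟨lam₀, h0, fun lam hl1 hl2 B hB => ?_⟩
  have h2 := h1 lam hl1 hl2
  rw [lap_inf, lap_sup] at h2
  have e : B = gK g d := by
    ext k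
    rw [hB]
    rfl
  rw [e]
  exact h2

/-- The theorem for the adjacency operator, with decay. -/
theorem adj_mainD (hK : Al.S_KFD) (d : ℕ) (hd : 0 < d) (ε : ℝ) (hε : 0 < ε) :
    ∃ b : ℝ → ℝ, Continuous b ∧ (∀ t, |b t| ≤ ε) ∧ (∀ x : Fin d → ℤ,
      ‖UnitAddTorus.mFourierCoeff (fun k : UnitAddTorus (Fin d) => ((b (adj d k) : ℝ) : ℂ)) x‖
        ≤ ε / (1 + ‖x‖) ^ ((d : ℝ) / 3)) ∧
    ∀ (ν : Measure ℝ) [IsProbabilityMeasure ν],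
    Integrable (fun t : ℝ => t ^ 60) ν → (∀ a : ℝ, ν {a} < 1) → ∃ lam₀ : ℝ, 0 < lam₀ ∧
    ∀ lam : ℝ, 0 < lam → lam ≤ lam₀ → ∀ (B : C(UnitAddTorus (Fin d), ℝ)),
      (∀ k, B k = b (adj d k)) →
      ∀ᵐ v ∂(Pn ν (Fin d → ℤ)), ACIK (adj d + B) lam v (-(2 * d)) (2 * d) := by
  have hd' : (0 : ℝ) < d := by exact_mod_cast hd
  have hlt : (⨅ k, adj d k) < ⨆ k, adj d k := by
    rw [adj_inf, adj_sup]
    linarith
  have hadj : ∀ (g : C(ℝ, ℝ)) (k : UnitAddTorus (Fin d)), g (2 * d - adj d k) = g (lap d k) := by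
    intro g k
    rw [adj_apply]
    congr 1
    ring
  obtain ⟨g, hg, hgd, h⟩ := hK d (adj d) ε hd hε hlt
  refine ⟨fun t => g (2 * d - t), g.continuous.comp (by fun_prop), fun t => hg _, fun x => ?_,
    fun ν _ hν1 hν2 => ?_⟩
  · simp only [hadj]
    exact hgd x
  · obtain ⟨lam₀, h0, h1⟩ := h ν hν1 hν2
    refine ⟨lam₀, h0, fun lam hl1 hl2 B hB => ?_⟩
    have h2 := h1 lam hl1 hl2
    rw [adj_inf, adj_sup] at h2
    have e : B = gK g d := by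
      ext k
      rw [hB]
      exact hadj g k
    rw [e]
    exact h2

end

end Pool.Agent.W792.WA.Br
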