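import Pool.Agent.W792.LL.Defs

/-!
Definitions for the project WA (absolutely continuous spectrum for i.i.d. potentials with any
compactly supported law at weak disorder and kinetic energy `f(-Δ)`).
-/

namespace Pool.Agent.W792.WA

open MeasureTheory Pool.Agent.W792.LL

noncomputable section

/-- Law of i.i.d. variables with law `ν`. -/
def Pn (ν : Measure ℝ) [IsProbabilityMeasure ν] (Γ : Type) : Measure (Γ → ℝ) :=
  Measure.infinitePi fun _ : Γ => ν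

instance (ν : Measure ℝ) [IsProbabilityMeasure ν] (Γ : Type) : IsProbabilityMeasure (Pn ν Γ) := by
  unfold Pn; infer_instance

/-- The diagonal operator with entries `cay (v x)`. -/
def dc {d : ℕ} (v : (Fin d → ℤ) → ℝ) : l2 (Fin d → ℤ) →L[ℂ] l2 (Fin d → ℤ) :=
  dia fun x => cay (v x)

/-- The resolvent `(1 - m c)⁻¹`. -/
def rsv {d : ℕ} (m : C(UnitAddTorus (Fin d), ℂ)) (v : (Fin d → ℤ) → ℝ) :
    l2 (Fin d → ℤ) →L[ℂ] l2 (Fin d → ℤ) :=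
  Ring.inverse (1 - opr m * dc v)

/-- Unit vectors. -/
def dl {d : ℕ} (x : Fin d → ℤ) : l2 (Fin d → ℤ) := lp.single 2 x (1 : ℂ)

open Classical in
/-- The symbol of the translation invariant operator `E [c (1 - m c)⁻¹]` (see `S_CSYM`). -/
def csym (ν : Measure ℝ) [IsProbabilityMeasure ν] {d : ℕ} (m : C(UnitAddTorus (Fin d), ℂ)) :
    C(UnitAddTorus (Fin d), ℂ) :=
  if h : ∃ C : C(UnitAddTorus (Fin d), ℂ), ∀ (u : l2 (Fin d → ℤ)) (x : Fin d → ℤ),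
      ∫ v, (dc v (rsv m v u)) x ∂(Pn ν (Fin d → ℤ)) = opr C u x
  then Classical.choose h else 0

/-- The effective phase: `E [c (1 - m c)⁻¹] = s / (1 - m s)` for `s = psi ν m`. -/
def psi (ν : Measure ℝ) [IsProbabilityMeasure ν] {d : ℕ} (m : C(UnitAddTorus (Fin d), ℂ)) :
    C(UnitAddTorus (Fin d), ℂ) := toC fun k => csym ν m k / (1 + m k * csym ν m k)

/-- The variance of `cay`. -/
def vr (ν : Measure ℝ) : ℝ := 1 - ‖∫ x, cay x ∂ν‖ ^ 2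

/-- The average `∫ w / (1 - w s) dρ`. -/
def Bs (ρ : Measure ℝ) (w : ℝ → ℂ) (s : ℂ) : ℂ := ∫ a, w a / (1 - w a * s) ∂ρ

/-- The effective contraction: `U / (1 - U s) = ∫ w / (1 - w s) dρ`. -/
def Us (ρ : Measure ℝ) (w : ℝ → ℂ) (s : ℂ) : ℂ := Bs ρ w s / (1 + s * Bs ρ w s)

/-- Its symbol version. -/
def UU {d : ℕ} (ρ : Measure ℝ) (w : UnitAddTorus (Fin d) → ℝ → ℂ)
    (s : C(UnitAddTorus (Fin d), ℂ)) : C(UnitAddTorus (Fin d), ℂ) :=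
  toC fun k => Us ρ (w k) (s k)

/-- `s` solves the effective medium equation. -/
def IsFix (ν : Measure ℝ) [IsProbabilityMeasure ν] {d : ℕ} (ρ : Measure ℝ)
    (w : UnitAddTorus (Fin d) → ℝ → ℂ) (s : C(UnitAddTorus (Fin d), ℂ)) : Prop :=
  ‖s‖ ≤ 1 ∧ psi ν (UU ρ w s) = s

/-- Cayley transform of `x + a`. -/
def cayx (x : ℂ) (a : ℝ) : ℂ := (x + a + Complex.I) / (x + a - Complex.I)

/-- The family of symbols of the model with kinetic energy `K` at energy `z`. -/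
def wz {d : ℕ} (K : C(UnitAddTorus (Fin d), ℝ)) (z : ℂ) (k : UnitAddTorus (Fin d)) (a : ℝ) : ℂ :=
  cayx ((K k : ℂ) - z) a

/-- Average over the coordinates in `B`. -/
def avg (ν : Measure ℝ) [IsProbabilityMeasure ν] {Γ : Type} [DecidableEq Γ] (B : Finset Γ)
    (f : (Γ → ℝ) → ℂ) (v : Γ → ℝ) : ℂ :=
  ∫ v', f (fun z => if z ∈ B then v' z else v z) ∂(Pn ν Γ)

/-- Sums of functions of at most `N` coordinates. -/
def IsDg {Γ : Type} (N : ℕ) (f : (Γ → ℝ) → ℂ) : Prop :=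
  ∃ (n : ℕ) (S : Fin n → Finset Γ) (g : Fin n → (Γ → ℝ) → ℂ), (∀ i, (S i).card ≤ N) ∧
    (∀ i, Measurable (g i)) ∧ (∀ i, ∃ C : ℝ, ∀ v, ‖g i v‖ ≤ C) ∧
    (∀ i v v', (∀ z ∈ S i, v z = v' z) → g i v = g i v') ∧ ∀ v, f v = ∑ i, g i v

/-- Box as a finite set. -/
def bx {d : ℕ} (R : ℕ) (x : Fin d → ℤ) : Finset (Fin d → ℤ) :=
  Finset.Icc (fun i => x i - R) (fun i => x i + R)

/-- Box of radius `R`. -/
def nb {d : ℕ} (R : ℕ) (x y : Fin d → ℤ) : Prop := ∀ i, |x i - y i| ≤ (R : ℤ)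

/-- Local random operators. -/
structure IsLoc {d : ℕ} (R : ℕ) (C : ℝ)
    (Q : ((Fin d → ℤ) → ℝ) → (l2 (Fin d → ℤ) →L[ℂ] l2 (Fin d → ℤ))) : Prop where
  bound : ∀ v, ‖Q v‖ ≤ C
  range : ∀ v x y, ¬ nb R x y → Q v (dl y) x = 0
  loc : ∀ x y v v', (∀ z, nb R x z → v z = v' z) → Q v (dl y) x = Q v' (dl y) x
  meas : ∀ x y, Measurable fun v => Q v (dl y) x

/-- Quasi-local random operators. -/
def IsQL {d : ℕ} (Q : ((Fin d → ℤ) → ℝ) → (l2 (Fin d → ℤ) →L[ℂ] l2 (Fin d → ℤ))) : Prop :=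
  ∀ ε : ℝ, 0 < ε → ∃ (R : ℕ) (C : ℝ) (Q' : ((Fin d → ℤ) → ℝ) →
    (l2 (Fin d → ℤ) →L[ℂ] l2 (Fin d → ℤ))), IsLoc R C Q' ∧ ∀ v, ‖Q v - Q' v‖ ≤ ε

/-- Law of `l ψ(φ)`, `φ` uniform on the circle. -/
def lev (ψ : C(UnitAddCircle, ℝ)) (l : ℝ) : Measure ℝ :=
  Measure.map (fun φ : ℝ => l * ψ (φ : UnitAddCircle)) (volume.restrict (Set.Ioc (0 : ℝ) 1))

/-- A continuous function on the circle with the semicircle law. -/
structure IsSemi (ψ : C(UnitAddCircle, ℝ)) : Prop where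
  bound : ∀ t, |ψ t| ≤ 1
  atom : ∀ a, volume {φ : ℝ | φ ∈ Set.Ioc (0 : ℝ) 1 ∧ ψ (φ : UnitAddCircle) = a} = 0
  eqn : ∀ w : ℂ, w.im < 0 →
    ‖∫ φ in Set.Ioc (0 : ℝ) 1, 1 / (w + (ψ (φ : UnitAddCircle) : ℂ))‖ ≤ 2 ∧
    (∫ φ in Set.Ioc (0 : ℝ) 1, 1 / (w + (ψ (φ : UnitAddCircle) : ℂ))) ^ 2 / 4
      - w * (∫ φ in Set.Ioc (0 : ℝ) 1, 1 / (w + (ψ (φ : UnitAddCircle) : ℂ))) + 1 = 0

/-- `K + l ψ(M lap / 2π)`. -/
def addL (ψ : C(UnitAddCircle, ℝ)) {d : ℕ} (K : C(UnitAddTorus (Fin d), ℝ)) (l : ℝ) (M : ℕ) :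
    C(UnitAddTorus (Fin d), ℝ) where
  toFun k := K k + l * ψ ((M * lap d k / (2 * Real.pi) : ℝ) : UnitAddCircle)
  continuous_toFun := by
    have h : Continuous fun k : UnitAddTorus (Fin d) =>
        ((M * lap d k / (2 * Real.pi) : ℝ) : UnitAddCircle) :=
      (AddCircle.continuous_mk' (1 : ℝ)).comp (by fun_prop)
    exact K.continuous.add (continuous_const.mul (ψ.continuous.comp h))

/-- The half strip of energies. -/
def Zs (d : ℕ) : Set ℂ := {z | 0 ≤ z.re ∧ z.re ≤ 4 * d ∧ 0 < z.im ∧ z.im ≤ 1}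

/-- Spectral measures of `K + V` (potential `v`): for every site there is a finite measure `μ` with
`⟨δ_x, (H - z)⁻¹ δ_x⟩ = ∫ 1 / (E - z) dμ(E)`, absolutely continuous on `(0, 4 d)` with a density
positive almost everywhere there. -/
def ACIn {d : ℕ} (K : (Fin d → ℤ) → ℂ) (lam : ℝ) (v : (Fin d → ℤ) → ℝ) : Prop :=
  ∀ x : Fin d → ℤ, ∃ (μ : Measure ℝ) (h : ℝ → ℝ), IsFiniteMeasure μ ∧
    (∀ z : ℂ, 0 < z.im → (∃ w, Sol K lam v z x w) ∧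
      ∀ w, Sol K lam v z x w → w x = ∫ E : ℝ, 1 / ((E : ℂ) - z) ∂μ) ∧
    Measurable h ∧ (∀ᵐ E ∂(volume.restrict (Set.Ioo (0 : ℝ) (4 * d))), 0 < h E) ∧
    μ.restrict (Set.Ioo (0 : ℝ) (4 * d))
      = (volume.restrict (Set.Ioo (0 : ℝ) (4 * d))).withDensity fun E => ENNReal.ofReal (h E)

end

end Pool.Agent.W792.WA
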