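import Pool.Agent.W792.WA.Stm

/-!
Preparations for the chain.
-/

namespace Pool.Agent.W792.WA.Ch

open MeasureTheory Filter Pool.Agent.W792.LL Pool.Agent.W792.WA
open scoped Topology

noncomputable section

theorem exists_seq {α : Type*} (P : ℕ → α → Prop) (R : ℕ → α → α → Prop) (h0 : ∃ a, P 0 a)
    (hs : ∀ n a, P n a → ∃ b, P (n + 1) b ∧ R n a b) :
    ∃ x : ℕ → α, ∀ n, P n (x n) ∧ R n (x n) (x (n + 1)) := by
  classical
  obtain ⟨a0, ha0⟩ := h0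
  have : Nonempty α := ⟨a0⟩
  choose! g hg1 hg2 using hs
  let x : ℕ → α := fun n => Nat.rec a0 (fun n a => g n a) n
  have hx : ∀ n, P n (x n) := by
    intro n
    induction n with
    | zero => exact ha0
    | succ n ih => exact hg1 n _ ih
  exact ⟨x, fun n => ⟨hx n, hg2 n _ (hx n)⟩⟩

/-- Recursive choice of small parameters. -/
def etaR (a : ℕ → ℝ) : ℕ → ℝ
  | 0 => min 1 (a 0)
  | (n + 1) => min (etaR a n / 2) (a (n + 1))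

theorem exists_eta (a : ℕ → ℝ) (ha : ∀ n, 0 < a n) : ∃ η : ℕ → ℝ, (∀ n, 0 < η n) ∧
    (∀ n, η n ≤ 1) ∧ Antitone η ∧ (∀ n, η n ≤ a n) ∧ Tendsto η atTop (𝓝 0) := by
  have h0 : ∀ n, 0 < etaR a n := by
    intro n
    induction n with
    | zero => exact lt_min one_pos (ha 0)
    | succ n ih => exact lt_min (by linarith) (ha _)
  have h1 : ∀ n, etaR a n ≤ (1 / 2) ^ n := by
    intro n
    induction n with
    | zero => simp [etaR]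
    | succ n ih =>
      refine (min_le_left _ _).trans ?_
      rw [pow_succ]; linarith
  refine ⟨etaR a, h0, fun n => (h1 n).trans (pow_le_one₀ (by norm_num) (by norm_num)),
    antitone_nat_of_succ_le fun n => (min_le_left _ _).trans (by linarith [h0 n]), ?_, ?_⟩
  · intro n
    cases n with
    | zero => exact min_le_right _ _
    | succ n => exact min_le_right _ _
  · refine squeeze_zero (fun n => (h0 n).le) h1 ?_
    exact tendsto_pow_atTop_nhds_zero_of_lt_one (by norm_num) (by norm_num)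

theorem uf_dirac {z : ℂ} (hz : 0 ≤ z.im) (t : ℝ) :
    uf (Measure.dirac 0) 1 z t = cayx ((t : ℂ) - z) 0 := by
  have hne : (t : ℂ) - z - Complex.I ≠ 0 := by
    intro h
    have := congrArg Complex.im h
    simp at this
    linarith
  unfold uf cayx
  rw [integral_dirac]
  have e1 : (t : ℂ) + ((0 : ℝ) : ℂ) - ((1 : ℝ) : ℂ) * Complex.I - z = t - z - Complex.I := by
    push_cast; ring
  have e2 : (t : ℂ) - z + ((0 : ℝ) : ℂ) - Complex.I = t - z - Complex.I := by push_cast; ring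
  rw [e1, e2]
  push_cast
  field_simp
  ring

theorem us_dirac (hX : S_CX) {d : ℕ} (K : C(UnitAddTorus (Fin d), ℝ)) {z : ℂ} (hz : 0 ≤ z.im)
    (k : UnitAddTorus (Fin d)) : us (Measure.dirac 0) 1 z K k = cayx ((K k : ℂ) - z) 0 := by
  have h1 : (fun k => uf (Measure.dirac 0) 1 z (K k)) = fun k => wz K z k 0 := by
    funext k
    exact uf_dirac hz (K k)
  have hc : Continuous fun k => uf (Measure.dirac 0) 1 z (K k) := by
    rw [h1]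
    exact (hX.2.2.2 d K z hz).comp (continuous_id.prodMk continuous_const)
  unfold us toC
  rw [dif_pos hc]
  exact uf_dirac hz (K k)

theorem Us_const {ρ : Measure ℝ} [IsProbabilityMeasure ρ] {w s : ℂ} (h : 1 - w * s ≠ 0) :
    Us ρ (fun _ => w) s = w := by
  unfold Us Bs
  rw [integral_const]
  simp only [probReal_univ, one_smul]
  have h2 : 1 + s * (w / (1 - w * s)) = 1 / (1 - w * s) := by
    rw [eq_div_iff h, add_mul, one_mul, mul_assoc, div_mul_cancel₀ _ h]; ring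
  rw [h2, div_div_div_cancel_right₀ h, div_one]

theorem Zf_lip (hZ : S_ZF) (hCay : S_CAY) {d : ℕ} {m m' : C(UnitAddTorus (Fin d), ℂ)} {q : ℝ}
    (h0 : 0 ≤ q) (h1 : q < 1) (hm : ‖m‖ ≤ q) (hm' : ‖m'‖ ≤ q) (v : (Fin d → ℤ) → ℝ) :
    ‖Zf m (fun x => cay (v x)) - Zf m' (fun x => cay (v x))‖ ≤ ‖m - m'‖ / (1 - q) ^ 2 :=
  (hZ d m m' _ q h0 h1 hm hm' (fun _ => (hCay.1 _).le)).2.2.1

theorem Zf_bound (hZ : S_ZF) (hCay : S_CAY) {d : ℕ} {m : C(UnitAddTorus (Fin d), ℂ)} {q : ℝ}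
    (h0 : 0 ≤ q) (h1 : q < 1) (hm : ‖m‖ ≤ q) (v : (Fin d → ℤ) → ℝ) :
    ‖Zf m (fun x => cay (v x))‖ ≤ 1 / (1 - q) :=
  (hZ d m m _ q h0 h1 hm hm (fun _ => (hCay.1 _).le)).2.1

theorem Zf_pos (hZ : S_ZF) (hCay : S_CAY) {d : ℕ} {m : C(UnitAddTorus (Fin d), ℂ)} {q : ℝ}
    (h0 : 0 ≤ q) (h1 : q < 1) (hm : ‖m‖ ≤ q) (v : (Fin d → ℤ) → ℝ) :
    (1 - q ^ 2) / 4 ≤ 2 * (Zf m (fun x => cay (v x))).re - 1 :=
  (hZ d m m _ q h0 h1 hm hm (fun _ => (hCay.1 _).le)).2.2.2.2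

theorem Zf_int (hZ : S_ZF) (hCay : S_CAY) (hM : S_MZP) (ν : Measure ℝ) [IsProbabilityMeasure ν]
    {d : ℕ} {m : C(UnitAddTorus (Fin d), ℂ)} {q : ℝ}
    (h0 : 0 ≤ q) (h1 : q < 1) (hm : ‖m‖ ≤ q) :
    Integrable (fun v : (Fin d → ℤ) → ℝ => Zf m (fun x => cay (v x))) (Pn ν (Fin d → ℤ)) :=
  Integrable.of_bound (C := 1 / (1 - q)) (hM d m q h1 hm).aestronglyMeasurable
    (ae_of_all _ fun v => Zf_bound hZ hCay h0 h1 hm v)

/-- Add one level. -/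
def nx (ψ : C(UnitAddCircle, ℝ)) (f : C(ℝ, ℝ)) (l : ℝ) (M : ℕ) : C(ℝ, ℝ) where
  toFun t := f t + l * ψ ((M * t / (2 * Real.pi) : ℝ) : UnitAddCircle)
  continuous_toFun := by
    have h : Continuous fun t : ℝ => ((M * t / (2 * Real.pi) : ℝ) : UnitAddCircle) :=
      (AddCircle.continuous_mk' (1 : ℝ)).comp (by fun_prop)
    exact f.continuous.add (continuous_const.mul (ψ.continuous.comp h))

theorem fK_nx (ψ : C(UnitAddCircle, ℝ)) (f : C(ℝ, ℝ)) (l : ℝ) (M d : ℕ) :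
    fK (nx ψ f l M) d = addL ψ (fK f d) l M := rfl

theorem fK_id (d : ℕ) : fK (ContinuousMap.id ℝ) d = lap d := rfl

theorem lap_bound (d : ℕ) (k : UnitAddTorus (Fin d)) : |lap d k| ≤ 4 * d := by
  have h : ∀ i, |2 - 2 * (fourier 1 (k i)).re| ≤ (4 : ℝ) := by
    intro i
    have h1 : |(fourier 1 (k i)).re| ≤ 1 := by
      refine (Complex.abs_re_le_norm _).trans ?_
      rw [fourier_apply]
      exact (Circle.norm_coe _).le
    rw [abs_le] at h1 ⊢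
    constructor <;> linarith [h1.1, h1.2]
  change |∑ i, (2 - 2 * (fourier 1 (k i)).re)| ≤ _
  refine (Finset.abs_sum_le_sum_abs _ _).trans ?_
  refine (Finset.sum_le_sum fun i _ => h i).trans ?_
  simp [mul_comm]

/-- The invariant of a stage: a gap `σ` for the solutions. -/
def Gap (ν : Measure ℝ) [IsProbabilityMeasure ν] (d : ℕ) (ρ : Measure ℝ) (f : C(ℝ, ℝ)) (σ : ℝ) :
    Prop := ∀ z ∈ Zs d, ∀ s, IsFix ν ρ (wz (fK f d) z) s → ‖s‖ ≤ 1 - σ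

/-- The bound for the effective contraction. -/
def Ctr (ν : Measure ℝ) [IsProbabilityMeasure ν] (d : ℕ) (ρ : Measure ℝ) (f : C(ℝ, ℝ)) (q : ℝ) :
    Prop := ∀ z ∈ Zs d, ∀ s, IsFix ν ρ (wz (fK f d) z) s → ‖UU ρ (wz (fK f d) z) s‖ ≤ q

/-- Invariant of stage `n`. -/
def Inv (ν : Measure ℝ) [IsProbabilityMeasure ν] (d : ℕ) (ρ : ℕ → Measure ℝ) (σ : ℝ) (n : ℕ)
    (a : C(ℝ, ℝ) × ℝ) : Prop :=
  Gap ν d (ρ n) a.1 (σ * (1 / 2 + 1 / 2 ^ (n + 1))) ∧ 0 < a.2 ∧ a.2 ≤ 1 ∧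
    ∃ q : ℝ, 0 ≤ q ∧ q < 1 ∧ a.2 ≤ (1 - q ^ 2) / 8 ∧ Ctr ν d (ρ n) a.1 q

/-- Relation of two stages. -/
def Rel (ν : Measure ℝ) [IsProbabilityMeasure ν] (d : ℕ) (ψ : C(UnitAddCircle, ℝ))
    (l : ℕ → ℝ) (ρ : ℕ → Measure ℝ) (n : ℕ) (a b : C(ℝ, ℝ) × ℝ) : Prop :=
  (∃ M : ℕ, b.1 = nx ψ a.1 (l n) M) ∧ b.2 ≤ a.2 ∧ ∀ z ∈ Zs d, ∀ s s',
    IsFix ν (ρ n) (wz (fK a.1 d) z) s → IsFix ν (ρ (n + 1)) (wz (fK b.1 d) z) s' →
      ∫ v, ‖Zf (UU (ρ n) (wz (fK a.1 d) z) s) (fun x => cay (v x))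
        - Zf (UU (ρ (n + 1)) (wz (fK b.1 d) z) s') (fun x => cay (v x))‖ ∂(Pn ν (Fin d → ℤ))
        ≤ a.2 / (64 * 8 ^ n)

theorem step_inv (hU : S_UNI) (hS : S_STEP) {ν : Measure ℝ} [IsProbabilityMeasure ν] {d : ℕ}
    (hd : 0 < d) {ψ : C(UnitAddCircle, ℝ)} (hψ : IsSemi ψ) (hv : 0 < vr ν) {l : ℕ → ℝ}
    (hl : ∀ n, 0 < l n) {ρ : ℕ → Measure ℝ} (hρ1 : ∀ n, IsProbabilityMeasure (ρ n))
    (hρ2 : ∀ n, ρ n = (lev ψ (l n)).conv (ρ (n + 1))) {T : ℕ → ℝ}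
    (hρ3 : ∀ n, ρ n (Set.Icc (-(T n)) (T n))ᶜ = 0) (hρ4 : ∀ (n : ℕ) (a b : ℝ), ρ n {a, b} < 1)
    {σ : ℝ} (hσ : 0 < σ) (n : ℕ) (a : C(ℝ, ℝ) × ℝ) (ha : Inv ν d ρ σ n a) :
    ∃ b, Inv ν d ρ σ (n + 1) b ∧ Rel ν d ψ l ρ n a b := by
  obtain ⟨h1, h2, h2', -⟩ := ha
  have hσn : 0 < σ * (1 / 2 + 1 / 2 ^ (n + 1)) := by positivity
  have hσn' : 0 < σ * (1 / 2 + 1 / 2 ^ (n + 1 + 1)) := by positivity
  have := hρ1 n
  have := hρ1 (n + 1)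
  have hex := (hU ν d (ρ n) (T n) _ (fK a.1 d) hv (hρ3 n) (hρ4 n) hσn h1).1
  set e : ℝ := min (a.2 / (64 * 8 ^ n)) (σ / 2 ^ (n + 2)) with he
  have he0 : 0 < e := lt_min (by positivity) (by positivity)
  have h1' : ∀ z ∈ Zs d, ∀ s, IsFix ν ((lev ψ (l n)).conv (ρ (n + 1))) (wz (fK a.1 d) z) s →
      ‖s‖ ≤ 1 - σ * (1 / 2 + 1 / 2 ^ (n + 1)) := by
    rw [← hρ2 n]; exact h1
  obtain ⟨M, hM⟩ := hS ν d ψ (ρ (n + 1)) (T (n + 1)) _ (l n) (fK a.1 d) hd hψ hv (hρ3 (n + 1))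
    (hρ4 (n + 1)) (hl n) hσn h1' e he0
  have hM' := hM M le_rfl
  rw [← hρ2 n] at hM'
  have hgap : Gap ν d (ρ (n + 1)) (nx ψ a.1 (l n) M) (σ * (1 / 2 + 1 / 2 ^ (n + 1 + 1))) := by
    intro z hz s' hs'
    obtain ⟨s, hs, -⟩ := hex z hz
    have h3 := (hM' z hz s s' hs hs').1
    have h4 := h1 z hz s hs
    have h5 : ‖s'‖ ≤ ‖s‖ + ‖s - s'‖ := by
      have := norm_sub_le s (s - s')
      rwa [sub_sub_cancel] at this
    have h6 : e ≤ σ / 2 ^ (n + 2) := min_le_right _ _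
    have h7 : σ * (1 / 2 + 1 / 2 ^ (n + 1)) = σ * (1 / 2 + 1 / 2 ^ (n + 1 + 1)) + σ / 2 ^ (n + 2) := by
      field_simp
      ring
    linarith
  obtain ⟨q, hq0, hq1, hq2⟩ := (hU ν d (ρ (n + 1)) (T (n + 1)) _ (fK (nx ψ a.1 (l n) M) d) hv
    (hρ3 (n + 1)) (hρ4 (n + 1)) hσn' hgap).2.1
  have hq3 : 0 < (1 - q ^ 2) / 8 := by
    have : q ^ 2 < 1 := by nlinarith
    linarith
  refine ⟨(nx ψ a.1 (l n) M, min a.2 ((1 - q ^ 2) / 8)), ⟨hgap, lt_min h2 hq3,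
    (min_le_left _ _).trans h2', q, hq0, hq1, min_le_right _ _, hq2⟩, ⟨M, rfl⟩, min_le_left _ _, ?_⟩
  intro z hz s s' hs hs'
  exact (hM' z hz s s' hs hs').2.trans (min_le_left _ _)

end

end Pool.Agent.W792.WA.Ch
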