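import Pool.Agent.W792.WA.Stm3

/-!
Statements of the fourth part of the project WA: all kinetic energies.
-/

namespace Pool.Agent.W792.WA

open MeasureTheory Filter Pool.Agent.W792.LL
open scoped Topology

noncomputable section

/-- `S_J0` for any kinetic energy with range containing `[0, 4 d]`. -/
def S_J0K : Prop :=
  ∀ (ψ : C(UnitAddCircle, ℝ)), IsSemi ψ → ∀ (r : ℝ) (d : ℕ) (K : C(UnitAddTorus (Fin d), ℝ)),
    0 < r → 0 < d → (∀ E : ℝ, 0 ≤ E → E ≤ 4 * d → ∃ k, K k = E) →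
    ∃ J : ℝ, 0 < J ∧ ∀ (ρ' : Measure ℝ) [IsProbabilityMeasure ρ'],
      ρ' (Set.Icc (-(r / 8)) (r / 8))ᶜ = 0 → ∀ z ∈ Zs d, J ≤ jf ((lev ψ r).conv ρ') K z

/-- The normalized imaginary part of the Green function at `E + i η`. -/
def PfK {d : ℕ} (K : C(UnitAddTorus (Fin d), ℝ)) (η E : ℝ) (v : (Fin d → ℤ) → ℝ) : ℝ :=
  2 * (Zf (us (Measure.dirac 0) 1 ⟨E, η⟩ K) (fun x => cay (v x))).re - 1

/-- The mean estimates for a law. -/
def MestK {d : ℕ} (K : C(UnitAddTorus (Fin d), ℝ)) (ν : Measure ℝ) [IsProbabilityMeasure ν] :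
    Prop :=
  ∃ η p : ℕ → ℝ, (∀ n, 0 < η n ∧ η n ≤ 1) ∧
      Tendsto η atTop (𝓝 0) ∧ (∀ n, 0 < p n) ∧ Antitone p ∧
      ∀ (n : ℕ) (E : ℝ), 0 ≤ E → E ≤ 4 * d →
        ∫ v, |PfK K (η (n + 1)) E v - PfK K (η n) E v| ∂(Pn ν (Fin d → ℤ)) ≤ p n / 4 ^ n ∧
        (Pn ν (Fin d → ℤ) {v | PfK K (η n) E v < p n}).toReal ≤ 1 / 4 ^ n

/-- Spectral measures of the operator with symbol `K` and potential `lam v`, absolutely continuous
on `(a, b)` with a density positive almost everywhere there. -/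
def ACIK {d : ℕ} (K : C(UnitAddTorus (Fin d), ℝ)) (lam : ℝ) (v : (Fin d → ℤ) → ℝ) (a b : ℝ) :
    Prop :=
  ∀ x : Fin d → ℤ, ∃ (μ : Measure ℝ) (h : ℝ → ℝ), IsFiniteMeasure μ ∧
    (∀ z : ℂ, 0 < z.im → (∃ w, Sol (hopK K) lam v z x w) ∧
      ∀ w, Sol (hopK K) lam v z x w → w x = ∫ E : ℝ, 1 / ((E : ℂ) - z) ∂μ) ∧
    Measurable h ∧ (∀ᵐ E ∂(volume.restrict (Set.Ioo a b)), 0 < h E) ∧
    μ.restrict (Set.Ioo a b)
      = (volume.restrict (Set.Ioo a b)).withDensity fun E => ENNReal.ofReal (h E)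

/-- From the mean estimates to spectral measures. -/
def S_AEQK : Prop :=
  ∀ (d : ℕ) (ν : Measure ℝ) [IsProbabilityMeasure ν] (lam : ℝ) (K : C(UnitAddTorus (Fin d), ℝ))
    [IsProbabilityMeasure (ν.map fun x => lam * x)], 0 < d → 0 < lam →
    MestK K (ν.map fun x => lam * x) → ∀ᵐ v ∂(Pn ν (Fin d → ℤ)), ACIK K lam v 0 (4 * d)

/-- A function of the Laplacian as a symbol. -/
def gK (g : C(ℝ, ℝ)) (d : ℕ) : C(UnitAddTorus (Fin d), ℝ) := g.comp (lap d)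

/-- Normalized form of the theorem for all kinetic energies. -/
def S_KN : Prop :=
  ∀ (d : ℕ) (K : C(UnitAddTorus (Fin d), ℝ)) (ε : ℝ), 0 < d → 0 < ε →
    (∀ E : ℝ, 0 ≤ E → E ≤ 4 * d → ∃ k, K k = E) →
    ∃ g : C(ℝ, ℝ), (∀ t, |g t| ≤ ε) ∧
    ∀ (ν : Measure ℝ) [IsProbabilityMeasure ν], Integrable (fun x : ℝ => x ^ 60) ν →
    (∀ a : ℝ, ν {a} < 1) → ∃ lam₀ : ℝ, 0 < lam₀ ∧ ∀ lam : ℝ, 0 < lam → lam ≤ lam₀ →
      ∀ᵐ v ∂(Pn ν (Fin d → ℤ)), ACIK (K + gK g d) lam v 0 (4 * d)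

/-- Affine change of the energy. -/
def S_AFF : Prop :=
  ∀ (d : ℕ) (K : C(UnitAddTorus (Fin d), ℝ)) (α m lam a b : ℝ) (v : (Fin d → ℤ) → ℝ), 0 < α →
    ACIK (α • (K - ContinuousMap.const _ m)) (α * lam) v a b →
    ACIK K lam v (m + a / α) (m + b / α)

/-- The theorem for all kinetic energies: the operators for which weak disorder gives absolutely
continuous spectrum in the whole band are dense. -/
def S_KFIN : Prop :=
  ∀ (d : ℕ) (K : C(UnitAddTorus (Fin d), ℝ)) (ε : ℝ), 0 < d → 0 < ε →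
    (⨅ k, K k) < (⨆ k, K k) →
    ∃ g : C(ℝ, ℝ), (∀ t, |g t| ≤ ε) ∧
    ∀ (ν : Measure ℝ) [IsProbabilityMeasure ν], Integrable (fun x : ℝ => x ^ 60) ν →
    (∀ a : ℝ, ν {a} < 1) → ∃ lam₀ : ℝ, 0 < lam₀ ∧ ∀ lam : ℝ, 0 < lam → lam ≤ lam₀ →
      ∀ᵐ v ∂(Pn ν (Fin d → ℤ)), ACIK (K + gK g d) lam v (⨅ k, K k) (⨆ k, K k)

end

end Pool.Agent.W792.WA
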