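import Pool.Agent.W792.WA.G10

/-!
All kinetic energies: construction.
-/

namespace Pool.Agent.W792.WA.ChK

open MeasureTheory Filter Pool.Agent.W792.LL Pool.Agent.W792.WA Pool.Agent.W792.WA.Ch
open scoped Topology

noncomputable section

/-- A sequence of levels. -/
structure LvK (ψ : C(UnitAddCircle, ℝ)) where
  /-- levels -/
  l : ℕ → ℝ
  /-- tails -/
  T : ℕ → ℝ
  /-- kinetic energies -/
  f : ℕ → C(ℝ, ℝ)
  /-- frequencies -/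
  M : ℕ → ℕ
  hψ : ∀ t, |ψ t| ≤ 1
  hl : ∀ n, 0 < l n
  hT : ∀ n, l n + T (n + 1) ≤ T n
  hTp : ∀ n, 0 ≤ T n
  f0 : f 0 = 0
  fs : ∀ n, f (n + 1) = nx ψ (f n) (l n) (M n)

namespace LvK

variable {ψ : C(UnitAddCircle, ℝ)} (D : LvK ψ)

theorem fs_apply (n : ℕ) (t : ℝ) : D.f (n + 1) t
    = D.f n t + D.l n * ψ ((D.M n * t / (2 * Real.pi) : ℝ) : UnitAddCircle) := by
  rw [D.fs n]; rfl

theorem term_le (n : ℕ) (t : UnitAddCircle) : |D.l n * ψ t| ≤ D.l n := by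
  rw [abs_mul, abs_of_pos (D.hl n)]
  exact mul_le_of_le_one_right (D.hl n).le (D.hψ t)

theorem T_anti : Antitone D.T :=
  antitone_nat_of_succ_le fun n => by linarith [D.hT n, D.hl n]

theorem sum_l (n m : ℕ) : ∑ j ∈ Finset.range m, D.l (n + j) ≤ D.T n - D.T (n + m) := by
  induction m with
  | zero => simp
  | succ m ih =>
    rw [Finset.sum_range_succ]
    have := D.hT (n + m)
    have e : n + (m + 1) = n + m + 1 := by omega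
    rw [e]
    linarith

theorem summable_l : Summable D.l := by
  refine summable_of_sum_range_le (c := D.T 0) (fun n => (D.hl n).le) fun m => ?_
  have h1 := D.sum_l 0 m
  have h2 := D.hTp (0 + m)
  simp only [zero_add] at h1 h2
  linarith

theorem f_eq (n : ℕ) (t : ℝ) : D.f n t = ∑ j ∈ Finset.range n,
    D.l j * ψ ((D.M j * t / (2 * Real.pi) : ℝ) : UnitAddCircle) := by
  induction n with
  | zero => rw [D.f0]; simp
  | succ n ih => rw [D.fs_apply, ih, Finset.sum_range_succ]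

theorem f_diff (n m : ℕ) (t : ℝ) : |D.f (n + m) t - D.f n t| ≤ D.T n := by
  have h : |D.f (n + m) t - D.f n t| ≤ ∑ j ∈ Finset.range m, D.l (n + j) := by
    induction m with
    | zero => simp
    | succ m ih =>
      have e : n + (m + 1) = n + m + 1 := by omega
      rw [e, D.fs_apply, Finset.sum_range_succ]
      have h1 := D.term_le (n + m) ((D.M (n + m) * t / (2 * Real.pi) : ℝ) : UnitAddCircle)
      calc _ = |(D.f (n + m) t - D.f n t)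
            + D.l (n + m) * ψ ((D.M (n + m) * t / (2 * Real.pi) : ℝ) : UnitAddCircle)| := by
              congr 1; ring
        _ ≤ _ := abs_add_le _ _
        _ ≤ _ := add_le_add ih h1
  have h1 := D.sum_l n m
  have h2 := D.hTp (n + m)
  linarith

/-- The limit function. -/
def fI : C(ℝ, ℝ) where
  toFun t := ∑' j, D.l j * ψ ((D.M j * t / (2 * Real.pi) : ℝ) : UnitAddCircle)
  continuous_toFun := by
    refine continuous_tsum (u := D.l) (fun j => ?_) D.summable_l ?_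
    · have h : Continuous fun t : ℝ => ((D.M j * t / (2 * Real.pi) : ℝ) : UnitAddCircle) :=
        (AddCircle.continuous_mk' (1 : ℝ)).comp (by fun_prop)
      exact continuous_const.mul (ψ.continuous.comp h)
    · intro j t
      exact D.term_le j _

theorem f_tendsto (t : ℝ) : Tendsto (fun n => D.f n t) atTop (𝓝 (D.fI t)) := by
  have h1 : Summable fun j => D.l j * ψ ((D.M j * t / (2 * Real.pi) : ℝ) : UnitAddCircle) :=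
    Summable.of_norm_bounded D.summable_l fun j => D.term_le j _
  refine h1.hasSum.tendsto_sum_nat.congr fun n => ?_
  rw [D.f_eq]

theorem fI_diff (n : ℕ) (t : ℝ) : |D.fI t - D.f n t| ≤ D.T n := by
  have h1 : Tendsto (fun m => |D.f (n + m) t - D.f n t|) atTop (𝓝 |D.fI t - D.f n t|) := by
    have h2 := (D.f_tendsto t).comp (tendsto_add_atTop_nat n)
    have h3 : Tendsto (fun m => D.f (n + m) t) atTop (𝓝 (D.fI t)) := by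
      refine h2.congr fun m => ?_
      simp [Function.comp, add_comm]
    exact (h3.sub_const _).abs
  exact le_of_tendsto' h1 fun m => D.f_diff n m t

theorem fI_id (t : ℝ) : |D.fI t| ≤ D.T 0 := by
  have := D.fI_diff 0 t
  rw [D.f0] at this
  simpa using this

theorem f_id (n : ℕ) (t : ℝ) : |D.f n t| ≤ D.T 0 := by
  have := D.f_diff 0 n t
  rw [zero_add, D.f0] at this
  simpa using this

end LvK

/-- Invariant of stage `n`. -/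
def Inv3 {d : ℕ} (K : C(UnitAddTorus (Fin d), ℝ)) (ρ : ℕ → Measure ℝ) (T : ℕ → ℝ) (J : ℝ) (δ se : ℕ → ℝ) (n : ℕ)
    (a : C(ℝ, ℝ) × ℝ) : Prop :=
  (∀ t, |a.1 t| ≤ T 0 - T n) ∧
  (∀ j ≤ n, ∀ X ∈ En2 δ j, GapK (qlaw X) (ρ n) (kg K a.1) (se j * (1 / 2 + 1 / 2 ^ (n + 1)))) ∧
  (∀ z ∈ Zs d, J * (1 / 2 + 1 / 2 ^ (n + 1)) ≤ jf (ρ n) (kg K a.1) z) ∧ 0 < a.2 ∧
  ∃ q : ℝ, 0 ≤ q ∧ q < 1 ∧ a.2 ≤ (1 - q ^ 2) / 8 ∧ ∀ X ∈ Xn2 δ n, CtrK (qlaw X) (ρ n) (kg K a.1) q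

/-- Relation of two stages. -/
def Rel3 {d : ℕ} (K : C(UnitAddTorus (Fin d), ℝ)) (ψ : C(UnitAddCircle, ℝ)) (l : ℕ → ℝ) (ρ : ℕ → Measure ℝ) (δ : ℕ → ℝ) (n : ℕ)
    (a b : C(ℝ, ℝ) × ℝ) : Prop :=
  (∃ M : ℕ, b.1 = nx ψ a.1 (l n) M) ∧ b.2 ≤ a.2 ∧ ∀ X ∈ Xn2 δ n, ∀ z ∈ Zs d, ∀ s s',
    IsFix (qlaw X) (ρ n) (wz (kg K a.1) z) s →
    IsFix (qlaw X) (ρ (n + 1)) (wz (kg K b.1) z) s' →
      ∫ v, ‖Zf (UU (ρ n) (wz (kg K a.1) z) s) (fun x => cay (v x))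
        - Zf (UU (ρ (n + 1)) (wz (kg K b.1) z) s') (fun x => cay (v x))‖
          ∂(Pn (qlaw X) (Fin d → ℤ)) ≤ a.2 / (64 * 8 ^ n)

/-- Data fixed in advance. -/
structure Pr3 {d : ℕ} (K : C(UnitAddTorus (Fin d), ℝ)) (ψ : C(UnitAddCircle, ℝ)) where
  /-- levels -/
  l : ℕ → ℝ
  /-- laws of the future levels -/
  ρ : ℕ → Measure ℝ
  /-- tails -/
  T : ℕ → ℝ
  /-- lower bound -/
  J : ℝ
  /-- sizes -/
  δ : ℕ → ℝ
  /-- constants -/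
  c : ℕ → ℝ
  /-- bound -/
  B : ℝ
  hψ : ∀ t, |ψ t| ≤ 1
  hl : ∀ n, 0 < l n
  hT : ∀ n, l n + T (n + 1) ≤ T n
  hTp : ∀ n, 0 ≤ T n
  hB : ‖K‖ + 4 * d + T 0 + 1 ≤ B
  hρ1 : ∀ n, IsProbabilityMeasure (ρ n)
  hρ2 : ∀ n, ρ n = (lev ψ (l n)).conv (ρ (n + 1))
  hρ3 : ∀ n, ρ n (Set.Icc (-(T n)) (T n))ᶜ = 0
  hρ4 : ∀ (n : ℕ) (a b : ℝ), ρ n {a, b} < 1
  hJ : 0 < J
  hJ0 : ∀ z ∈ Zs d, J ≤ jf (ρ 0) K z
  hδ : ∀ n, 0 < δ n
  hδa : Antitone δ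
  hc : ∀ n, 0 < c n
  hbase : ∀ (n : ℕ) (X X' : MX) (δ' : ℝ), 0 < δ' → δ' ≤ δ n → X' ∈ Bd δ' →
    cd X X' ≤ (δ' ^ 14) ^ 2 → 1 / ((n : ℝ) + 1) * δ' ^ 3 ≤ vr (qlaw X') →
    ∀ (K' : C(UnitAddTorus (Fin d), ℝ)) (z : ℂ), ‖K'‖ ≤ B → ‖z‖ ≤ B →
    0 < z.im → J / 2 ≤ jf (ρ n) K' z → ∀ s : C(UnitAddTorus (Fin d), ℂ),
    IsFix (qlaw X) (ρ n) (wz K' z) s → ‖s‖ ≤ 1 - c n * δ' ^ 3

namespace Pr3

variable {d : ℕ} {K : C(UnitAddTorus (Fin d), ℝ)} {ψ : C(UnitAddCircle, ℝ)} (D : Pr3 K ψ)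

/-- Gaps at the entry. -/
def se (n : ℕ) : ℝ := D.c n * D.δ (n + 1) ^ 3

theorem se_pos (n : ℕ) : 0 < D.se n := by
  have := D.hc n
  have := D.hδ (n + 1)
  unfold se; positivity

theorem K_le {f : C(ℝ, ℝ)} {n : ℕ} (hf : ∀ t, |f t| ≤ D.T 0 - D.T n) : ‖kg K f‖ ≤ D.B := by
  have hB := D.hB
  have hT := D.hTp n
  have hd : (0 : ℝ) ≤ d := by positivity
  have := kg_le K hf
  linarith

theorem z_le {z : ℂ} (hz : z ∈ Zs d) : ‖z‖ ≤ D.B := by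
  obtain ⟨h1, h2, h3, h4⟩ := hz
  have hB := D.hB
  have hT0 := D.hTp 0
  have hK0 := norm_nonneg K
  refine (Complex.norm_le_abs_re_add_abs_im z).trans ?_
  rw [abs_of_nonneg h1, abs_of_pos h3]
  linarith

theorem entry (n : ℕ) {f : C(ℝ, ℝ)} (hf : ∀ t, |f t| ≤ D.T 0 - D.T n)
    (hK : ∀ z ∈ Zs d, D.J / 2 ≤ jf (D.ρ n) (kg K f) z) {X : MX} (hX : X ∈ En2 D.δ n) :
    ∀ z ∈ Zs d, ∀ s, IsFix (qlaw X) (D.ρ n) (wz (kg K f) z) s →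
      ‖s‖ ≤ 1 - D.se n * (1 / 2 + 1 / 2 ^ (n + 1)) := by
  intro z hz s hs
  obtain ⟨-, -, δ', h1, h2, X', h3, h3', h4⟩ := hX
  have h5 := D.hδ (n + 1)
  have h6 := D.hbase n X X' δ' (by linarith) h2 h3 h3' h4 (kg K f) z (D.K_le hf) (D.z_le hz)
    hz.2.2.1 (hK z hz) s hs
  have h7 : D.se n ≤ D.c n * δ' ^ 3 := by
    have := D.hc n
    unfold se
    gcongr
  have h8 : D.se n * (1 / 2 + 1 / 2 ^ (n + 1)) ≤ D.se n * 1 := by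
    have h9 : (1 : ℝ) / 2 ^ (n + 1) ≤ 1 / 2 := by
      apply one_div_le_one_div_of_le (by norm_num)
      rw [pow_succ]
      have : (1 : ℝ) ≤ 2 ^ n := one_le_pow₀ (by norm_num)
      linarith
    have := D.se_pos n
    gcongr
    linarith
  linarith

/-- Uniform gap. -/
theorem ugap {n : ℕ} {f : C(ℝ, ℝ)}
    (h : ∀ j ≤ n, ∀ X ∈ En2 D.δ j, GapK (qlaw X) (D.ρ n) (kg K f) (D.se j * (1 / 2 + 1 / 2 ^ (n + 1)))) :
    ∃ σ : ℝ, 0 < σ ∧ (∀ j ≤ n, σ ≤ D.se j / 2) ∧ ∀ X ∈ Xn2 D.δ n, GapK (qlaw X) (D.ρ n) (kg K f) σ := by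
  obtain ⟨σ, h1, h2⟩ := exists_lb (fun j => D.se j / 2) (fun j => by
    have := D.se_pos j
    positivity) n
  refine ⟨σ, h1, h2, ?_⟩
  rintro X ⟨j, hj, hX⟩ z hz s hs
  have h3 := h j hj X hX z hz s hs
  have h4 := h2 j hj
  have h5 : 0 < D.se j * (1 / 2 ^ (n + 1)) := by
    have := D.se_pos j
    positivity
  linarith

theorem ctr (hU2 : S_UNI2) {n : ℕ} {f : C(ℝ, ℝ)}
    (h : ∀ j ≤ n, ∀ X ∈ En2 D.δ j, GapK (qlaw X) (D.ρ n) (kg K f) (D.se j * (1 / 2 + 1 / 2 ^ (n + 1)))) :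
    ∃ q : ℝ, 0 ≤ q ∧ q < 1 ∧ ∀ X ∈ Xn2 D.δ n, CtrK (qlaw X) (D.ρ n) (kg K f) q := by
  obtain ⟨σ, h1, -, h2⟩ := D.ugap h
  have := D.hρ1 n
  obtain ⟨q, h3, h4, h5⟩ := (hU2 d (D.ρ n) (D.T n) σ (kg K f) (D.hρ3 n) (D.hρ4 n) h1).1
  exact ⟨q, h3, h4, fun X hX => (h5 (qlaw X) (Xn2_vr hX) (h2 X hX)).2⟩

theorem init (hU2 : S_UNI2) : ∃ a, Inv3 K D.ρ D.T D.J D.δ D.se 0 a ∧ (0 = 0 → a.1 = 0) := by
  have h0 : ∀ j ≤ 0, ∀ X ∈ En2 D.δ j, GapK (qlaw X) (D.ρ 0) (kg K 0)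
      (D.se j * (1 / 2 + 1 / 2 ^ (0 + 1))) := by
    intro j hj X hX
    obtain rfl := Nat.le_zero.1 hj
    refine D.entry 0 (fun t => by simp) (fun z hz => ?_) hX
    rw [kg_zero]
    have := D.hJ0 z hz
    have := D.hJ
    linarith
  obtain ⟨q, hq0, hq1, hq2⟩ := D.ctr hU2 h0
  have hq3 : 0 < (1 - q ^ 2) / 8 := by
    have : q ^ 2 < 1 := by nlinarith
    linarith
  refine ⟨(0, (1 - q ^ 2) / 8), ⟨fun t => by simp, h0, fun z hz => ?_, hq3, q, hq0, hq1, le_rfl,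
    hq2⟩, fun _ => rfl⟩
  have e : D.J * (1 / 2 + 1 / 2 ^ (0 + 1)) = D.J := by ring
  rw [e]
  change D.J ≤ jf (D.ρ 0) (kg K 0) z
  rw [kg_zero]
  exact D.hJ0 z hz

theorem step (hU2 : S_UNI2) (hS2 : S_STEP2) (hJS : S_JSTEP) (hN : S_NETX2) (hd : 0 < d)
    (hψ : IsSemi ψ) (n : ℕ) (a : C(ℝ, ℝ) × ℝ) (ha : Inv3 K D.ρ D.T D.J D.δ D.se n a) :
    ∃ b, Inv3 K D.ρ D.T D.J D.δ D.se (n + 1) b ∧ Rel3 K ψ D.l D.ρ D.δ n a b := by
  obtain ⟨h0, h1, h2, h3, -⟩ := ha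
  obtain ⟨σ, hσ, hσ1, hσ2⟩ := D.ugap h1
  have i0 := D.hρ1 n
  have i1 := D.hρ1 (n + 1)
  have i2 := D.hρ1 (n + 1 + 1)
  have hJ := D.hJ
  set e : ℝ := min (a.2 / (64 * 8 ^ n)) (σ / 2 ^ (n + 1)) with he
  have he0 : 0 < e := lt_min (by positivity) (by positivity)
  have hσ2' : ∀ X ∈ Xn2 D.δ n, ∀ z ∈ Zs d, ∀ s,
      IsFix (qlaw X) ((lev ψ (D.l n)).conv (D.ρ (n + 1))) (wz (kg K a.1) z) s → ‖s‖ ≤ 1 - σ := by
    rw [← D.hρ2 n]; exact hσ2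
  obtain ⟨M₁, hM₁⟩ := hS2 d ψ (D.ρ (n + 1)) (D.T (n + 1)) σ (D.l n) (kg K a.1) (Xn2 D.δ n) hd hψ
    (fun X hX => Xn2_vr hX) (Xn2_TB hN n) (D.hρ3 (n + 1)) (D.hρ4 (n + 1)) (D.hl n)
    hσ hσ2' e he0
  obtain ⟨M₂, hM₂⟩ := hJS ψ hψ d (kg K a.1) (D.l n) (D.l (n + 1)) (D.T (n + 1 + 1))
    (D.ρ (n + 1 + 1)) hd (D.hl n) (D.hl (n + 1)) (D.hρ3 _) (D.J / 2 ^ (n + 2)) (by positivity)
  have hM1 := hM₁ (max M₁ M₂) (le_max_left _ _)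
  have hM2 := hM₂ (max M₁ M₂) (le_max_right _ _)
  rw [← D.hρ2 n] at hM1
  rw [← D.hρ2 (n + 1), ← D.hρ2 n] at hM2
  set M := max M₁ M₂ with hM
  rw [← kg_nx] at hM1
  have hjf : ∀ z ∈ Zs d, D.J * (1 / 2 + 1 / 2 ^ (n + 1 + 1))
      ≤ jf (D.ρ (n + 1)) (kg K (nx ψ a.1 (D.l n) M)) z := by
    intro z hz
    have h4 := h2 z hz
    have h5 := hM2 z hz
    rw [kg_nx]
    have h6 : D.J * (1 / 2 + 1 / 2 ^ (n + 1)) = D.J * (1 / 2 + 1 / 2 ^ (n + 1 + 1))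
        + D.J / 2 ^ (n + 2) := by
      field_simp
      ring
    linarith
  have hid : ∀ t, |nx ψ a.1 (D.l n) M t| ≤ D.T 0 - D.T (n + 1) := by
    intro t
    have h4 := h0 t
    have h5 := D.hT n
    have h6 : |D.l n * ψ ((M * t / (2 * Real.pi) : ℝ) : UnitAddCircle)| ≤ D.l n := by
      rw [abs_mul, abs_of_pos (D.hl n)]
      exact mul_le_of_le_one_right (D.hl n).le (D.hψ _)
    change |a.1 t + D.l n * ψ _| ≤ _
    refine (abs_add_le _ _).trans ?_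
    linarith
  have hgap : ∀ j ≤ n + 1, ∀ X ∈ En2 D.δ j, GapK (qlaw X) (D.ρ (n + 1))
      (kg K (nx ψ a.1 (D.l n) M)) (D.se j * (1 / 2 + 1 / 2 ^ (n + 1 + 1))) := by
    intro j hj X hX
    rcases Nat.lt_or_ge n j with h | h
    · obtain rfl : j = n + 1 := by omega
      refine D.entry (n + 1) hid (fun z hz => ?_) hX
      refine le_trans ?_ (hjf z hz)
      have : 0 < D.J * (1 / 2 ^ (n + 1 + 1)) := by positivity
      linarith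
    · intro z hz s' hs'
      have hXn : X ∈ Xn2 D.δ n := ⟨j, h, hX⟩
      have hex := ((hU2 d (D.ρ n) (D.T n) σ (kg K a.1) (D.hρ3 n) (D.hρ4 n) hσ).1.choose_spec.2.2
        (qlaw X) (Xn2_vr hXn) (hσ2 X hXn)).1 z hz
      obtain ⟨s, hs, -⟩ := hex
      have h4 := (hM1 X hXn z hz s s' hs hs').1
      have h5 := h1 j h X hX z hz s hs
      have h6 : ‖s'‖ ≤ ‖s‖ + ‖s - s'‖ := by
        have := norm_sub_le s (s - s')
        rwa [sub_sub_cancel] at this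
      have h7 : e ≤ σ / 2 ^ (n + 1) := min_le_right _ _
      have h8 : σ / 2 ^ (n + 1) ≤ D.se j / 2 / 2 ^ (n + 1) := by
        have := hσ1 j h
        gcongr
      have h9 : D.se j * (1 / 2 + 1 / 2 ^ (n + 1)) = D.se j * (1 / 2 + 1 / 2 ^ (n + 1 + 1))
          + D.se j / 2 / 2 ^ (n + 1) := by
        field_simp
        ring
      linarith
  obtain ⟨q, hq0, hq1, hq2⟩ := D.ctr hU2 hgap
  have hq3 : 0 < (1 - q ^ 2) / 8 := by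
    have : q ^ 2 < 1 := by nlinarith
    linarith
  refine ⟨(nx ψ a.1 (D.l n) M, min a.2 ((1 - q ^ 2) / 8)), ⟨hid, hgap, hjf, lt_min h3 hq3,
    q, hq0, hq1, min_le_right _ _, hq2⟩, ⟨M, rfl⟩, min_le_left _ _, ?_⟩
  intro X hX z hz s s' hs hs'
  exact (hM1 X hX z hz s s' hs hs').2.trans (min_le_left _ _)

end Pr3

end

end Pool.Agent.W792.WA.ChK
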