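import Pool.Agent.W792.WA.G12
import Pool.Agent.W792.WA.Stm5

/-!
Arbitrary disorder: the chain of the small levels.
-/

namespace Pool.Agent.W792.WA.ChN

open MeasureTheory Filter Pool.Agent.W792.LL Pool.Agent.W792.WA Pool.Agent.W792.WA.Ch
  Pool.Agent.W792.WA.ChK
open scoped Topology

noncomputable section

/-- Invariant of stage `n`. -/
def Inv4 {d : ℕ} (K : C(UnitAddTorus (Fin d), ℝ)) (𝓧 : Set MX) (ρ : ℕ → Measure ℝ) (σ : ℝ)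
    (n : ℕ) (a : C(ℝ, ℝ) × ℝ) : Prop :=
  (∀ X ∈ 𝓧, GapK (qlaw X) (ρ n) (kg K a.1) (σ * (1 / 2 + 1 / 2 ^ (n + 1)))) ∧ 0 < a.2 ∧
  ∃ q : ℝ, 0 ≤ q ∧ q < 1 ∧ a.2 ≤ (1 - q ^ 2) / 8 ∧ ∀ X ∈ 𝓧, CtrK (qlaw X) (ρ n) (kg K a.1) q

/-- Relation of two stages. -/
def Rel4 {d : ℕ} (K : C(UnitAddTorus (Fin d), ℝ)) (ψ : C(UnitAddCircle, ℝ)) (l : ℕ → ℝ)
    (𝓧 : Set MX) (ρ : ℕ → Measure ℝ) (n : ℕ) (a b : C(ℝ, ℝ) × ℝ) : Prop :=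
  (∃ M : ℕ, b.1 = nx ψ a.1 (l n) M) ∧ b.2 ≤ a.2 ∧ ∀ X ∈ 𝓧, ∀ z ∈ Zs d, ∀ s s',
    IsFix (qlaw X) (ρ n) (wz (kg K a.1) z) s →
    IsFix (qlaw X) (ρ (n + 1)) (wz (kg K b.1) z) s' →
      ∫ v, ‖Zf (UU (ρ n) (wz (kg K a.1) z) s) (fun x => cay (v x))
        - Zf (UU (ρ (n + 1)) (wz (kg K b.1) z) s') (fun x => cay (v x))‖
          ∂(Pn (qlaw X) (Fin d → ℤ)) ≤ a.2 / (64 * 8 ^ n)

/-- Data fixed in advance. -/
structure Pr4 (d : ℕ) (𝓧 : Set MX) (ψ : C(UnitAddCircle, ℝ)) where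
  /-- levels -/
  l : ℕ → ℝ
  /-- laws of the future levels -/
  ρ : ℕ → Measure ℝ
  /-- tails -/
  T : ℕ → ℝ
  hψ : ∀ t, |ψ t| ≤ 1
  hl : ∀ n, 0 < l n
  hT : ∀ n, l n + T (n + 1) ≤ T n
  hTp : ∀ n, 0 ≤ T n
  hρ1 : ∀ n, IsProbabilityMeasure (ρ n)
  hρ2 : ∀ n, ρ n = (lev ψ (l n)).conv (ρ (n + 1))
  hρ3 : ∀ n, ρ n (Set.Icc (-(T n)) (T n))ᶜ = 0
  hρ4 : ∀ (n : ℕ) (a b : ℝ), ρ n {a, b} < 1
  hv : ∀ X ∈ 𝓧, 0 < vr (qlaw X)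
  hTB : TB 𝓧

theorem exists_Pr4 (hF : S_FUT) {d : ℕ} {ψ : C(UnitAddCircle, ℝ)} (hψ : IsSemi ψ) {𝓧 : Set MX}
    (hv : ∀ X ∈ 𝓧, 0 < vr (qlaw X)) (hTB : TB 𝓧) {r : ℝ} (hr : 0 < r) :
    ∃ D : Pr4 d 𝓧 ψ, D.T = (fun n => 2 * r * (1 / 16) ^ n) := by
  set l : ℕ → ℝ := fun n => r * (1 / 16) ^ n with hl
  set T : ℕ → ℝ := fun n => 2 * r * (1 / 16) ^ n with hT
  have hl0 : ∀ n, 0 < l n := fun n => by simp only [hl]; positivity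
  have hsum : Summable l :=
    (summable_geometric_of_lt_one (by norm_num) (by norm_num)).mul_left r
  obtain ⟨ρ, hρ1, hρ2, hρ3, hρ4⟩ := hF ψ hψ l hl0 hsum
  have htail : ∀ n, ∑' j, l (n + j) ≤ T n := by
    intro n
    have h1 : ∀ j, l (n + j) = (r * (1 / 16) ^ n) * (1 / 16) ^ j := by
      intro j; simp only [hl]; rw [pow_add]; ring
    simp only [h1]
    rw [tsum_mul_left, tsum_geometric_of_lt_one (by norm_num) (by norm_num)]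
    have h2 : 0 < r * (1 / 16 : ℝ) ^ n := by positivity
    simp only [hT]
    have h3 : ((1 : ℝ) - 1 / 16)⁻¹ ≤ 2 := by norm_num
    calc r * (1 / 16 : ℝ) ^ n * (1 - 1 / 16)⁻¹ ≤ r * (1 / 16 : ℝ) ^ n * 2 := by gcongr
      _ = 2 * r * (1 / 16) ^ n := by ring
  have hρ3' : ∀ n, ρ n (Set.Icc (-(T n)) (T n))ᶜ = 0 := by
    intro n
    refine measure_mono_null (Set.compl_subset_compl.2 ?_) (hρ3 n)
    have := htail n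
    exact Set.Icc_subset_Icc (by linarith) this
  refine ⟨{
    l := l, ρ := ρ, T := T
    hψ := hψ.bound
    hl := hl0
    hT := fun n => ?_
    hTp := fun n => by simp only [hT]; positivity
    hρ1 := hρ1
    hρ2 := hρ2
    hρ3 := hρ3'
    hρ4 := hρ4
    hv := hv
    hTB := hTB }, rfl⟩
  simp only [hT, hl]
  rw [pow_succ]
  have : 0 < r * (1 / 16 : ℝ) ^ n := by positivity
  linarith

namespace Pr4

variable {d : ℕ} {𝓧 : Set MX} {ψ : C(UnitAddCircle, ℝ)} (D : Pr4 d 𝓧 ψ)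

theorem ctr (hU2 : S_UNI2) {K : C(UnitAddTorus (Fin d), ℝ)} {σ : ℝ} (hσ : 0 < σ) {n : ℕ}
    (h : ∀ X ∈ 𝓧, GapK (qlaw X) (D.ρ n) K σ) :
    ∃ q : ℝ, 0 ≤ q ∧ q < 1 ∧ ∀ X ∈ 𝓧, CtrK (qlaw X) (D.ρ n) K q := by
  have := D.hρ1 n
  obtain ⟨q, h3, h4, h5⟩ := (hU2 d (D.ρ n) (D.T n) σ K (D.hρ3 n) (D.hρ4 n) hσ).1
  exact ⟨q, h3, h4, fun X hX => (h5 (qlaw X) (D.hv X hX) (h X hX)).2⟩

theorem init (hU2 : S_UNI2) {K : C(UnitAddTorus (Fin d), ℝ)} {σ : ℝ} (hσ : 0 < σ)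
    (h : ∀ X ∈ 𝓧, GapK (qlaw X) (D.ρ 0) K σ) :
    ∃ a, Inv4 K 𝓧 D.ρ σ 0 a ∧ (0 = 0 → a.1 = 0) := by
  obtain ⟨q, hq0, hq1, hq2⟩ := D.ctr hU2 hσ h
  have hq3 : 0 < (1 - q ^ 2) / 8 := by
    have : q ^ 2 < 1 := by nlinarith
    linarith
  refine ⟨(0, (1 - q ^ 2) / 8), ⟨?_, hq3, q, hq0, hq1, le_rfl, ?_⟩, fun _ => rfl⟩
  · intro X hX
    change GapK (qlaw X) (D.ρ 0) (kg K 0) _
    rw [kg_zero]
    have e : σ * (1 / 2 + 1 / 2 ^ (0 + 1)) = σ := by ring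
    rw [e]
    exact h X hX
  · intro X hX
    change CtrK (qlaw X) (D.ρ 0) (kg K 0) _
    rw [kg_zero]
    exact hq2 X hX

theorem step (hU2 : S_UNI2) (hS2 : S_STEP2) (hd : 0 < d) (hψ : IsSemi ψ)
    {K : C(UnitAddTorus (Fin d), ℝ)} {σ : ℝ} (hσ : 0 < σ) (n : ℕ) (a : C(ℝ, ℝ) × ℝ)
    (ha : Inv4 K 𝓧 D.ρ σ n a) :
    ∃ b, Inv4 K 𝓧 D.ρ σ (n + 1) b ∧ Rel4 K ψ D.l 𝓧 D.ρ n a b := by
  obtain ⟨h1, h3, -⟩ := ha
  have i0 := D.hρ1 n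
  have i1 := D.hρ1 (n + 1)
  have hσn : 0 < σ * (1 / 2 + 1 / 2 ^ (n + 1)) := by positivity
  set e : ℝ := min (a.2 / (64 * 8 ^ n)) (σ / 2 ^ (n + 2)) with he
  have he0 : 0 < e := lt_min (by positivity) (by positivity)
  have h1' : ∀ X ∈ 𝓧, ∀ z ∈ Zs d, ∀ s,
      IsFix (qlaw X) ((lev ψ (D.l n)).conv (D.ρ (n + 1))) (wz (kg K a.1) z) s →
        ‖s‖ ≤ 1 - σ * (1 / 2 + 1 / 2 ^ (n + 1)) := by
    rw [← D.hρ2 n]; exact h1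
  obtain ⟨M, hM⟩ := hS2 d ψ (D.ρ (n + 1)) (D.T (n + 1)) _ (D.l n) (kg K a.1) 𝓧 hd hψ
    D.hv D.hTB (D.hρ3 (n + 1)) (D.hρ4 (n + 1)) (D.hl n) hσn h1' e he0
  have hM1 := hM M le_rfl
  rw [← D.hρ2 n, ← kg_nx] at hM1
  have hgap : ∀ X ∈ 𝓧, GapK (qlaw X) (D.ρ (n + 1))
      (kg K (nx ψ a.1 (D.l n) M)) (σ * (1 / 2 + 1 / 2 ^ (n + 1 + 1))) := by
    intro X hX z hz s' hs'
    have hex := ((hU2 d (D.ρ n) (D.T n) _ (kg K a.1) (D.hρ3 n) (D.hρ4 n) hσn).1.choose_spec.2.2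
      (qlaw X) (D.hv X hX) (h1 X hX)).1 z hz
    obtain ⟨s, hs, -⟩ := hex
    have h4 := (hM1 X hX z hz s s' hs hs').1
    have h5 := h1 X hX z hz s hs
    have h6 : ‖s'‖ ≤ ‖s‖ + ‖s - s'‖ := by
      have := norm_sub_le s (s - s')
      rwa [sub_sub_cancel] at this
    have h7 : e ≤ σ / 2 ^ (n + 2) := min_le_right _ _
    have h9 : σ * (1 / 2 + 1 / 2 ^ (n + 1)) = σ * (1 / 2 + 1 / 2 ^ (n + 1 + 1))
        + σ / 2 ^ (n + 2) := by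
      field_simp
      ring
    linarith
  have hσn' : 0 < σ * (1 / 2 + 1 / 2 ^ (n + 1 + 1)) := by positivity
  obtain ⟨q, hq0, hq1, hq2⟩ := D.ctr hU2 hσn' hgap
  have hq3 : 0 < (1 - q ^ 2) / 8 := by
    have : q ^ 2 < 1 := by nlinarith
    linarith
  refine ⟨(nx ψ a.1 (D.l n) M, min a.2 ((1 - q ^ 2) / 8)), ⟨hgap, lt_min h3 hq3,
    q, hq0, hq1, min_le_right _ _, hq2⟩, ⟨M, rfl⟩, min_le_left _ _, ?_⟩
  intro X hX z hz s s' hs hs'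
  exact (hM1 X hX z hz s s' hs hs').2.trans (min_le_left _ _)

/-- The chain. -/
theorem exists_f (hX : S_CX) (hUU : S_UUC) (hL : S_SCL) (hZ : S_ZF) (hCay : S_CAY)
    (hM : S_MZP) (hU : S_UNI) (hU2 : S_UNI2) (hS2 : S_STEP2) (hd : 0 < d) (hψ : IsSemi ψ) {r : ℝ}
    (hDT : D.T = fun n => 2 * r * (1 / 16) ^ n)
    {K : C(UnitAddTorus (Fin d), ℝ)} {σ : ℝ} (hσ : 0 < σ)
    (h : ∀ X ∈ 𝓧, GapK (qlaw X) (D.ρ 0) K σ) :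
    ∃ f : C(ℝ, ℝ), (∀ t, |f t| ≤ 2 * r) ∧ ∀ X ∈ 𝓧, MestK (kg K f) (qlaw X) := by
  obtain ⟨x, hx⟩ := exists_seq (α := C(ℝ, ℝ) × ℝ)
    (fun n a => Inv4 K 𝓧 D.ρ σ n a ∧ (n = 0 → a.1 = 0))
    (fun n a b => Rel4 K ψ D.l 𝓧 D.ρ n a b) (D.init hU2 hσ h) (by
      intro n a ha
      obtain ⟨b, hb1, hb2⟩ := D.step hU2 hS2 hd hψ hσ n a ha.1
      exact ⟨b, ⟨hb1, fun h => absurd h (Nat.succ_ne_zero n)⟩, hb2⟩)
  have hMe : ∀ n, ∃ M : ℕ, (x (n + 1)).1 = nx ψ (x n).1 (D.l n) M := fun n => (hx n).2.1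
  choose M hMe using hMe
  have hq : ∀ n, ∃ q : ℝ, 0 ≤ q ∧ q < 1 ∧ (x n).2 ≤ (1 - q ^ 2) / 8 ∧
      ∀ X ∈ 𝓧, CtrK (qlaw X) (D.ρ n) (kg K (x n).1) q := fun n => (hx n).1.1.2.2
  choose q hq0 hq1 hq2 hq3 using hq
  let L : LvK ψ := {
    l := D.l, T := D.T, f := fun n => (x n).1, M := M
    hψ := hψ.bound
    hl := D.hl
    hT := D.hT
    hTp := D.hTp
    f0 := (hx 0).1.2 rfl
    fs := hMe }
  have hT0 : D.T 0 = 2 * r := by rw [hDT]; simp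
  have hTt : Tendsto D.T atTop (𝓝 0) := by
    rw [hDT]
    have h1 := (tendsto_pow_atTop_nhds_zero_of_lt_one (by norm_num : (0 : ℝ) ≤ 1 / 16)
      (by norm_num : (1 : ℝ) / 16 < 1)).const_mul (2 * r)
    simpa using h1
  refine ⟨L.fI, fun t => (L.fI_id t).trans hT0.le, fun X hXj => ?_⟩
  let E : CEK (qlaw X) K := {
    ρ := D.ρ
    T := D.T
    σ := σ / 2
    f := fun n => (x n).1
    fI := L.fI
    B := D.T 0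
    p := fun n => (x n).2
    q := q
    hv := D.hv X hXj
    T_anti := L.T_anti
    hTp := D.hTp
    hT0 := hTt
    hρ1 := D.hρ1
    hρ3 := D.hρ3
    hρ4 := D.hρ4
    hσ := by positivity
    gap := by
      intro n z hz s hs
      have h1 := (hx n).1.1.1 X hXj z hz s hs
      have h2 : 0 < σ * (1 / 2 ^ (n + 1)) := by positivity
      linarith
    hp := fun n => (hx n).1.1.2.1
    anti := fun n => (hx n).2.2.1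
    hq0 := hq0
    hq1 := hq1
    hq2 := hq2
    ctr := fun n => hq3 n X hXj
    fI_diff := fun n t => L.fI_diff n t
    fI_id := L.fI_id
    f_id := fun n t => L.f_id n t
    rel := fun n z hz s s' hs hs' => (hx n).2.2.2 X hXj z hz s s' hs hs' }
  exact E.concl hX hUU hL hZ hCay hM hU

end Pr4

end

end Pool.Agent.W792.WA.ChN
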