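import Pool.Agent.W792.WA.Stm5

/-!
Statements of the sixth part of the project WA: polynomial decay of the hopping amplitudes.
-/

namespace Pool.Agent.W792.WA

open MeasureTheory Filter Pool.Agent.W792.LL
open scoped Topology

noncomputable section

/-- Kernel of `exp (i t (-Δ))` in dimension one. -/
def k1 (t : ℝ) (n : ℤ) : ℂ :=
  ∫ θ : UnitAddCircle, fourier n θ * Complex.exp (Complex.I * t *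
    ((2 - 2 * (fourier 1 θ).re : ℝ) : ℂ)) ∂AddCircle.haarAddCircle

/-- Decay in `t`. -/
def S_KA : Prop :=
  ∃ C : ℝ, 0 < C ∧ ∀ (t : ℝ) (n : ℤ), ‖k1 t n‖ ≤ C / (1 + |t|) ^ (1 / 3 : ℝ)

/-- Decay in `n`. -/
def S_KB : Prop :=
  ∃ C : ℝ, 0 < C ∧ ∀ (t : ℝ) (n : ℤ), 8 * |t| ≤ |(n : ℝ)| → ‖k1 t n‖ ≤ C * (4 / 5) ^ n.natAbs

/-- Dimension `d`, uniformly in `t`. -/
def S_KC : Prop :=
  ∀ d : ℕ, 0 < d → ∃ C : ℝ, 0 < C ∧ ∀ (t : ℝ) (x : Fin d → ℤ),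
    ‖UnitAddTorus.mFourierCoeff
      (fun k : UnitAddTorus (Fin d) => Complex.exp (Complex.I * t * lap d k)) x‖
      ≤ C / (1 + ‖x‖) ^ ((d : ℝ) / 3)

/-- The semicircle function is Hölder continuous of exponent `2/3`. -/
def S_WH : Prop :=
  ∃ ψ : C(UnitAddCircle, ℝ), IsSemi ψ ∧ ∃ C : ℝ, ∀ s t : ℝ,
    |ψ (s : UnitAddCircle) - ψ (t : UnitAddCircle)| ≤ C * |s - t| ^ (2 / 3 : ℝ)

/-- Bernstein's theorem. -/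
def S_WB : Prop :=
  ∀ ψ : C(UnitAddCircle, ℝ), (∃ C : ℝ, ∀ s t : ℝ,
    |ψ (s : UnitAddCircle) - ψ (t : UnitAddCircle)| ≤ C * |s - t| ^ (2 / 3 : ℝ)) →
    Summable fun h : ℤ => ‖fourierCoeff (fun t : UnitAddCircle => ((ψ t : ℝ) : ℂ)) h‖

/-- Hopping amplitudes of one level. -/
def S_WD : Prop :=
  ∀ (d : ℕ) (ψ : C(UnitAddCircle, ℝ)), 0 < d →
    (Summable fun h : ℤ => ‖fourierCoeff (fun t : UnitAddCircle => ((ψ t : ℝ) : ℂ)) h‖) →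
    ∃ C : ℝ, 0 < C ∧ ∀ (M : ℕ) (x : Fin d → ℤ),
      ‖UnitAddTorus.mFourierCoeff (fun k : UnitAddTorus (Fin d) =>
        ((ψ ((M * lap d k / (2 * Real.pi) : ℝ) : UnitAddCircle) : ℝ) : ℂ)) x‖
        ≤ C / (1 + ‖x‖) ^ ((d : ℝ) / 3)

/-- Functions which are sums of levels. -/
def IsSum (ψ : C(UnitAddCircle, ℝ)) (S : ℝ) (g : C(ℝ, ℝ)) : Prop :=
  ∃ (l : ℕ → ℝ) (M : ℕ → ℕ), (∀ j, 0 ≤ l j) ∧ Summable l ∧ ∑' j, l j ≤ S ∧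
    ∀ t, g t = ∑' j, l j * ψ ((M j * t / (2 * Real.pi) : ℝ) : UnitAddCircle)

/-- `S_KN` with an explicit form of `g`. -/
def S_KNX : Prop :=
  ∀ ψ : C(UnitAddCircle, ℝ), IsSemi ψ →
  ∀ (d : ℕ) (K : C(UnitAddTorus (Fin d), ℝ)) (ε : ℝ), 0 < d → 0 < ε →
    (∀ E : ℝ, 0 ≤ E → E ≤ 4 * d → ∃ k, K k = E) →
    ∃ g : C(ℝ, ℝ), IsSum ψ ε g ∧
    ∀ (ν : Measure ℝ) [IsProbabilityMeasure ν], Integrable (fun x : ℝ => x ^ 60) ν →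
    (∀ a : ℝ, ν {a} < 1) → ∃ lam₀ : ℝ, 0 < lam₀ ∧ ∀ lam : ℝ, 0 < lam → lam ≤ lam₀ →
      ∀ᵐ v ∂(Pn ν (Fin d → ℤ)), ACIK (K + gK g d) lam v 0 (4 * d)

/-- `S_KFIN` with an explicit form of `g`. -/
def S_KFX : Prop :=
  ∀ ψ : C(UnitAddCircle, ℝ), IsSemi ψ →
  ∀ (d : ℕ) (K : C(UnitAddTorus (Fin d), ℝ)) (ε : ℝ), 0 < d → 0 < ε →
    (⨅ k, K k) < (⨆ k, K k) →
    ∃ g : C(ℝ, ℝ), IsSum ψ ε g ∧
    ∀ (ν : Measure ℝ) [IsProbabilityMeasure ν], Integrable (fun x : ℝ => x ^ 60) ν →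
    (∀ a : ℝ, ν {a} < 1) → ∃ lam₀ : ℝ, 0 < lam₀ ∧ ∀ lam : ℝ, 0 < lam → lam ≤ lam₀ →
      ∀ᵐ v ∂(Pn ν (Fin d → ℤ)), ACIK (K + gK g d) lam v (⨅ k, K k) (⨆ k, K k)

/-- Hopping amplitudes of a sum of levels. -/
def S_WS : Prop :=
  ∀ (d : ℕ) (ψ : C(UnitAddCircle, ℝ)) (C S : ℝ) (g : C(ℝ, ℝ)), 0 < d → 0 ≤ C → 0 ≤ S →
    (∀ (M : ℕ) (x : Fin d → ℤ),
      ‖UnitAddTorus.mFourierCoeff (fun k : UnitAddTorus (Fin d) =>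
        ((ψ ((M * lap d k / (2 * Real.pi) : ℝ) : UnitAddCircle) : ℝ) : ℂ)) x‖
        ≤ C / (1 + ‖x‖) ^ ((d : ℝ) / 3)) →
    IsSum ψ S g → ∀ x : Fin d → ℤ,
      ‖UnitAddTorus.mFourierCoeff (fun k : UnitAddTorus (Fin d) => ((g (lap d k) : ℝ) : ℂ)) x‖
        ≤ S * C / (1 + ‖x‖) ^ ((d : ℝ) / 3)

end

end Pool.Agent.W792.WA
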