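import Pool.Agent.W792.WA.G12
import Pool.Agent.W792.WA.Stm6

/-!
All kinetic energies, explicit form of the perturbation.
-/

namespace Pool.Agent.W792.WA.ChK

open MeasureTheory Filter Pool.Agent.W792.LL Pool.Agent.W792.WA Pool.Agent.W792.WA.Ch
open scoped Topology

noncomputable section

/-- The main construction: one function for all classes. -/
theorem exists_f3x (hX : S_CX) (hUU : S_UUC) (hL : S_SCL) (hZ : S_ZF) (hCay : S_CAY)
    (hM : S_MZP) (hU : S_UNI) (hU2 : S_UNI2) (hS2 : S_STEP2) (hJS : S_JSTEP) (hN : S_NETX2)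
    {d : ℕ} (hd : 0 < d) {K : C(UnitAddTorus (Fin d), ℝ)} {ψ : C(UnitAddCircle, ℝ)}
    (hψ : IsSemi ψ) {r : ℝ} (D : Pr3 K ψ) (hDT : D.T = fun n => 2 * r * (1 / 16) ^ n) :
    ∃ f : C(ℝ, ℝ), IsSum ψ (2 * r) f ∧
      ∀ (n : ℕ), ∀ X ∈ En2 D.δ n, MestK (kg K f) (qlaw X) := by
  obtain ⟨x, hx⟩ := exists_seq (α := C(ℝ, ℝ) × ℝ)
    (fun n a => Inv3 K D.ρ D.T D.J D.δ D.se n a ∧ (n = 0 → a.1 = 0))
    (fun n a b => Rel3 K ψ D.l D.ρ D.δ n a b) (D.init hU2) (by
      intro n a ha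
      obtain ⟨b, hb1, hb2⟩ := D.step hU2 hS2 hJS hN hd hψ n a ha.1
      exact ⟨b, ⟨hb1, fun h => absurd h (Nat.succ_ne_zero n)⟩, hb2⟩)
  have hMe : ∀ n, ∃ M : ℕ, (x (n + 1)).1 = nx ψ (x n).1 (D.l n) M := fun n => (hx n).2.1
  choose M hMe using hMe
  have hq : ∀ n, ∃ q : ℝ, 0 ≤ q ∧ q < 1 ∧ (x n).2 ≤ (1 - q ^ 2) / 8 ∧
      ∀ X ∈ Xn2 D.δ n, CtrK (qlaw X) (D.ρ n) (kg K (x n).1) q := fun n => (hx n).1.1.2.2.2.2
  choose q hq0 hq1 hq2 hq3 using hq
  let L : LvK ψ := {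
    l := D.l, T := D.T, f := fun n => (x n).1, M := M
    hψ := hψ.bound
    hl := D.hl
    hT := D.hT
    hTp := D.hTp
    f0 := (hx 0).1.2 rfl
    fs := hMe }
  have hT0 : D.T 0 = 2 * r := by rw [hDT]; simp
  have hTt : Tendsto D.T atTop (𝓝 0) := by
    rw [hDT]
    have h1 := (tendsto_pow_atTop_nhds_zero_of_lt_one (by norm_num : (0 : ℝ) ≤ 1 / 16)
      (by norm_num : (1 : ℝ) / 16 < 1)).const_mul (2 * r)
    simpa using h1
  have hsumle : ∑' j, L.l j ≤ 2 * r := by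
    refine Real.tsum_le_of_sum_range_le (fun n => (L.hl n).le) fun m => ?_
    have h1 := L.sum_l 0 m
    have h2 := L.hTp (0 + m)
    simp only [zero_add] at h1 h2
    have h3 : L.T 0 = 2 * r := hT0
    linarith
  refine ⟨L.fI, ⟨L.l, L.M, fun j => (L.hl j).le, L.summable_l, hsumle, fun t => rfl⟩,
    fun j X hXj => ?_⟩
  have hXn : ∀ n, X ∈ Xn2 D.δ (n + j) := fun n => ⟨j, by omega, hXj⟩
  let E : CEK (qlaw X) K := {
    ρ := fun n => D.ρ (n + j)
    T := fun n => D.T (n + j)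
    σ := D.se j / 2
    f := fun n => (x (n + j)).1
    fI := L.fI
    B := D.T 0
    p := fun n => (x (n + j)).2
    q := fun n => q (n + j)
    hv := Xn2_vr (hXn 0)
    T_anti := fun a b hab => L.T_anti (by omega)
    hTp := fun n => D.hTp _
    hT0 := hTt.comp (tendsto_add_atTop_nat j)
    hρ1 := fun n => D.hρ1 _
    hρ3 := fun n => D.hρ3 _
    hρ4 := fun n => D.hρ4 _
    hσ := by have := D.se_pos j; positivity
    gap := by
      intro n z hz s hs
      have h1 := (hx (n + j)).1.1.2.1 j (by omega) X hXj z hz s hs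
      have h2 : 0 < D.se j * (1 / 2 ^ (n + j + 1)) := by
        have := D.se_pos j
        positivity
      linarith
    hp := fun n => (hx (n + j)).1.1.2.2.2.1
    anti := by
      intro n
      have e : n + 1 + j = n + j + 1 := by omega
      rw [e]
      exact (hx (n + j)).2.2.1
    hq0 := fun n => hq0 _
    hq1 := fun n => hq1 _
    hq2 := fun n => hq2 _
    ctr := fun n => hq3 _ X (hXn n)
    fI_diff := fun n t => L.fI_diff (n + j) t
    fI_id := L.fI_id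
    f_id := fun n t => L.f_id (n + j) t
    rel := by
      intro n z hz s s' hs hs'
      have e : n + 1 + j = n + j + 1 := by omega
      rw [e] at hs' ⊢
      refine ((hx (n + j)).2.2.2 X (hXn n) z hz s s' hs hs').trans ?_
      have h1 := (hx (n + j)).1.1.2.2.2.1
      apply div_le_div_of_nonneg_left h1.le (by positivity)
      have h2 : (8 : ℝ) ^ n ≤ 8 ^ (n + j) := pow_le_pow_right₀ (by norm_num) (by omega)
      linarith }
  exact E.concl hX hUU hL hZ hCay hM hU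

/-- The final theorem. -/
theorem knx (hX : S_CX) (hUU : S_UUC) (hL : S_SCL) (hZ : S_ZF) (hCay : S_CAY)
    (hM : S_MZP) (hU : S_UNI) (hU2 : S_UNI2) (hS2 : S_STEP2) (hJS : S_JSTEP) (hN : S_NETX2)
    (hF : S_FUT) (hJ0 : S_J0K) (hB : S_BASE4) (hV : S_MOM) (hQ : S_QNT2)
    (hA : S_AEQK) : S_KNX := by
  intro ψ hψ d K ε hd hε hK0
  obtain ⟨D, -, hD2, hD3⟩ := exists_Pr3 hF hJ0 hB hd hK0 hψ (r := ε / 2) (by positivity)
  obtain ⟨f, hf1, hf2⟩ := exists_f3x hX hUU hL hZ hCay hM hU hU2 hS2 hJS hN hd hψ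
    (r := ε / 2) D hD2
  have hf : IsSum ψ ε f := by
    have e : 2 * (ε / 2) = ε := by ring
    rwa [e] at hf1
  refine ⟨f, hf, fun ν hν hνm hνd => ?_⟩
  obtain ⟨κ, lam₁, hκ, hlam₁, hlam₁', hV1⟩ := hV ν hνm hνd
  obtain ⟨n₀, hn₀⟩ := exists_nat_one_div_lt hκ
  have hδn₀ := D.hδ n₀
  refine ⟨min lam₁ (D.δ n₀ ^ (3 / 2 : ℝ)), lt_min hlam₁ (by positivity), fun lam h0 h1 => ?_⟩
  have h2 : lam ≤ lam₁ := h1.trans (min_le_left _ _)
  have h3 : lam ^ (2 / 3 : ℝ) ≤ D.δ n₀ := by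
    have h4 : lam ≤ D.δ n₀ ^ (3 / 2 : ℝ) := h1.trans (min_le_right _ _)
    calc lam ^ (2 / 3 : ℝ) ≤ (D.δ n₀ ^ (3 / 2 : ℝ)) ^ (2 / 3 : ℝ) :=
          Real.rpow_le_rpow h0.le h4 (by norm_num)
      _ = D.δ n₀ := by
        rw [← Real.rpow_mul hδn₀.le]
        norm_num
  have hδ : 0 < lam ^ (2 / 3 : ℝ) := by positivity
  have hP : IsProbabilityMeasure (ν.map fun x => lam * x) :=
    Measure.isProbabilityMeasure_map (by fun_prop)
  obtain ⟨X, hX1, hX2⟩ := hQ (ν.map fun x => lam * x)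
  obtain ⟨X', hX3, hX4, hX5⟩ := hV1 lam h0 h2 X hX2
  obtain ⟨j, hj1, hj2, hj3⟩ := find_class hD3 hδ h3
  have hvr : 0 < vr (qlaw X) := by
    rw [hX2]
    refine vr_pos hCay _ fun a => ?_
    rw [Measure.map_apply (by fun_prop) (measurableSet_singleton a)]
    have : (fun x => lam * x) ⁻¹' {a} = {a / lam} := by
      ext x
      simp only [Set.mem_preimage, Set.mem_singleton_iff]
      rw [eq_div_iff h0.ne', mul_comm]
    rw [this]
    exact hνd _
  have hXE : X ∈ En2 D.δ j := by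
    refine ⟨hX1, hvr, lam ^ (2 / 3 : ℝ), hj2, hj3, X', hX3, hX4, ?_⟩
    refine le_trans ?_ hX5
    have h5 : 1 / ((j : ℝ) + 1) ≤ κ := by
      have h6 : (n₀ : ℝ) ≤ j := by exact_mod_cast hj1
      have h7 : 1 / ((j : ℝ) + 1) ≤ 1 / ((n₀ : ℝ) + 1) := by
        apply one_div_le_one_div_of_le (by positivity)
        linarith
      linarith
    gcongr
  exact hA d ν lam (K + gK f d) hd h0 (MestK_congr hX2 (hf2 j X hXE))

end

end Pool.Agent.W792.WA.ChK
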