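import Pool.Agent.W792.WA.G1

/-!
The chain: estimates for a sequence of levels.
-/

namespace Pool.Agent.W792.WA.Ch

open MeasureTheory Filter Pool.Agent.W792.LL Pool.Agent.W792.WA
open scoped Topology

noncomputable section

/-- Data of a chain. -/
structure CD (ν : Measure ℝ) [IsProbabilityMeasure ν] (d : ℕ) (ψ : C(UnitAddCircle, ℝ)) where
  /-- levels -/
  l : ℕ → ℝ
  /-- laws of the future levels -/
  ρ : ℕ → Measure ℝ
  /-- tails -/
  T : ℕ → ℝ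
  /-- gap -/
  σ : ℝ
  /-- kinetic energies -/
  f : ℕ → C(ℝ, ℝ)
  /-- positivity constants -/
  p : ℕ → ℝ
  /-- frequencies -/
  M : ℕ → ℕ
  /-- contraction constants -/
  q : ℕ → ℝ
  hv : 0 < vr ν
  hψ : ∀ t, |ψ t| ≤ 1
  hl : ∀ n, 0 < l n
  hT : ∀ n, l n + T (n + 1) ≤ T n
  hTp : ∀ n, 0 ≤ T n
  hT0 : Tendsto T atTop (𝓝 0)
  hρ1 : ∀ n, IsProbabilityMeasure (ρ n)
  hρ3 : ∀ n, ρ n (Set.Icc (-(T n)) (T n))ᶜ = 0
  hρ4 : ∀ (n : ℕ) (a b : ℝ), ρ n {a, b} < 1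
  hσ : 0 < σ
  gap : ∀ n, Gap ν d (ρ n) (f n) σ
  hp : ∀ n, 0 < p n
  anti : ∀ n, p (n + 1) ≤ p n
  hq0 : ∀ n, 0 ≤ q n
  hq1 : ∀ n, q n < 1
  hq2 : ∀ n, p n ≤ (1 - q n ^ 2) / 8
  ctr : ∀ n, Ctr ν d (ρ n) (f n) (q n)
  f0 : f 0 = ContinuousMap.id ℝ
  fs : ∀ n, f (n + 1) = nx ψ (f n) (l n) (M n)
  rel : ∀ (n : ℕ), ∀ z ∈ Zs d, ∀ s s',
    IsFix ν (ρ n) (wz (fK (f n) d) z) s → IsFix ν (ρ (n + 1)) (wz (fK (f (n + 1)) d) z) s' →
      ∫ v, ‖Zf (UU (ρ n) (wz (fK (f n) d) z) s) (fun x => cay (v x))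
        - Zf (UU (ρ (n + 1)) (wz (fK (f (n + 1)) d) z) s') (fun x => cay (v x))‖
          ∂(Pn ν (Fin d → ℤ)) ≤ p n / (64 * 8 ^ n)

namespace CD

variable {ν : Measure ℝ} [IsProbabilityMeasure ν] {d : ℕ} {ψ : C(UnitAddCircle, ℝ)}
  (D : CD ν d ψ)

theorem fs_apply (n : ℕ) (t : ℝ) : D.f (n + 1) t
    = D.f n t + D.l n * ψ ((D.M n * t / (2 * Real.pi) : ℝ) : UnitAddCircle) := by
  rw [D.fs n]; rfl

theorem term_le (n : ℕ) (t : UnitAddCircle) : |D.l n * ψ t| ≤ D.l n := by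
  rw [abs_mul, abs_of_pos (D.hl n)]
  exact mul_le_of_le_one_right (D.hl n).le (D.hψ t)

theorem T_anti : Antitone D.T :=
  antitone_nat_of_succ_le fun n => by linarith [D.hT n, D.hl n]

theorem p_anti : Antitone D.p := antitone_nat_of_succ_le D.anti

theorem sum_l (n m : ℕ) : ∑ j ∈ Finset.range m, D.l (n + j) ≤ D.T n - D.T (n + m) := by
  induction m with
  | zero => simp
  | succ m ih =>
    rw [Finset.sum_range_succ]
    have := D.hT (n + m)
    have e : n + (m + 1) = n + m + 1 := by omega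
    rw [e]
    linarith

theorem summable_l : Summable D.l := by
  refine summable_of_sum_range_le (c := D.T 0) (fun n => (D.hl n).le) fun m => ?_
  have h1 := D.sum_l 0 m
  have h2 := D.hTp (0 + m)
  simp only [zero_add] at h1 h2
  linarith

theorem f_eq (n : ℕ) (t : ℝ) : D.f n t = t + ∑ j ∈ Finset.range n,
    D.l j * ψ ((D.M j * t / (2 * Real.pi) : ℝ) : UnitAddCircle) := by
  induction n with
  | zero => rw [D.f0]; simp
  | succ n ih => rw [D.fs_apply, ih, Finset.sum_range_succ]; ring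

theorem f_diff (n m : ℕ) (t : ℝ) : |D.f (n + m) t - D.f n t| ≤ D.T n := by
  have h : |D.f (n + m) t - D.f n t| ≤ ∑ j ∈ Finset.range m, D.l (n + j) := by
    induction m with
    | zero => simp
    | succ m ih =>
      have e : n + (m + 1) = n + m + 1 := by omega
      rw [e, D.fs_apply, Finset.sum_range_succ]
      have h1 := D.term_le (n + m) ((D.M (n + m) * t / (2 * Real.pi) : ℝ) : UnitAddCircle)
      calc _ = |(D.f (n + m) t - D.f n t)
            + D.l (n + m) * ψ ((D.M (n + m) * t / (2 * Real.pi) : ℝ) : UnitAddCircle)| := by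
              congr 1; ring
        _ ≤ _ := abs_add_le _ _
        _ ≤ _ := add_le_add ih h1
  have h1 := D.sum_l n m
  have h2 := D.hTp (n + m)
  linarith

/-- The limit function. -/
def fI : C(ℝ, ℝ) where
  toFun t := t + ∑' j, D.l j * ψ ((D.M j * t / (2 * Real.pi) : ℝ) : UnitAddCircle)
  continuous_toFun := by
    refine continuous_id.add (continuous_tsum (u := D.l) (fun j => ?_) D.summable_l ?_)
    · have h : Continuous fun t : ℝ => ((D.M j * t / (2 * Real.pi) : ℝ) : UnitAddCircle) :=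
        (AddCircle.continuous_mk' (1 : ℝ)).comp (by fun_prop)
      exact continuous_const.mul (ψ.continuous.comp h)
    · intro j t
      exact D.term_le j _

theorem f_tendsto (t : ℝ) : Tendsto (fun n => D.f n t) atTop (𝓝 (D.fI t)) := by
  have h1 : Summable fun j => D.l j * ψ ((D.M j * t / (2 * Real.pi) : ℝ) : UnitAddCircle) :=
    Summable.of_norm_bounded D.summable_l fun j => D.term_le j _
  refine (h1.hasSum.tendsto_sum_nat.const_add t).congr fun n => ?_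
  rw [D.f_eq]

theorem fI_diff (n : ℕ) (t : ℝ) : |D.fI t - D.f n t| ≤ D.T n := by
  have h1 : Tendsto (fun m => |D.f (n + m) t - D.f n t|) atTop (𝓝 |D.fI t - D.f n t|) := by
    have h2 := (D.f_tendsto t).comp (tendsto_add_atTop_nat n)
    have h3 : Tendsto (fun m => D.f (n + m) t) atTop (𝓝 (D.fI t)) := by
      refine h2.congr fun m => ?_
      simp [Function.comp, add_comm]
    exact (h3.sub_const _).abs
  exact le_of_tendsto' h1 fun m => D.f_diff n m t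

theorem fI_id (t : ℝ) : |D.fI t - t| ≤ D.T 0 := by
  have := D.fI_diff 0 t
  rwa [D.f0] at this

theorem f_id (n : ℕ) (t : ℝ) : |D.f n t - t| ≤ D.T 0 := by
  have := D.f_diff 0 n t
  rwa [zero_add, D.f0] at this

open Classical in
/-- The solution at stage `n`. -/
def sol (n : ℕ) (z : ℂ) : C(UnitAddTorus (Fin d), ℂ) :=
  if h : ∃ s, IsFix ν (D.ρ n) (wz (fK (D.f n) d) z) s then Classical.choose h else 0

theorem sol_fix (hU : S_UNI) (n : ℕ) {z : ℂ} (hz : z ∈ Zs d) :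
    IsFix ν (D.ρ n) (wz (fK (D.f n) d) z) (D.sol n z) := by
  have := D.hρ1 n
  have h := ((hU ν d (D.ρ n) (D.T n) D.σ (fK (D.f n) d) D.hv (D.hρ3 n) (D.hρ4 n) D.hσ
    (D.gap n)).1 z hz).exists
  unfold sol
  rw [dif_pos h]
  exact Classical.choose_spec h

/-- The effective contraction at stage `n`. -/
def Un (n : ℕ) (z : ℂ) : C(UnitAddTorus (Fin d), ℂ) :=
  UU (D.ρ n) (wz (fK (D.f n) d) z) (D.sol n z)

theorem Un_le (hU : S_UNI) (n : ℕ) {z : ℂ} (hz : z ∈ Zs d) : ‖D.Un n z‖ ≤ D.q n :=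
  D.ctr n z hz _ (D.sol_fix hU n hz)

/-- The limit symbol. -/
def V (z : ℂ) : C(UnitAddTorus (Fin d), ℂ) := us (Measure.dirac 0) 1 z (fK D.fI d)

theorem K_bound (g : C(ℝ, ℝ)) (hg : ∀ t, |g t - t| ≤ D.T 0) {z : ℂ} (hz : z ∈ Zs d)
    (k : UnitAddTorus (Fin d)) : ‖((fK g d k : ℝ) : ℂ) - z‖ ≤ 8 * d + D.T 0 + 1 ∧
      (((fK g d k : ℝ) : ℂ) - z).im ≤ -z.im := by
  obtain ⟨h1, h2, h3, h4⟩ := hz
  constructor
  · have e1 : fK g d k = g (lap d k) := rfl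
    have e2 : |fK g d k| ≤ 4 * d + D.T 0 := by
      rw [e1]
      calc |g (lap d k)| = |(g (lap d k) - lap d k) + lap d k| := by ring_nf
        _ ≤ |g (lap d k) - lap d k| + |lap d k| := abs_add_le _ _
        _ ≤ _ := by linarith [hg (lap d k), lap_bound d k]
    have e3 : ‖z‖ ≤ 4 * d + 1 := by
      refine (Complex.norm_le_abs_re_add_abs_im z).trans ?_
      rw [abs_of_nonneg h1, abs_of_pos h3]
      linarith
    calc ‖((fK g d k : ℝ) : ℂ) - z‖ ≤ ‖((fK g d k : ℝ) : ℂ)‖ + ‖z‖ := norm_sub_le _ _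
      _ ≤ _ := by
        rw [Complex.norm_real, Real.norm_eq_abs]
        linarith
  · simp

/-- Bounds at a fixed energy, uniform in the stage. -/
theorem fixed_z (hX : S_CX) (hUU : S_UUC) (hL : S_SCL) (hU : S_UNI) {z : ℂ} (hz : z ∈ Zs d) :
    ∃ q : ℝ, 0 ≤ q ∧ q < 1 ∧ ‖D.V z‖ ≤ q ∧ (∀ n, ‖D.Un n z‖ ≤ q) ∧
      ∀ n, ‖D.V z - D.Un n z‖ ≤ 8 / D.σ ^ 2 * (4 * D.T n) := by
  obtain ⟨q, hq0, hq1, hq⟩ := hX.2.2.1 (D.T 0) (8 * d + D.T 0 + 1) z.im hz.2.2.1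
  have hT0 := D.hTp 0
  have hVk : ∀ k, D.V z k = cayx (((fK D.fI d k : ℝ) : ℂ) - z) 0 := fun k =>
    us_dirac hX _ hz.2.2.1.le k
  have hb : ∀ (n : ℕ) (k : UnitAddTorus (Fin d)), ∀ a ∈ Set.Icc (-(D.T n)) (D.T n),
      ‖wz (fK (D.f n) d) z k a‖ ≤ q := by
    intro n k a ha
    have h1 := D.K_bound (D.f n) (D.f_id n) hz k
    refine hq _ a h1.1 h1.2 ?_
    have := D.T_anti (Nat.zero_le n)
    rw [abs_le]
    constructor <;> linarith [ha.1, ha.2]
  have hV : ‖D.V z‖ ≤ q := by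
    rw [ContinuousMap.norm_le _ hq0]
    intro k
    rw [hVk]
    have h1 := D.K_bound D.fI D.fI_id hz k
    exact hq _ 0 h1.1 h1.2 (by simpa using hT0)
  have hcont : ∀ n, Continuous (Function.uncurry (wz (fK (D.f n) d) z)) := fun n =>
    hX.2.2.2 d _ z hz.2.2.1.le
  have huu : ∀ n, (∀ k, D.Un n z k = Us (D.ρ n) (wz (fK (D.f n) d) z k) (D.sol n z k)) ∧
      ‖D.Un n z‖ ≤ q := by
    intro n
    have := D.hρ1 n
    have hs := (D.sol_fix hU n hz).1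
    refine hUU d (D.ρ n) (D.T n) q (wz (fK (D.f n) d) z) (D.sol n z) (D.hρ3 n) (hcont n) hq0
      hq1.le (hb n) hs ?_
    calc q * ‖D.sol n z‖ ≤ q * 1 := by gcongr
      _ < 1 := by linarith
  refine ⟨q, hq0, hq1, hV, fun n => (huu n).2, fun n => ?_⟩
  have hTn := D.hTp n
  have hσ := D.hσ
  have hnn : (0 : ℝ) ≤ 8 / D.σ ^ 2 * (4 * D.T n) := by positivity
  rw [ContinuousMap.norm_le _ hnn]
  intro k
  have := D.hρ1 n
  rw [ContinuousMap.sub_apply, hVk, (huu n).1 k]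
  set w₀ : ℂ := cayx (((fK D.fI d k : ℝ) : ℂ) - z) 0 with hw₀
  have him0 : (((fK D.fI d k : ℝ) : ℂ) - z).im ≤ 0 := by
    have := (D.K_bound D.fI D.fI_id hz k).2
    linarith [hz.2.2.1]
  have him1 : (((fK (D.f n) d k : ℝ) : ℂ) - z).im ≤ 0 := by
    have := (D.K_bound (D.f n) (D.f_id n) hz k).2
    linarith [hz.2.2.1]
  have hw1 : ‖w₀‖ ≤ 1 := (hX.1 _ 0 him0).1
  have hsn : ‖D.sol n z k‖ ≤ 1 - D.σ :=
    ((D.sol n z).norm_coe_le_norm k).trans (D.gap n z hz _ (D.sol_fix hU n hz))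
  have hs1 : ‖D.sol n z k‖ ≤ 1 := by linarith
  have hne : 1 - w₀ * D.sol n z k ≠ 0 := by
    intro h
    have h1 : w₀ * D.sol n z k = 1 := by linear_combination -h
    have h2 := congrArg norm h1
    rw [norm_mul, norm_one] at h2
    have h3 : ‖w₀‖ * ‖D.sol n z k‖ ≤ 1 * (1 - D.σ) := by gcongr
    linarith
  rw [← Us_const (ρ := D.ρ n) hne]
  have hprod : ∀ w : ℂ, ‖w‖ ≤ 1 → ‖w‖ * ‖D.sol n z k‖ ≤ 1 - D.σ := by
    intro w hw
    calc ‖w‖ * ‖D.sol n z k‖ ≤ 1 * (1 - D.σ) := by gcongr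
      _ = _ := one_mul _
  have hcy : ∀ a, ‖wz (fK (D.f n) d) z k a‖ ≤ 1 := fun a => (hX.1 _ a him1).1
  refine (hL (D.ρ n) (fun _ => w₀) (wz (fK (D.f n) d) z k) D.σ (4 * D.T n) (D.sol n z k)
    (D.sol n z k) measurable_const
    ((hcont n).comp (continuous_const.prodMk continuous_id)).measurable hσ
    (ae_of_all _ fun _ => hw1) (ae_of_all _ hcy) hs1 hs1 (ae_of_all _ fun _ => hprod _ hw1)
    (ae_of_all _ fun a => hprod _ (hcy a)) ?_).trans ?_
  · have hae : ∀ᵐ a ∂(D.ρ n), a ∈ Set.Icc (-(D.T n)) (D.T n) := by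
      rw [ae_iff]
      exact D.hρ3 n
    filter_upwards [hae] with a ha
    refine (hX.2.1 _ _ 0 a him0 him1).trans ?_
    have h1 : ‖(((fK D.fI d k : ℝ) : ℂ) - z) - (((fK (D.f n) d k : ℝ) : ℂ) - z)‖ ≤ D.T n := by
      rw [sub_sub_sub_cancel_right, ← Complex.ofReal_sub, Complex.norm_real, Real.norm_eq_abs]
      exact D.fI_diff n (lap d k)
    have h2 : |(0 : ℝ) - a| ≤ D.T n := by
      rw [zero_sub, abs_neg, abs_le]
      exact ha
    linarith
  · simp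

end CD

end

end Pool.Agent.W792.WA.Ch
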