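import Pool.Agent.W792.WA.G2

/-!
The chain: mean estimates.
-/

namespace Pool.Agent.W792.WA.Ch

open MeasureTheory Filter Pool.Agent.W792.LL Pool.Agent.W792.WA
open scoped Topology

noncomputable section

namespace CD

variable {ν : Measure ℝ} [IsProbabilityMeasure ν] {d : ℕ} {ψ : C(UnitAddCircle, ℝ)}
  (D : CD ν d ψ)

/-- Errors of the steps. -/
def de (n : ℕ) : ℝ := D.p n / (64 * 8 ^ n)

theorem sum_de_le (n m : ℕ) :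
    ∑ j ∈ Finset.range m, D.de (n + j) ≤ D.p n / (32 * 8 ^ n) := by
  have h1 : ∀ j ∈ Finset.range m, D.de (n + j) ≤ D.p n / (64 * 8 ^ n) * (1 / 8) ^ j := by
    intro j _
    have h2 := D.p_anti (Nat.le_add_right n j)
    have h3 := D.hp n
    unfold de
    calc D.p (n + j) / (64 * 8 ^ (n + j)) ≤ D.p n / (64 * 8 ^ (n + j)) := by gcongr
      _ = D.p n / (64 * 8 ^ n) * (1 / 8) ^ j := by
        rw [pow_add, one_div, inv_pow]; field_simp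
  refine (Finset.sum_le_sum h1).trans ?_
  rw [← Finset.mul_sum]
  have h4 : ∑ j ∈ Finset.range m, ((1 : ℝ) / 8) ^ j ≤ 2 := by
    have h5 : ∑ j ∈ Finset.range m, ((1 : ℝ) / 8) ^ j = (1 - (1 / 8) ^ m) * (8 / 7) := by
      rw [geom_sum_eq (by norm_num)]
      field_simp; ring
    rw [h5]
    have : (0 : ℝ) ≤ (1 / 8) ^ m := by positivity
    linarith
  have h6 := D.hp n
  calc D.p n / (64 * 8 ^ n) * ∑ j ∈ Finset.range m, ((1 : ℝ) / 8) ^ j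
      ≤ D.p n / (64 * 8 ^ n) * 2 := by gcongr
    _ = D.p n / (32 * 8 ^ n) := by field_simp; ring

/-- Phase function of stage `n`. -/
def Zn (n : ℕ) (z : ℂ) (v : (Fin d → ℤ) → ℝ) : ℂ := Zf (D.Un n z) (fun x => cay (v x))

/-- Phase function of the limit. -/
def Zi (z : ℂ) (v : (Fin d → ℤ) → ℝ) : ℂ := Zf (D.V z) (fun x => cay (v x))

theorem int_Zn (hZ : S_ZF) (hCay : S_CAY) (hM : S_MZP) (hU : S_UNI) (n : ℕ) {z : ℂ}
    (hz : z ∈ Zs d) : Integrable (D.Zn n z) (Pn ν (Fin d → ℤ)) :=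
  Zf_int hZ hCay hM ν (D.hq0 n) (D.hq1 n) (D.Un_le hU n hz)

theorem chain (hZ : S_ZF) (hCay : S_CAY) (hM : S_MZP) (hU : S_UNI) {z : ℂ}
    (hz : z ∈ Zs d) (n m : ℕ) :
    ∫ v, ‖D.Zn n z v - D.Zn (n + m) z v‖ ∂(Pn ν (Fin d → ℤ))
      ≤ ∑ j ∈ Finset.range m, D.de (n + j) := by
  induction m with
  | zero => simp
  | succ m ih =>
    have a1 := D.int_Zn hZ hCay hM hU n hz
    have a2 := D.int_Zn hZ hCay hM hU (n + m) hz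
    have a3 := D.int_Zn hZ hCay hM hU (n + m + 1) hz
    have i2 := D.rel (n + m) z hz _ _ (D.sol_fix hU (n + m) hz) (D.sol_fix hU (n + m + 1) hz)
    have e : n + (m + 1) = n + m + 1 := by omega
    rw [Finset.sum_range_succ, e]
    calc ∫ v, ‖D.Zn n z v - D.Zn (n + m + 1) z v‖ ∂(Pn ν (Fin d → ℤ))
        ≤ ∫ v, (‖D.Zn n z v - D.Zn (n + m) z v‖
            + ‖D.Zn (n + m) z v - D.Zn (n + m + 1) z v‖) ∂(Pn ν (Fin d → ℤ)) := by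
          refine integral_mono (a1.sub a3).norm ((a1.sub a2).norm.add (a2.sub a3).norm) fun v => ?_
          exact norm_sub_le_norm_sub_add_norm_sub _ _ _
      _ = ∫ v, ‖D.Zn n z v - D.Zn (n + m) z v‖ ∂(Pn ν (Fin d → ℤ))
          + ∫ v, ‖D.Zn (n + m) z v - D.Zn (n + m + 1) z v‖ ∂(Pn ν (Fin d → ℤ)) :=
          integral_add (a1.sub a2).norm (a2.sub a3).norm
      _ ≤ _ := add_le_add ih i2

theorem int_Zi (hX : S_CX) (hUU : S_UUC) (hL : S_SCL) (hZ : S_ZF) (hCay : S_CAY) (hM : S_MZP)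
    (hU : S_UNI) {z : ℂ} (hz : z ∈ Zs d) : Integrable (D.Zi z) (Pn ν (Fin d → ℤ)) := by
  obtain ⟨q, h0, h1, h2, -⟩ := D.fixed_z hX hUU hL hU hz
  exact Zf_int hZ hCay hM ν h0 h1 h2

theorem mean_close (hX : S_CX) (hUU : S_UUC) (hL : S_SCL) (hZ : S_ZF) (hCay : S_CAY)
    (hM : S_MZP) (hU : S_UNI) {z : ℂ} (hz : z ∈ Zs d) (n : ℕ) :
    ∫ v, ‖D.Zi z v - D.Zn n z v‖ ∂(Pn ν (Fin d → ℤ)) ≤ D.p n / (32 * 8 ^ n) := by
  refine le_of_forall_pos_le_add fun τ hτ => ?_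
  obtain ⟨q, h0, h1, h2, h3, h4⟩ := D.fixed_z hX hUU hL hU hz
  have hq : 0 < 1 - q := by linarith
  have hlim : Tendsto (fun k : ℕ => 8 / D.σ ^ 2 * (4 * D.T k) / (1 - q) ^ 2) atTop (𝓝 0) := by
    have h5 := ((D.hT0.const_mul 4).const_mul (8 / D.σ ^ 2)).div_const ((1 - q) ^ 2)
    simpa using h5
  obtain ⟨k₀, hk₀⟩ := (hlim.eventually_lt_const hτ).exists_forall_of_atTop
  have i1 := D.int_Zi hX hUU hL hZ hCay hM hU hz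
  have i2 := D.int_Zn hZ hCay hM hU (n + k₀) hz
  have i3 := D.int_Zn hZ hCay hM hU n hz
  calc ∫ v, ‖D.Zi z v - D.Zn n z v‖ ∂(Pn ν (Fin d → ℤ))
      ≤ ∫ v, (‖D.Zi z v - D.Zn (n + k₀) z v‖
          + ‖D.Zn n z v - D.Zn (n + k₀) z v‖) ∂(Pn ν (Fin d → ℤ)) := by
        refine integral_mono (i1.sub i3).norm ((i1.sub i2).norm.add (i3.sub i2).norm) fun v => ?_
        simp only
        rw [norm_sub_rev (D.Zn n z v)]
        exact norm_sub_le_norm_sub_add_norm_sub _ _ _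
    _ = ∫ v, ‖D.Zi z v - D.Zn (n + k₀) z v‖ ∂(Pn ν (Fin d → ℤ))
        + ∫ v, ‖D.Zn n z v - D.Zn (n + k₀) z v‖ ∂(Pn ν (Fin d → ℤ)) :=
        integral_add (i1.sub i2).norm (i3.sub i2).norm
    _ ≤ τ + D.p n / (32 * 8 ^ n) := by
        refine add_le_add ?_ ((D.chain hZ hCay hM hU hz n k₀).trans (D.sum_de_le n k₀))
        calc ∫ v, ‖D.Zi z v - D.Zn (n + k₀) z v‖ ∂(Pn ν (Fin d → ℤ))
            ≤ ∫ _, τ ∂(Pn ν (Fin d → ℤ)) := by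
              refine integral_mono (i1.sub i2).norm (integrable_const _) fun v => ?_
              refine (Zf_lip hZ hCay h0 h1 h2 (h3 (n + k₀)) v).trans ?_
              refine le_trans ?_ (hk₀ (n + k₀) (by omega)).le
              gcongr
              exact h4 (n + k₀)
          _ = τ := by simp
    _ = _ := by ring

/-- The phase function of the limit, real part. -/
theorem Pf_eq (η E : ℝ) (v : (Fin d → ℤ) → ℝ) :
    Pf d D.fI η E v = 2 * (D.Zi ⟨E, η⟩ v).re - 1 := rfl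

theorem mean_diff (hX : S_CX) (hUU : S_UUC) (hL : S_SCL) (hZ : S_ZF) (hCay : S_CAY)
    (hM : S_MZP) (hU : S_UNI) (n : ℕ) {η η' E θ ω : ℝ} (hz : (⟨E, η⟩ : ℂ) ∈ Zs d)
    (hz' : (⟨E, η'⟩ : ℂ) ∈ Zs d)
    (hθ : ∀ z ∈ Zs d, ∀ z' ∈ Zs d, ‖z - z'‖ ≤ θ → ∀ s s',
      IsFix ν (D.ρ n) (wz (fK (D.f n) d) z) s → IsFix ν (D.ρ n) (wz (fK (D.f n) d) z') s' →
        ‖s - s'‖ ≤ ω ∧
          ‖UU (D.ρ n) (wz (fK (D.f n) d) z) s - UU (D.ρ n) (wz (fK (D.f n) d) z') s'‖ ≤ ω)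
    (hη : |η - η'| ≤ θ) :
    ∫ v, |Pf d D.fI η E v - Pf d D.fI η' E v| ∂(Pn ν (Fin d → ℤ))
      ≤ 2 * (D.p n / (16 * 8 ^ n) + ω / (1 - D.q n) ^ 2) := by
  have c1 := D.mean_close hX hUU hL hZ hCay hM hU hz n
  have c2 := D.mean_close hX hUU hL hZ hCay hM hU hz' n
  have i1 := D.int_Zi hX hUU hL hZ hCay hM hU hz
  have i1' := D.int_Zi hX hUU hL hZ hCay hM hU hz'
  have i2 := D.int_Zn hZ hCay hM hU n hz
  have i2' := D.int_Zn hZ hCay hM hU n hz'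
  set L : ℝ := ω / (1 - D.q n) ^ 2 with hLdef
  have hd : ‖(⟨E, η⟩ : ℂ) - ⟨E, η'⟩‖ ≤ θ := by
    have e : (⟨E, η⟩ : ℂ) - ⟨E, η'⟩ = ((η - η' : ℝ) : ℂ) * Complex.I := by
      apply Complex.ext <;> simp
    rw [e, norm_mul, Complex.norm_I, mul_one, Complex.norm_real]
    exact hη
  have hω := (hθ _ hz _ hz' hd _ _ (D.sol_fix hU n hz) (D.sol_fix hU n hz')).2
  have hlip : ∀ v, ‖D.Zn n ⟨E, η⟩ v - D.Zn n ⟨E, η'⟩ v‖ ≤ L := by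
    intro v
    refine (Zf_lip hZ hCay (D.hq0 n) (D.hq1 n) (D.Un_le hU n hz) (D.Un_le hU n hz') v).trans ?_
    have : 0 < 1 - D.q n := by linarith [D.hq1 n]
    rw [hLdef]
    gcongr
    exact hω
  have key : ∀ v, |Pf d D.fI η E v - Pf d D.fI η' E v|
      ≤ 2 * ‖D.Zi ⟨E, η⟩ v - D.Zn n ⟨E, η⟩ v‖
        + (2 * ‖D.Zi ⟨E, η'⟩ v - D.Zn n ⟨E, η'⟩ v‖ + 2 * L) := by
    intro v
    rw [Pf_eq, Pf_eq]
    have e1 : 2 * (D.Zi ⟨E, η⟩ v).re - 1 - (2 * (D.Zi ⟨E, η'⟩ v).re - 1)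
        = 2 * (D.Zi ⟨E, η⟩ v - D.Zi ⟨E, η'⟩ v).re := by
      rw [Complex.sub_re]; ring
    rw [e1, abs_mul, abs_two]
    have e2 := Complex.abs_re_le_norm (D.Zi ⟨E, η⟩ v - D.Zi ⟨E, η'⟩ v)
    have e3 : ‖D.Zi ⟨E, η⟩ v - D.Zi ⟨E, η'⟩ v‖
        ≤ ‖D.Zi ⟨E, η⟩ v - D.Zn n ⟨E, η⟩ v‖
          + ‖D.Zn n ⟨E, η⟩ v - D.Zn n ⟨E, η'⟩ v‖
          + ‖D.Zn n ⟨E, η'⟩ v - D.Zi ⟨E, η'⟩ v‖ := by
      have : D.Zi ⟨E, η⟩ v - D.Zi ⟨E, η'⟩ v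
          = (D.Zi ⟨E, η⟩ v - D.Zn n ⟨E, η⟩ v)
          + (D.Zn n ⟨E, η⟩ v - D.Zn n ⟨E, η'⟩ v)
          + (D.Zn n ⟨E, η'⟩ v - D.Zi ⟨E, η'⟩ v) := by ring
      rw [this]
      exact norm_add₃_le
    rw [norm_sub_rev (D.Zn n ⟨E, η'⟩ v)] at e3
    have e4 := hlip v
    linarith
  calc ∫ v, |Pf d D.fI η E v - Pf d D.fI η' E v| ∂(Pn ν (Fin d → ℤ))
      ≤ ∫ v, (2 * ‖D.Zi ⟨E, η⟩ v - D.Zn n ⟨E, η⟩ v‖
        + (2 * ‖D.Zi ⟨E, η'⟩ v - D.Zn n ⟨E, η'⟩ v‖ + 2 * L)) ∂(Pn ν (Fin d → ℤ)) := by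
        refine integral_mono ?_ (((i1.sub i2).norm.const_mul 2).add
          (((i1'.sub i2').norm.const_mul 2).add (integrable_const _))) key
        refine ((((i1.re).const_mul 2).sub (integrable_const 1)).sub
          (((i1'.re).const_mul 2).sub (integrable_const 1))).abs
    _ = 2 * ∫ v, ‖D.Zi ⟨E, η⟩ v - D.Zn n ⟨E, η⟩ v‖ ∂(Pn ν (Fin d → ℤ))
        + (2 * ∫ v, ‖D.Zi ⟨E, η'⟩ v - D.Zn n ⟨E, η'⟩ v‖ ∂(Pn ν (Fin d → ℤ)) + 2 * L) := by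
        have j1 : Integrable (fun v => 2 * ‖D.Zi ⟨E, η⟩ v - D.Zn n ⟨E, η⟩ v‖)
            (Pn ν (Fin d → ℤ)) := (i1.sub i2).norm.const_mul 2
        have j2 : Integrable (fun v => 2 * ‖D.Zi ⟨E, η'⟩ v - D.Zn n ⟨E, η'⟩ v‖)
            (Pn ν (Fin d → ℤ)) := (i1'.sub i2').norm.const_mul 2
        have j3 : Integrable (fun v => 2 * ‖D.Zi ⟨E, η'⟩ v - D.Zn n ⟨E, η'⟩ v‖ + 2 * L)
            (Pn ν (Fin d → ℤ)) := j2.add (integrable_const _)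
        rw [integral_add j1 j3, integral_add j2 (integrable_const _),
          integral_const_mul, integral_const_mul]
        simp
    _ ≤ 2 * (D.p n / (32 * 8 ^ n)) + (2 * (D.p n / (32 * 8 ^ n)) + 2 * L) := by gcongr
    _ = 2 * (D.p n / (16 * 8 ^ n) + L) := by
        have : D.p n / (32 * 8 ^ n) = D.p n / (16 * 8 ^ n) / 2 := by field_simp; ring
        rw [this]; ring

theorem rarely_small (hX : S_CX) (hUU : S_UUC) (hL : S_SCL) (hZ : S_ZF) (hCay : S_CAY)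
    (hM : S_MZP) (hU : S_UNI) (n : ℕ) {η E : ℝ} (hz : (⟨E, η⟩ : ℂ) ∈ Zs d) :
    ((Pn ν (Fin d → ℤ)) {v | Pf d D.fI η E v < D.p n}).toReal ≤ 1 / 4 ^ n := by
  have hp := D.hp n
  have c1 := D.mean_close hX hUU hL hZ hCay hM hU hz n
  have i1 := D.int_Zi hX hUU hL hZ hCay hM hU hz
  have i2 := D.int_Zn hZ hCay hM hU n hz
  have hsub : {v | Pf d D.fI η E v < D.p n} ⊆
      {v | D.p n / 2 ≤ ‖D.Zi ⟨E, η⟩ v - D.Zn n ⟨E, η⟩ v‖} := by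
    intro v hv
    have h1 := Zf_pos hZ hCay (D.hq0 n) (D.hq1 n) (D.Un_le hU n hz) v
    have h2 : Pf d D.fI η E v < D.p n := hv
    have h3 := Complex.abs_re_le_norm (D.Zi ⟨E, η⟩ v - D.Zn n ⟨E, η⟩ v)
    rw [Complex.sub_re] at h3
    have h4 := neg_abs_le ((D.Zi ⟨E, η⟩ v).re - (D.Zn n ⟨E, η⟩ v).re)
    have h5 : (1 - D.q n ^ 2) / 4 ≤ 2 * (D.Zn n ⟨E, η⟩ v).re - 1 := h1
    have h6 := D.hq2 n
    rw [Pf_eq] at h2
    change D.p n / 2 ≤ _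
    linarith
  have hmk := mul_meas_ge_le_integral_of_nonneg (μ := Pn ν (Fin d → ℤ))
    (ae_of_all _ fun v => norm_nonneg (D.Zi ⟨E, η⟩ v - D.Zn n ⟨E, η⟩ v))
    (i1.sub i2).norm (D.p n / 2)
  have h5 : ((Pn ν (Fin d → ℤ)) {v | Pf d D.fI η E v < D.p n}).toReal
      ≤ ((Pn ν (Fin d → ℤ)) {v | D.p n / 2 ≤ ‖D.Zi ⟨E, η⟩ v - D.Zn n ⟨E, η⟩ v‖}).toReal :=
    ENNReal.toReal_mono (measure_ne_top _ _) (measure_mono hsub)
  refine h5.trans ?_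
  have h6 : (D.p n / 2) * ((Pn ν (Fin d → ℤ)) {v | D.p n / 2
        ≤ ‖D.Zi ⟨E, η⟩ v - D.Zn n ⟨E, η⟩ v‖}).toReal
      ≤ D.p n / (32 * 8 ^ n) := by
    refine le_trans ?_ c1
    exact hmk
  have h7 : D.p n / (32 * 8 ^ n) ≤ (D.p n / 2) * (1 / 4 ^ n) := by
    have h8 : (4 : ℝ) ^ n ≤ 8 ^ n := pow_le_pow_left₀ (by norm_num) (by norm_num) n
    have h9 : (0 : ℝ) < 4 ^ n := by positivity
    calc D.p n / (32 * 8 ^ n) ≤ D.p n / (2 * 4 ^ n) := by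
          apply div_le_div_of_nonneg_left hp.le (by positivity)
          linarith
      _ = _ := by field_simp
  exact le_of_mul_le_mul_left (h6.trans h7) (by positivity)

/-- Conclusion for a chain. -/
theorem concl (hX : S_CX) (hUU : S_UUC) (hL : S_SCL) (hZ : S_ZF) (hCay : S_CAY)
    (hM : S_MZP) (hU : S_UNI) :
    ∃ (f : C(ℝ, ℝ)) (η p : ℕ → ℝ), (∀ t, |f t - t| ≤ D.T 0) ∧ (∀ n, 0 < η n ∧ η n ≤ 1) ∧
      Tendsto η atTop (𝓝 0) ∧ (∀ n, 0 < p n) ∧ Antitone p ∧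
      ∀ (n : ℕ) (E : ℝ), 0 ≤ E → E ≤ 4 * d →
        ∫ v, |Pf d f (η (n + 1)) E v - Pf d f (η n) E v| ∂(Pn ν (Fin d → ℤ)) ≤ p n / 4 ^ n ∧
        (Pn ν (Fin d → ℤ) {v | Pf d f (η n) E v < p n}).toReal ≤ 1 / 4 ^ n := by
  have hθ : ∀ n, ∃ θ : ℝ, 0 < θ ∧ ∀ z ∈ Zs d, ∀ z' ∈ Zs d, ‖z - z'‖ ≤ θ → ∀ s s',
      IsFix ν (D.ρ n) (wz (fK (D.f n) d) z) s → IsFix ν (D.ρ n) (wz (fK (D.f n) d) z') s' →
        ‖s - s'‖ ≤ (1 - D.q n) ^ 2 * (D.p n / (8 * 4 ^ n)) ∧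
          ‖UU (D.ρ n) (wz (fK (D.f n) d) z) s - UU (D.ρ n) (wz (fK (D.f n) d) z') s'‖
            ≤ (1 - D.q n) ^ 2 * (D.p n / (8 * 4 ^ n)) := by
    intro n
    have := D.hρ1 n
    have h1 : 0 < 1 - D.q n := by linarith [D.hq1 n]
    have h2 := D.hp n
    exact (hU ν d (D.ρ n) (D.T n) D.σ (fK (D.f n) d) D.hv (D.hρ3 n) (D.hρ4 n) D.hσ
      (D.gap n)).2.2 _ (by positivity)
  choose θ hθ0 hθ1 using hθ
  obtain ⟨η, hη0, hη1, hηa, hηle, hηt⟩ := exists_eta θ hθ0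
  refine ⟨D.fI, η, D.p, D.fI_id, fun n => ⟨hη0 n, hη1 n⟩, hηt, D.hp, D.p_anti, fun n E h0 h1 => ?_⟩
  have hz : ∀ m, (⟨E, η m⟩ : ℂ) ∈ Zs d := fun m => ⟨h0, h1, hη0 m, hη1 m⟩
  refine ⟨?_, D.rarely_small hX hUU hL hZ hCay hM hU n (hz n)⟩
  have hab : |η (n + 1) - η n| ≤ θ n := by
    rw [abs_le]
    have := hηa (Nat.le_succ n)
    have := hηle n
    have := hη0 (n + 1)
    have := hη0 n
    constructor <;> linarith
  refine (D.mean_diff hX hUU hL hZ hCay hM hU n (hz (n + 1)) (hz n) (hθ1 n) hab).trans ?_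
  have h2 : 0 < 1 - D.q n := by linarith [D.hq1 n]
  have h3 := D.hp n
  have h4 : (1 - D.q n) ^ 2 * (D.p n / (8 * 4 ^ n)) / (1 - D.q n) ^ 2 = D.p n / (8 * 4 ^ n) := by
    field_simp
  rw [h4]
  have h5 : D.p n / (16 * 8 ^ n) ≤ D.p n / (8 * 4 ^ n) := by
    have h8 : (4 : ℝ) ^ n ≤ 8 ^ n := pow_le_pow_left₀ (by norm_num) (by norm_num) n
    have h9 : (0 : ℝ) < 4 ^ n := by positivity
    apply div_le_div_of_nonneg_left h3.le (by positivity)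
    linarith
  have h6 : D.p n / 4 ^ n = 8 * (D.p n / (8 * 4 ^ n)) := by field_simp
  have h7 : 0 ≤ D.p n / (8 * 4 ^ n) := by positivity
  linarith

end CD

end

end Pool.Agent.W792.WA.Ch
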