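import Pool.Agent.W792.WA.G5

/-!
One `f` for all laws and all small couplings: construction.
-/

namespace Pool.Agent.W792.WA.Ch

open MeasureTheory Filter Pool.Agent.W792.LL Pool.Agent.W792.WA
open scoped Topology

noncomputable section

/-- A sequence of levels. -/
structure Lv (ψ : C(UnitAddCircle, ℝ)) where
  /-- levels -/
  l : ℕ → ℝ
  /-- tails -/
  T : ℕ → ℝ
  /-- kinetic energies -/
  f : ℕ → C(ℝ, ℝ)
  /-- frequencies -/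
  M : ℕ → ℕ
  hψ : ∀ t, |ψ t| ≤ 1
  hl : ∀ n, 0 < l n
  hT : ∀ n, l n + T (n + 1) ≤ T n
  hTp : ∀ n, 0 ≤ T n
  f0 : f 0 = ContinuousMap.id ℝ
  fs : ∀ n, f (n + 1) = nx ψ (f n) (l n) (M n)

namespace Lv

variable {ψ : C(UnitAddCircle, ℝ)} (D : Lv ψ)

theorem fs_apply (n : ℕ) (t : ℝ) : D.f (n + 1) t
    = D.f n t + D.l n * ψ ((D.M n * t / (2 * Real.pi) : ℝ) : UnitAddCircle) := by
  rw [D.fs n]; rfl

theorem term_le (n : ℕ) (t : UnitAddCircle) : |D.l n * ψ t| ≤ D.l n := by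
  rw [abs_mul, abs_of_pos (D.hl n)]
  exact mul_le_of_le_one_right (D.hl n).le (D.hψ t)

theorem T_anti : Antitone D.T :=
  antitone_nat_of_succ_le fun n => by linarith [D.hT n, D.hl n]

theorem sum_l (n m : ℕ) : ∑ j ∈ Finset.range m, D.l (n + j) ≤ D.T n - D.T (n + m) := by
  induction m with
  | zero => simp
  | succ m ih =>
    rw [Finset.sum_range_succ]
    have := D.hT (n + m)
    have e : n + (m + 1) = n + m + 1 := by omega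
    rw [e]
    linarith

theorem summable_l : Summable D.l := by
  refine summable_of_sum_range_le (c := D.T 0) (fun n => (D.hl n).le) fun m => ?_
  have h1 := D.sum_l 0 m
  have h2 := D.hTp (0 + m)
  simp only [zero_add] at h1 h2
  linarith

theorem f_eq (n : ℕ) (t : ℝ) : D.f n t = t + ∑ j ∈ Finset.range n,
    D.l j * ψ ((D.M j * t / (2 * Real.pi) : ℝ) : UnitAddCircle) := by
  induction n with
  | zero => rw [D.f0]; simp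
  | succ n ih => rw [D.fs_apply, ih, Finset.sum_range_succ]; ring

theorem f_diff (n m : ℕ) (t : ℝ) : |D.f (n + m) t - D.f n t| ≤ D.T n := by
  have h : |D.f (n + m) t - D.f n t| ≤ ∑ j ∈ Finset.range m, D.l (n + j) := by
    induction m with
    | zero => simp
    | succ m ih =>
      have e : n + (m + 1) = n + m + 1 := by omega
      rw [e, D.fs_apply, Finset.sum_range_succ]
      have h1 := D.term_le (n + m) ((D.M (n + m) * t / (2 * Real.pi) : ℝ) : UnitAddCircle)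
      calc _ = |(D.f (n + m) t - D.f n t)
            + D.l (n + m) * ψ ((D.M (n + m) * t / (2 * Real.pi) : ℝ) : UnitAddCircle)| := by
              congr 1; ring
        _ ≤ _ := abs_add_le _ _
        _ ≤ _ := add_le_add ih h1
  have h1 := D.sum_l n m
  have h2 := D.hTp (n + m)
  linarith

/-- The limit function. -/
def fI : C(ℝ, ℝ) where
  toFun t := t + ∑' j, D.l j * ψ ((D.M j * t / (2 * Real.pi) : ℝ) : UnitAddCircle)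
  continuous_toFun := by
    refine continuous_id.add (continuous_tsum (u := D.l) (fun j => ?_) D.summable_l ?_)
    · have h : Continuous fun t : ℝ => ((D.M j * t / (2 * Real.pi) : ℝ) : UnitAddCircle) :=
        (AddCircle.continuous_mk' (1 : ℝ)).comp (by fun_prop)
      exact continuous_const.mul (ψ.continuous.comp h)
    · intro j t
      exact D.term_le j _

theorem f_tendsto (t : ℝ) : Tendsto (fun n => D.f n t) atTop (𝓝 (D.fI t)) := by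
  have h1 : Summable fun j => D.l j * ψ ((D.M j * t / (2 * Real.pi) : ℝ) : UnitAddCircle) :=
    Summable.of_norm_bounded D.summable_l fun j => D.term_le j _
  refine (h1.hasSum.tendsto_sum_nat.const_add t).congr fun n => ?_
  rw [D.f_eq]

theorem fI_diff (n : ℕ) (t : ℝ) : |D.fI t - D.f n t| ≤ D.T n := by
  have h1 : Tendsto (fun m => |D.f (n + m) t - D.f n t|) atTop (𝓝 |D.fI t - D.f n t|) := by
    have h2 := (D.f_tendsto t).comp (tendsto_add_atTop_nat n)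
    have h3 : Tendsto (fun m => D.f (n + m) t) atTop (𝓝 (D.fI t)) := by
      refine h2.congr fun m => ?_
      simp [Function.comp, add_comm]
    exact (h3.sub_const _).abs
  exact le_of_tendsto' h1 fun m => D.f_diff n m t

theorem fI_id (t : ℝ) : |D.fI t - t| ≤ D.T 0 := by
  have := D.fI_diff 0 t
  rwa [D.f0] at this

theorem f_id (n : ℕ) (t : ℝ) : |D.f n t - t| ≤ D.T 0 := by
  have := D.f_diff 0 n t
  rwa [zero_add, D.f0] at this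

end Lv

theorem exists_lb (a : ℕ → ℝ) (ha : ∀ n, 0 < a n) (n : ℕ) : ∃ σ : ℝ, 0 < σ ∧ ∀ j ≤ n, σ ≤ a j := by
  induction n with
  | zero => exact ⟨a 0, ha 0, fun j hj => by rw [Nat.le_zero.1 hj]⟩
  | succ n ih =>
    obtain ⟨σ, h1, h2⟩ := ih
    refine ⟨min σ (a (n + 1)), lt_min h1 (ha _), fun j hj => ?_⟩
    rcases Nat.lt_or_ge n j with h | h
    · have : j = n + 1 := by omega
      rw [this]; exact min_le_right _ _
    · exact (min_le_left _ _).trans (h2 j h)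

theorem TB_mono {A B : Set MX} (h : A ⊆ B) (hB : TB B) : TB A := by
  intro τ hτ
  obtain ⟨F, hF, h1⟩ := hB τ hτ
  exact ⟨F, hF, fun X hX => h1 X (h hX)⟩

theorem Mo_mono {δ δ' : ℝ} (h : δ ≤ δ') : Mo δ ⊆ Mo δ' :=
  fun _ hX => ⟨hX.1, fun u => (hX.2 u).trans h⟩

theorem Mo_ae {δ : ℝ} {X : MX} (hX : X ∈ Mo δ) : ∀ᵐ x ∂(qlaw X), |x| ≤ δ := by
  refine (ae_map_iff (p := fun x => |x| ≤ δ) X.2.aemeasurable
    (measurableSet_le measurable_id.abs measurable_const)).2 ?_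
  exact ae_of_all _ fun u => hX.2 u

/-- Laws entering at stage `n`. -/
def En (δ : ℕ → ℝ) (n : ℕ) : Set MX :=
  {X | ∃ δ' : ℝ, δ (n + 1) ≤ δ' ∧ δ' ≤ δ n ∧ X ∈ Mo δ' ∧ 1 / ((n : ℝ) + 1) * δ' ^ 2 ≤ vr (qlaw X)}

/-- Laws controlled at stage `n`. -/
def Xn (δ : ℕ → ℝ) (n : ℕ) : Set MX := {X | ∃ j ≤ n, X ∈ En δ j}

theorem Xn_vr {δ : ℕ → ℝ} (hδ : ∀ n, 0 < δ n) {n : ℕ} {X : MX} (hX : X ∈ Xn δ n) :
    0 < vr (qlaw X) := by
  obtain ⟨j, -, δ', h1, -, -, h4⟩ := hX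
  have := hδ (j + 1)
  refine lt_of_lt_of_le ?_ h4
  have h5 : 0 < δ' := by linarith
  positivity

theorem Xn_TB (hN : S_NETX) {δ : ℕ → ℝ} (hδ : ∀ n, 0 < δ n) (ha : Antitone δ) (n : ℕ) :
    TB (Xn δ n) := by
  refine TB_mono ?_ (hN (δ 0) (hδ 0))
  rintro X ⟨j, -, δ', -, h2, h3, -⟩
  exact Mo_mono (h2.trans (ha (Nat.zero_le j))) h3

/-- Invariant of stage `n`. -/
def InvU (d : ℕ) (ρ : ℕ → Measure ℝ) (J : ℝ) (δ se : ℕ → ℝ) (n : ℕ) (a : C(ℝ, ℝ) × ℝ) : Prop :=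
  (∀ j ≤ n, ∀ X ∈ En δ j, Gap (qlaw X) d (ρ n) a.1 (se j * (1 / 2 + 1 / 2 ^ (n + 1)))) ∧
  (∀ z ∈ Zs d, J * (1 / 2 + 1 / 2 ^ (n + 1)) ≤ jf (ρ n) (fK a.1 d) z) ∧ 0 < a.2 ∧
  ∃ q : ℝ, 0 ≤ q ∧ q < 1 ∧ a.2 ≤ (1 - q ^ 2) / 8 ∧ ∀ X ∈ Xn δ n, Ctr (qlaw X) d (ρ n) a.1 q

/-- Relation of two stages. -/
def RelU (d : ℕ) (ψ : C(UnitAddCircle, ℝ)) (l : ℕ → ℝ) (ρ : ℕ → Measure ℝ) (δ : ℕ → ℝ) (n : ℕ)
    (a b : C(ℝ, ℝ) × ℝ) : Prop :=
  (∃ M : ℕ, b.1 = nx ψ a.1 (l n) M) ∧ b.2 ≤ a.2 ∧ ∀ X ∈ Xn δ n, ∀ z ∈ Zs d, ∀ s s',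
    IsFix (qlaw X) (ρ n) (wz (fK a.1 d) z) s →
    IsFix (qlaw X) (ρ (n + 1)) (wz (fK b.1 d) z) s' →
      ∫ v, ‖Zf (UU (ρ n) (wz (fK a.1 d) z) s) (fun x => cay (v x))
        - Zf (UU (ρ (n + 1)) (wz (fK b.1 d) z) s') (fun x => cay (v x))‖
          ∂(Pn (qlaw X) (Fin d → ℤ)) ≤ a.2 / (64 * 8 ^ n)

/-- Data fixed in advance. -/
structure Pr (d : ℕ) (ψ : C(UnitAddCircle, ℝ)) where
  /-- levels -/
  l : ℕ → ℝ
  /-- laws of the future levels -/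
  ρ : ℕ → Measure ℝ
  /-- tails -/
  T : ℕ → ℝ
  /-- lower bound -/
  J : ℝ
  /-- sizes -/
  δ : ℕ → ℝ
  /-- constants -/
  c : ℕ → ℝ
  hl : ∀ n, 0 < l n
  hρ1 : ∀ n, IsProbabilityMeasure (ρ n)
  hρ2 : ∀ n, ρ n = (lev ψ (l n)).conv (ρ (n + 1))
  hρ3 : ∀ n, ρ n (Set.Icc (-(T n)) (T n))ᶜ = 0
  hρ4 : ∀ (n : ℕ) (a b : ℝ), ρ n {a, b} < 1
  hJ : 0 < J
  hJ0 : ∀ z ∈ Zs d, J ≤ jf (ρ 0) (lap d) z
  hδ : ∀ n, 0 < δ n
  hδa : Antitone δ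
  hc : ∀ n, 0 < c n
  hbase : ∀ (n : ℕ) (X : MX) (δ' : ℝ), 0 < δ' → δ' ≤ δ n → X ∈ Mo δ' →
    1 / ((n : ℝ) + 1) * δ' ^ 2 ≤ vr (qlaw X) → ∀ (K : C(UnitAddTorus (Fin d), ℝ)) (z : ℂ),
    0 < z.im → J / 2 ≤ jf (ρ n) K z → ∀ s : C(UnitAddTorus (Fin d), ℂ),
    IsFix (qlaw X) (ρ n) (wz K z) s → ‖s‖ ≤ 1 - c n * δ' ^ 2

namespace Pr

variable {d : ℕ} {ψ : C(UnitAddCircle, ℝ)} (D : Pr d ψ)

/-- Gaps at the entry. -/
def se (n : ℕ) : ℝ := D.c n * D.δ (n + 1) ^ 2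

theorem se_pos (n : ℕ) : 0 < D.se n := by
  have := D.hc n
  have := D.hδ (n + 1)
  unfold se; positivity

theorem entry (n : ℕ) {K : C(UnitAddTorus (Fin d), ℝ)}
    (hK : ∀ z ∈ Zs d, D.J / 2 ≤ jf (D.ρ n) K z) {X : MX} (hX : X ∈ En D.δ n) :
    ∀ z ∈ Zs d, ∀ s, IsFix (qlaw X) (D.ρ n) (wz K z) s →
      ‖s‖ ≤ 1 - D.se n * (1 / 2 + 1 / 2 ^ (n + 1)) := by
  intro z hz s hs
  obtain ⟨δ', h1, h2, h3, h4⟩ := hX
  have h5 := D.hδ (n + 1)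
  have h6 := D.hbase n X δ' (by linarith) h2 h3 h4 K z hz.2.2.1 (hK z hz) s hs
  have h7 : D.se n ≤ D.c n * δ' ^ 2 := by
    have := D.hc n
    unfold se
    gcongr
  have h8 : D.se n * (1 / 2 + 1 / 2 ^ (n + 1)) ≤ D.se n * 1 := by
    have h9 : (1 : ℝ) / 2 ^ (n + 1) ≤ 1 / 2 := by
      apply one_div_le_one_div_of_le (by norm_num)
      rw [pow_succ]
      have : (1 : ℝ) ≤ 2 ^ n := one_le_pow₀ (by norm_num)
      linarith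
    have := D.se_pos n
    gcongr
    linarith
  linarith

/-- Uniform gap. -/
theorem ugap {n : ℕ} {f : C(ℝ, ℝ)}
    (h : ∀ j ≤ n, ∀ X ∈ En D.δ j, Gap (qlaw X) d (D.ρ n) f (D.se j * (1 / 2 + 1 / 2 ^ (n + 1)))) :
    ∃ σ : ℝ, 0 < σ ∧ (∀ j ≤ n, σ ≤ D.se j / 2) ∧ ∀ X ∈ Xn D.δ n, Gap (qlaw X) d (D.ρ n) f σ := by
  obtain ⟨σ, h1, h2⟩ := exists_lb (fun j => D.se j / 2) (fun j => by
    have := D.se_pos j
    positivity) n
  refine ⟨σ, h1, h2, ?_⟩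
  rintro X ⟨j, hj, hX⟩ z hz s hs
  have h3 := h j hj X hX z hz s hs
  have h4 := h2 j hj
  have h5 : 0 < D.se j * (1 / 2 ^ (n + 1)) := by
    have := D.se_pos j
    positivity
  linarith

theorem ctr (hU2 : S_UNI2) {n : ℕ} {f : C(ℝ, ℝ)}
    (h : ∀ j ≤ n, ∀ X ∈ En D.δ j, Gap (qlaw X) d (D.ρ n) f (D.se j * (1 / 2 + 1 / 2 ^ (n + 1)))) :
    ∃ q : ℝ, 0 ≤ q ∧ q < 1 ∧ ∀ X ∈ Xn D.δ n, Ctr (qlaw X) d (D.ρ n) f q := by
  obtain ⟨σ, h1, -, h2⟩ := D.ugap h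
  have := D.hρ1 n
  obtain ⟨q, h3, h4, h5⟩ := (hU2 d (D.ρ n) (D.T n) σ (fK f d) (D.hρ3 n) (D.hρ4 n) h1).1
  exact ⟨q, h3, h4, fun X hX => (h5 (qlaw X) (Xn_vr D.hδ hX) (h2 X hX)).2⟩

theorem init (hU2 : S_UNI2) : ∃ a, InvU d D.ρ D.J D.δ D.se 0 a ∧ (0 = 0 → a.1 = ContinuousMap.id ℝ) := by
  have h0 : ∀ j ≤ 0, ∀ X ∈ En D.δ j, Gap (qlaw X) d (D.ρ 0) (ContinuousMap.id ℝ)
      (D.se j * (1 / 2 + 1 / 2 ^ (0 + 1))) := by
    intro j hj X hX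
    obtain rfl := Nat.le_zero.1 hj
    refine D.entry 0 (fun z hz => ?_) hX
    rw [fK_id]
    have := D.hJ0 z hz
    have := D.hJ
    linarith
  obtain ⟨q, hq0, hq1, hq2⟩ := D.ctr hU2 h0
  have hq3 : 0 < (1 - q ^ 2) / 8 := by
    have : q ^ 2 < 1 := by nlinarith
    linarith
  refine ⟨(ContinuousMap.id ℝ, (1 - q ^ 2) / 8), ⟨h0, fun z hz => ?_, hq3, q, hq0, hq1, le_rfl,
    hq2⟩, fun _ => rfl⟩
  have e : D.J * (1 / 2 + 1 / 2 ^ (0 + 1)) = D.J := by ring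
  rw [e]
  exact D.hJ0 z hz

theorem step (hU2 : S_UNI2) (hS2 : S_STEP2) (hJS : S_JSTEP) (hN : S_NETX) (hd : 0 < d)
    (hψ : IsSemi ψ) (n : ℕ) (a : C(ℝ, ℝ) × ℝ) (ha : InvU d D.ρ D.J D.δ D.se n a) :
    ∃ b, InvU d D.ρ D.J D.δ D.se (n + 1) b ∧ RelU d ψ D.l D.ρ D.δ n a b := by
  obtain ⟨h1, h2, h3, -⟩ := ha
  obtain ⟨σ, hσ, hσ1, hσ2⟩ := D.ugap h1
  have i0 := D.hρ1 n
  have i1 := D.hρ1 (n + 1)
  have i2 := D.hρ1 (n + 1 + 1)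
  have hJ := D.hJ
  set e : ℝ := min (a.2 / (64 * 8 ^ n)) (σ / 2 ^ (n + 1)) with he
  have he0 : 0 < e := lt_min (by positivity) (by positivity)
  have hσ2' : ∀ X ∈ Xn D.δ n, ∀ z ∈ Zs d, ∀ s,
      IsFix (qlaw X) ((lev ψ (D.l n)).conv (D.ρ (n + 1))) (wz (fK a.1 d) z) s → ‖s‖ ≤ 1 - σ := by
    rw [← D.hρ2 n]; exact hσ2
  obtain ⟨M₁, hM₁⟩ := hS2 d ψ (D.ρ (n + 1)) (D.T (n + 1)) σ (D.l n) (fK a.1 d) (Xn D.δ n) hd hψ
    (fun X hX => Xn_vr D.hδ hX) (Xn_TB hN D.hδ D.hδa n) (D.hρ3 (n + 1)) (D.hρ4 (n + 1)) (D.hl n)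
    hσ hσ2' e he0
  obtain ⟨M₂, hM₂⟩ := hJS ψ hψ d (fK a.1 d) (D.l n) (D.l (n + 1)) (D.T (n + 1 + 1))
    (D.ρ (n + 1 + 1)) hd (D.hl n) (D.hl (n + 1)) (D.hρ3 _) (D.J / 2 ^ (n + 2)) (by positivity)
  have hM1 := hM₁ (max M₁ M₂) (le_max_left _ _)
  have hM2 := hM₂ (max M₁ M₂) (le_max_right _ _)
  rw [← D.hρ2 n] at hM1
  rw [← D.hρ2 (n + 1), ← D.hρ2 n] at hM2
  set M := max M₁ M₂ with hM
  have hjf : ∀ z ∈ Zs d, D.J * (1 / 2 + 1 / 2 ^ (n + 1 + 1))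
      ≤ jf (D.ρ (n + 1)) (fK (nx ψ a.1 (D.l n) M) d) z := by
    intro z hz
    have h4 := h2 z hz
    have h5 := hM2 z hz
    rw [fK_nx]
    have h6 : D.J * (1 / 2 + 1 / 2 ^ (n + 1)) = D.J * (1 / 2 + 1 / 2 ^ (n + 1 + 1))
        + D.J / 2 ^ (n + 2) := by
      field_simp
      ring
    linarith
  have hgap : ∀ j ≤ n + 1, ∀ X ∈ En D.δ j, Gap (qlaw X) d (D.ρ (n + 1))
      (nx ψ a.1 (D.l n) M) (D.se j * (1 / 2 + 1 / 2 ^ (n + 1 + 1))) := by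
    intro j hj X hX
    rcases Nat.lt_or_ge n j with h | h
    · obtain rfl : j = n + 1 := by omega
      refine D.entry (n + 1) (fun z hz => ?_) hX
      refine le_trans ?_ (hjf z hz)
      have : 0 < D.J * (1 / 2 ^ (n + 1 + 1)) := by positivity
      linarith
    · intro z hz s' hs'
      have hXn : X ∈ Xn D.δ n := ⟨j, h, hX⟩
      have hex := ((hU2 d (D.ρ n) (D.T n) σ (fK a.1 d) (D.hρ3 n) (D.hρ4 n) hσ).1.choose_spec.2.2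
        (qlaw X) (Xn_vr D.hδ hXn) (hσ2 X hXn)).1 z hz
      obtain ⟨s, hs, -⟩ := hex
      have h4 := (hM1 X hXn z hz s s' hs hs').1
      have h5 := h1 j h X hX z hz s hs
      have h6 : ‖s'‖ ≤ ‖s‖ + ‖s - s'‖ := by
        have := norm_sub_le s (s - s')
        rwa [sub_sub_cancel] at this
      have h7 : e ≤ σ / 2 ^ (n + 1) := min_le_right _ _
      have h8 : σ / 2 ^ (n + 1) ≤ D.se j / 2 / 2 ^ (n + 1) := by
        have := hσ1 j h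
        gcongr
      have h9 : D.se j * (1 / 2 + 1 / 2 ^ (n + 1)) = D.se j * (1 / 2 + 1 / 2 ^ (n + 1 + 1))
          + D.se j / 2 / 2 ^ (n + 1) := by
        field_simp
        ring
      linarith
  obtain ⟨q, hq0, hq1, hq2⟩ := D.ctr hU2 hgap
  have hq3 : 0 < (1 - q ^ 2) / 8 := by
    have : q ^ 2 < 1 := by nlinarith
    linarith
  refine ⟨(nx ψ a.1 (D.l n) M, min a.2 ((1 - q ^ 2) / 8)), ⟨hgap, hjf, lt_min h3 hq3,
    q, hq0, hq1, min_le_right _ _, hq2⟩, ⟨M, rfl⟩, min_le_left _ _, ?_⟩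
  intro X hX z hz s s' hs hs'
  exact (hM1 X hX z hz s s' hs hs').2.trans (min_le_left _ _)

end Pr

end

end Pool.Agent.W792.WA.Ch
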