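import Pool.Agent.W792.WA.G6

/-!
One `f` for all laws and all small couplings: conclusion of the construction.
-/

namespace Pool.Agent.W792.WA.Ch

open MeasureTheory Filter Pool.Agent.W792.LL Pool.Agent.W792.WA
open scoped Topology

noncomputable section

/-- The conclusion for one law. -/
def Goal (d : ℕ) (f : C(ℝ, ℝ)) (ν : Measure ℝ) [IsProbabilityMeasure ν] : Prop :=
  ∃ η p : ℕ → ℝ, (∀ n, 0 < η n ∧ η n ≤ 1) ∧
      Tendsto η atTop (𝓝 0) ∧ (∀ n, 0 < p n) ∧ Antitone p ∧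
      ∀ (n : ℕ) (E : ℝ), 0 ≤ E → E ≤ 4 * d →
        ∫ v, |Pf d f (η (n + 1)) E v - Pf d f (η n) E v| ∂(Pn ν (Fin d → ℤ)) ≤ p n / 4 ^ n ∧
        (Pn ν (Fin d → ℤ) {v | Pf d f (η n) E v < p n}).toReal ≤ 1 / 4 ^ n

theorem Goal_congr {d : ℕ} {f : C(ℝ, ℝ)} {ν ν' : Measure ℝ} [i : IsProbabilityMeasure ν]
    [i' : IsProbabilityMeasure ν'] (h : ν = ν') (hG : Goal d f ν) : Goal d f ν' := by
  subst h
  exact hG

theorem exists_Pr (hF : S_FUT) (hJ0 : S_J0) (hB : S_BASE3) {d : ℕ} (hd : 0 < d)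
    {ψ : C(UnitAddCircle, ℝ)} (hψ : IsSemi ψ) {r : ℝ} (hr : 0 < r) :
    ∃ D : Pr d ψ, D.l = (fun n => r * (1 / 16) ^ n) ∧ D.T = (fun n => 2 * r * (1 / 16) ^ n) ∧
      Tendsto D.δ atTop (𝓝 0) := by
  set l : ℕ → ℝ := fun n => r * (1 / 16) ^ n with hl
  set T : ℕ → ℝ := fun n => 2 * r * (1 / 16) ^ n with hT
  have hl0 : ∀ n, 0 < l n := fun n => by simp only [hl]; positivity
  have hsum : Summable l :=
    (summable_geometric_of_lt_one (by norm_num) (by norm_num)).mul_left r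
  obtain ⟨ρ, hρ1, hρ2, hρ3, hρ4⟩ := hF ψ hψ l hl0 hsum
  have htail : ∀ n, ∑' j, l (n + j) ≤ T n := by
    intro n
    have h1 : ∀ j, l (n + j) = (r * (1 / 16) ^ n) * (1 / 16) ^ j := by
      intro j; simp only [hl]; rw [pow_add]; ring
    simp only [h1]
    rw [tsum_mul_left, tsum_geometric_of_lt_one (by norm_num) (by norm_num)]
    have h2 : 0 < r * (1 / 16 : ℝ) ^ n := by positivity
    simp only [hT]
    have h3 : ((1 : ℝ) - 1 / 16)⁻¹ ≤ 2 := by norm_num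
    calc r * (1 / 16 : ℝ) ^ n * (1 - 1 / 16)⁻¹ ≤ r * (1 / 16 : ℝ) ^ n * 2 := by gcongr
      _ = 2 * r * (1 / 16) ^ n := by ring
  have hρ3' : ∀ n, ρ n (Set.Icc (-(T n)) (T n))ᶜ = 0 := by
    intro n
    refine measure_mono_null (Set.compl_subset_compl.2 ?_) (hρ3 n)
    have := htail n
    exact Set.Icc_subset_Icc (by linarith) this
  obtain ⟨J, hJ, hJ1⟩ := hJ0 ψ hψ r d hr hd
  have hJ2 : ∀ z ∈ Zs d, J ≤ jf (ρ 0) (lap d) z := by
    intro z hz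
    have := hρ1 (0 + 1)
    have h0 : l 0 = r := by simp [hl]
    rw [hρ2 0, h0]
    refine hJ1 (ρ (0 + 1)) ?_ z hz
    have h1 : T (0 + 1) = r / 8 := by simp only [hT]; ring
    have := hρ3' (0 + 1)
    rwa [h1] at this
  have hB' : ∀ n : ℕ, ∃ δ₂ c : ℝ, 0 < δ₂ ∧ 0 < c ∧ ∀ (ν : Measure ℝ) [IsProbabilityMeasure ν]
      (δ : ℝ) (d : ℕ) (K : C(UnitAddTorus (Fin d), ℝ)) (ρ' : Measure ℝ) [IsProbabilityMeasure ρ']
      (C : ℝ) (z : ℂ), 0 < δ → δ ≤ δ₂ → (∀ᵐ x ∂ν, |x| ≤ δ) →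
      1 / ((n : ℝ) + 1) * δ ^ 2 ≤ vr ν → ρ' (Set.Icc (-C) C)ᶜ = 0 →
      0 < z.im → J / 2 ≤ jf ((lev ψ (l n)).conv ρ') K z →
      ∀ s : C(UnitAddTorus (Fin d), ℂ), IsFix ν ((lev ψ (l n)).conv ρ') (wz K z) s →
        ‖s‖ ≤ 1 - c * δ ^ 2 := fun n =>
    hB ψ hψ (l n) (J / 2) (1 / ((n : ℝ) + 1)) (hl0 n) (by positivity) (by positivity)
  choose δ₂ c hδ₂ hc hB2 using hB'
  obtain ⟨δ, hδ0, -, hδa, hδle, hδt⟩ := exists_eta δ₂ hδ₂
  refine ⟨{
    l := l, ρ := ρ, T := T, J := J, δ := δ, c := c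
    hl := hl0
    hρ1 := hρ1
    hρ2 := hρ2
    hρ3 := hρ3'
    hρ4 := hρ4
    hJ := hJ
    hJ0 := hJ2
    hδ := hδ0
    hδa := hδa
    hc := hc
    hbase := ?_ }, rfl, rfl, hδt⟩
  intro n X δ' h1 h2 h3 h4 K z hz hK s hs
  have i1 := hρ1 (n + 1)
  rw [hρ2 n] at hK hs
  exact hB2 n (qlaw X) δ' d K (ρ (n + 1)) (T (n + 1)) z h1 (h2.trans (hδle n)) (Mo_ae h3) h4
    (hρ3' (n + 1)) hz hK s hs

/-- The main construction: one function for all classes. -/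
theorem exists_f (hX : S_CX) (hUU : S_UUC) (hL : S_SCL) (hZ : S_ZF) (hCay : S_CAY)
    (hM : S_MZP) (hU : S_UNI) (hU2 : S_UNI2) (hS2 : S_STEP2) (hJS : S_JSTEP) (hN : S_NETX)
    {d : ℕ} (hd : 0 < d) {ψ : C(UnitAddCircle, ℝ)} (hψ : IsSemi ψ) {r : ℝ} (hr : 0 < r)
    (D : Pr d ψ) (hDl : D.l = fun n => r * (1 / 16) ^ n)
    (hDT : D.T = fun n => 2 * r * (1 / 16) ^ n) :
    ∃ f : C(ℝ, ℝ), (∀ t, |f t - t| ≤ 2 * r) ∧ ∀ (n : ℕ), ∀ X ∈ En D.δ n, Goal d f (qlaw X) := by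
  obtain ⟨x, hx⟩ := exists_seq (α := C(ℝ, ℝ) × ℝ)
    (fun n a => InvU d D.ρ D.J D.δ D.se n a ∧ (n = 0 → a.1 = ContinuousMap.id ℝ))
    (fun n a b => RelU d ψ D.l D.ρ D.δ n a b) (D.init hU2) (by
      intro n a ha
      obtain ⟨b, hb1, hb2⟩ := D.step hU2 hS2 hJS hN hd hψ n a ha.1
      exact ⟨b, ⟨hb1, fun h => absurd h (Nat.succ_ne_zero n)⟩, hb2⟩)
  have hMe : ∀ n, ∃ M : ℕ, (x (n + 1)).1 = nx ψ (x n).1 (D.l n) M := fun n => (hx n).2.1
  choose M hMe using hMe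
  have hq : ∀ n, ∃ q : ℝ, 0 ≤ q ∧ q < 1 ∧ (x n).2 ≤ (1 - q ^ 2) / 8 ∧
      ∀ X ∈ Xn D.δ n, Ctr (qlaw X) d (D.ρ n) (x n).1 q := fun n => (hx n).1.1.2.2.2
  choose q hq0 hq1 hq2 hq3 using hq
  have hTp : ∀ n, 0 ≤ D.T n := fun n => by rw [hDT]; positivity
  have hTT : ∀ n, D.l n + D.T (n + 1) ≤ D.T n := by
    intro n
    rw [hDT, hDl]
    simp only
    rw [pow_succ]
    have : 0 < r * (1 / 16 : ℝ) ^ n := by positivity
    linarith
  let L : Lv ψ := {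
    l := D.l, T := D.T, f := fun n => (x n).1, M := M
    hψ := hψ.bound
    hl := D.hl
    hT := hTT
    hTp := hTp
    f0 := (hx 0).1.2 rfl
    fs := hMe }
  have hT0 : D.T 0 = 2 * r := by rw [hDT]; simp
  have hTt : Tendsto D.T atTop (𝓝 0) := by
    rw [hDT]
    have h1 := (tendsto_pow_atTop_nhds_zero_of_lt_one (by norm_num : (0 : ℝ) ≤ 1 / 16)
      (by norm_num : (1 : ℝ) / 16 < 1)).const_mul (2 * r)
    simpa using h1
  refine ⟨L.fI, fun t => (L.fI_id t).trans hT0.le, fun j X hXj => ?_⟩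
  have hXn : ∀ n, X ∈ Xn D.δ (n + j) := fun n => ⟨j, by omega, hXj⟩
  let E : CE (qlaw X) d := {
    ρ := fun n => D.ρ (n + j)
    T := fun n => D.T (n + j)
    σ := D.se j / 2
    f := fun n => (x (n + j)).1
    fI := L.fI
    B := D.T 0
    p := fun n => (x (n + j)).2
    q := fun n => q (n + j)
    hv := Xn_vr D.hδ (hXn 0)
    T_anti := fun a b hab => L.T_anti (by omega)
    hTp := fun n => hTp _
    hT0 := hTt.comp (tendsto_add_atTop_nat j)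
    hρ1 := fun n => D.hρ1 _
    hρ3 := fun n => D.hρ3 _
    hρ4 := fun n => D.hρ4 _
    hσ := by have := D.se_pos j; positivity
    gap := by
      intro n z hz s hs
      have h1 := (hx (n + j)).1.1.1 j (by omega) X hXj z hz s hs
      have h2 : 0 < D.se j * (1 / 2 ^ (n + j + 1)) := by
        have := D.se_pos j
        positivity
      linarith
    hp := fun n => (hx (n + j)).1.1.2.2.1
    anti := by
      intro n
      have e : n + 1 + j = n + j + 1 := by omega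
      rw [e]
      exact (hx (n + j)).2.2.1
    hq0 := fun n => hq0 _
    hq1 := fun n => hq1 _
    hq2 := fun n => hq2 _
    ctr := fun n => hq3 _ X (hXn n)
    fI_diff := fun n t => L.fI_diff (n + j) t
    fI_id := L.fI_id
    f_id := fun n t => L.f_id (n + j) t
    rel := by
      intro n z hz s s' hs hs'
      have e : n + 1 + j = n + j + 1 := by omega
      rw [e] at hs' ⊢
      refine ((hx (n + j)).2.2.2 X (hXn n) z hz s s' hs hs').trans ?_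
      have h1 := (hx (n + j)).1.1.2.2.1
      apply div_le_div_of_nonneg_left h1.le (by positivity)
      have h2 : (8 : ℝ) ^ n ≤ 8 ^ (n + j) := pow_le_pow_right₀ (by norm_num) (by omega)
      linarith }
  exact E.concl hX hUU hL hZ hCay hM hU

/-- Every small scale lies in one of the classes. -/
theorem find_class {δ : ℕ → ℝ} (hδt : Tendsto δ atTop (𝓝 0)) {n₀ : ℕ} {δ' : ℝ} (h0 : 0 < δ')
    (h1 : δ' ≤ δ n₀) : ∃ j, n₀ ≤ j ∧ δ (j + 1) ≤ δ' ∧ δ' ≤ δ j := by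
  classical
  have hex : ∃ m, n₀ < m ∧ δ m ≤ δ' := by
    have h2 := (hδt.eventually_lt_const h0).and (eventually_gt_atTop n₀)
    obtain ⟨m, hm1, hm2⟩ := h2.exists
    exact ⟨m, hm2, hm1.le⟩
  obtain ⟨h3, h4⟩ := Nat.find_spec hex
  have h5 : ∀ m < Nat.find hex, ¬ (n₀ < m ∧ δ m ≤ δ') := fun m hm => Nat.find_min hex hm
  set m := Nat.find hex with hm
  refine ⟨m - 1, by omega, ?_, ?_⟩
  · have : m - 1 + 1 = m := by omega
    rwa [this]
  · by_cases h6 : m - 1 = n₀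
    · rwa [h6]
    · have h7 := h5 (m - 1) (by omega)
      push Not at h7
      exact (h7 (by omega)).le

/-- The chain theorem for all laws. -/
theorem umain (hX : S_CX) (hUU : S_UUC) (hL : S_SCL) (hZ : S_ZF) (hCay : S_CAY)
    (hM : S_MZP) (hU : S_UNI) (hU2 : S_UNI2) (hS2 : S_STEP2) (hJS : S_JSTEP) (hN : S_NETX)
    (hF : S_FUT) (hJ0 : S_J0) (hB : S_BASE3) (hV : S_VR) (hQ : S_QNT) (hψ : S_SEMI) :
    S_UCHAIN := by
  intro d ε hd hε
  obtain ⟨ψ, hψ⟩ := hψ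
  obtain ⟨D, hD1, hD2, hD3⟩ := exists_Pr hF hJ0 hB hd hψ (r := ε / 2) (by positivity)
  obtain ⟨f, hf1, hf2⟩ := exists_f hX hUU hL hZ hCay hM hU hU2 hS2 hJS hN hd hψ
    (r := ε / 2) (by positivity) D hD1 hD2
  refine ⟨f, fun t => (hf1 t).trans (by linarith), fun ν hν C hC hνC hνd => ?_⟩
  obtain ⟨κ, lam₁, hκ, hlam₁, hV1⟩ := hV ν C hC hνC hνd
  obtain ⟨n₀, hn₀⟩ := exists_nat_one_div_lt hκ
  refine ⟨min lam₁ (D.δ n₀ / C), lt_min hlam₁ (by have := D.hδ n₀; positivity),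
    fun lam h0 h1 hP => ?_⟩
  have h2 : lam ≤ lam₁ := h1.trans (min_le_left _ _)
  have h3 : lam * C ≤ D.δ n₀ := by
    have h4 : lam ≤ D.δ n₀ / C := h1.trans (min_le_right _ _)
    calc lam * C ≤ D.δ n₀ / C * C := by gcongr
      _ = D.δ n₀ := by field_simp
  have hvr := hV1 lam h0 h2
  have hδ : 0 < lam * C := by positivity
  have hsupp : ∀ᵐ x ∂(ν.map fun x => lam * x), |x| ≤ lam * C := by
    have hm : AEMeasurable (fun x : ℝ => lam * x) ν := by fun_prop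
    refine (ae_map_iff (p := fun x => |x| ≤ lam * C) hm
      (measurableSet_le measurable_id.abs measurable_const)).2 ?_
    filter_upwards [hνC] with x hx
    rw [abs_mul, abs_of_pos h0]
    gcongr
  obtain ⟨X, hX1, hX2⟩ := hQ (ν.map fun x => lam * x) (lam * C) hδ.le hsupp
  obtain ⟨j, hj1, hj2, hj3⟩ := find_class hD3 hδ h3
  have hXE : X ∈ En D.δ j := by
    refine ⟨lam * C, hj2, hj3, hX1, ?_⟩
    rw [hX2]
    refine le_trans ?_ hvr
    have h5 : 1 / ((j : ℝ) + 1) ≤ κ := by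
      have h6 : (n₀ : ℝ) ≤ j := by exact_mod_cast hj1
      have h7 : 1 / ((j : ℝ) + 1) ≤ 1 / ((n₀ : ℝ) + 1) := by
        apply one_div_le_one_div_of_le (by positivity)
        linarith
      linarith
    gcongr
  exact Goal_congr hX2 (hf2 j X hXE)

end

end Pool.Agent.W792.WA.Ch
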