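import Pool.Agent.W792.WA.G7
import Pool.Agent.W792.WA.Stm3

/-!
One `f` for all laws with finite moments: construction.
-/

namespace Pool.Agent.W792.WA.Ch

open MeasureTheory Filter Pool.Agent.W792.LL Pool.Agent.W792.WA
open scoped Topology

noncomputable section

/-- Laws entering at stage `n`. -/
def En2 (δ : ℕ → ℝ) (n : ℕ) : Set MX :=
  {X | X ∈ Qf ∧ 0 < vr (qlaw X) ∧ ∃ δ' : ℝ, δ (n + 1) ≤ δ' ∧ δ' ≤ δ n ∧ ∃ X' ∈ Bd δ',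
    cd X X' ≤ (δ' ^ 14) ^ 2 ∧ 1 / ((n : ℝ) + 1) * δ' ^ 3 ≤ vr (qlaw X')}

/-- Laws controlled at stage `n`. -/
def Xn2 (δ : ℕ → ℝ) (n : ℕ) : Set MX := {X | ∃ j ≤ n, X ∈ En2 δ j}

theorem Xn2_vr {δ : ℕ → ℝ} {n : ℕ} {X : MX} (hX : X ∈ Xn2 δ n) : 0 < vr (qlaw X) := by
  obtain ⟨j, -, -, h, -⟩ := hX
  exact h

theorem Xn2_TB (hN : S_NETX2) {δ : ℕ → ℝ} (n : ℕ) : TB (Xn2 δ n) := by
  refine TB_mono ?_ hN
  rintro X ⟨j, -, h, -⟩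
  exact h

/-- Invariant of stage `n`. -/
def Inv2 (d : ℕ) (ρ : ℕ → Measure ℝ) (T : ℕ → ℝ) (J : ℝ) (δ se : ℕ → ℝ) (n : ℕ)
    (a : C(ℝ, ℝ) × ℝ) : Prop :=
  (∀ t, |a.1 t - t| ≤ T 0 - T n) ∧
  (∀ j ≤ n, ∀ X ∈ En2 δ j, Gap (qlaw X) d (ρ n) a.1 (se j * (1 / 2 + 1 / 2 ^ (n + 1)))) ∧
  (∀ z ∈ Zs d, J * (1 / 2 + 1 / 2 ^ (n + 1)) ≤ jf (ρ n) (fK a.1 d) z) ∧ 0 < a.2 ∧
  ∃ q : ℝ, 0 ≤ q ∧ q < 1 ∧ a.2 ≤ (1 - q ^ 2) / 8 ∧ ∀ X ∈ Xn2 δ n, Ctr (qlaw X) d (ρ n) a.1 q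

/-- Relation of two stages. -/
def Rel2 (d : ℕ) (ψ : C(UnitAddCircle, ℝ)) (l : ℕ → ℝ) (ρ : ℕ → Measure ℝ) (δ : ℕ → ℝ) (n : ℕ)
    (a b : C(ℝ, ℝ) × ℝ) : Prop :=
  (∃ M : ℕ, b.1 = nx ψ a.1 (l n) M) ∧ b.2 ≤ a.2 ∧ ∀ X ∈ Xn2 δ n, ∀ z ∈ Zs d, ∀ s s',
    IsFix (qlaw X) (ρ n) (wz (fK a.1 d) z) s →
    IsFix (qlaw X) (ρ (n + 1)) (wz (fK b.1 d) z) s' →
      ∫ v, ‖Zf (UU (ρ n) (wz (fK a.1 d) z) s) (fun x => cay (v x))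
        - Zf (UU (ρ (n + 1)) (wz (fK b.1 d) z) s') (fun x => cay (v x))‖
          ∂(Pn (qlaw X) (Fin d → ℤ)) ≤ a.2 / (64 * 8 ^ n)

/-- Data fixed in advance. -/
structure Pr2 (d : ℕ) (ψ : C(UnitAddCircle, ℝ)) where
  /-- levels -/
  l : ℕ → ℝ
  /-- laws of the future levels -/
  ρ : ℕ → Measure ℝ
  /-- tails -/
  T : ℕ → ℝ
  /-- lower bound -/
  J : ℝ
  /-- sizes -/
  δ : ℕ → ℝ
  /-- constants -/
  c : ℕ → ℝ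
  /-- bound -/
  B : ℝ
  hψ : ∀ t, |ψ t| ≤ 1
  hl : ∀ n, 0 < l n
  hT : ∀ n, l n + T (n + 1) ≤ T n
  hTp : ∀ n, 0 ≤ T n
  hB : 4 * d + T 0 + 1 ≤ B
  hρ1 : ∀ n, IsProbabilityMeasure (ρ n)
  hρ2 : ∀ n, ρ n = (lev ψ (l n)).conv (ρ (n + 1))
  hρ3 : ∀ n, ρ n (Set.Icc (-(T n)) (T n))ᶜ = 0
  hρ4 : ∀ (n : ℕ) (a b : ℝ), ρ n {a, b} < 1
  hJ : 0 < J
  hJ0 : ∀ z ∈ Zs d, J ≤ jf (ρ 0) (lap d) z
  hδ : ∀ n, 0 < δ n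
  hδa : Antitone δ
  hc : ∀ n, 0 < c n
  hbase : ∀ (n : ℕ) (X X' : MX) (δ' : ℝ), 0 < δ' → δ' ≤ δ n → X' ∈ Bd δ' →
    cd X X' ≤ (δ' ^ 14) ^ 2 → 1 / ((n : ℝ) + 1) * δ' ^ 3 ≤ vr (qlaw X') →
    ∀ (K : C(UnitAddTorus (Fin d), ℝ)) (z : ℂ), ‖K‖ ≤ B → ‖z‖ ≤ B →
    0 < z.im → J / 2 ≤ jf (ρ n) K z → ∀ s : C(UnitAddTorus (Fin d), ℂ),
    IsFix (qlaw X) (ρ n) (wz K z) s → ‖s‖ ≤ 1 - c n * δ' ^ 3

namespace Pr2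

variable {d : ℕ} {ψ : C(UnitAddCircle, ℝ)} (D : Pr2 d ψ)

/-- Gaps at the entry. -/
def se (n : ℕ) : ℝ := D.c n * D.δ (n + 1) ^ 3

theorem se_pos (n : ℕ) : 0 < D.se n := by
  have := D.hc n
  have := D.hδ (n + 1)
  unfold se; positivity

theorem K_le {f : C(ℝ, ℝ)} {n : ℕ} (hf : ∀ t, |f t - t| ≤ D.T 0 - D.T n) : ‖fK f d‖ ≤ D.B := by
  have hB := D.hB
  have hT := D.hTp n
  have hT0 := D.hTp 0
  have hd : (0 : ℝ) ≤ d := by positivity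
  rw [ContinuousMap.norm_le _ (by linarith)]
  intro k
  have h1 := hf (lap d k)
  have h2 := lap_bound d k
  change ‖f (lap d k)‖ ≤ _
  rw [Real.norm_eq_abs]
  calc |f (lap d k)| = |(f (lap d k) - lap d k) + lap d k| := by ring_nf
    _ ≤ |f (lap d k) - lap d k| + |lap d k| := abs_add_le _ _
    _ ≤ _ := by linarith

theorem z_le {z : ℂ} (hz : z ∈ Zs d) : ‖z‖ ≤ D.B := by
  obtain ⟨h1, h2, h3, h4⟩ := hz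
  have hB := D.hB
  have hT0 := D.hTp 0
  refine (Complex.norm_le_abs_re_add_abs_im z).trans ?_
  rw [abs_of_nonneg h1, abs_of_pos h3]
  linarith

theorem entry (n : ℕ) {f : C(ℝ, ℝ)} (hf : ∀ t, |f t - t| ≤ D.T 0 - D.T n)
    (hK : ∀ z ∈ Zs d, D.J / 2 ≤ jf (D.ρ n) (fK f d) z) {X : MX} (hX : X ∈ En2 D.δ n) :
    ∀ z ∈ Zs d, ∀ s, IsFix (qlaw X) (D.ρ n) (wz (fK f d) z) s →
      ‖s‖ ≤ 1 - D.se n * (1 / 2 + 1 / 2 ^ (n + 1)) := by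
  intro z hz s hs
  obtain ⟨-, -, δ', h1, h2, X', h3, h3', h4⟩ := hX
  have h5 := D.hδ (n + 1)
  have h6 := D.hbase n X X' δ' (by linarith) h2 h3 h3' h4 (fK f d) z (D.K_le hf) (D.z_le hz)
    hz.2.2.1 (hK z hz) s hs
  have h7 : D.se n ≤ D.c n * δ' ^ 3 := by
    have := D.hc n
    unfold se
    gcongr
  have h8 : D.se n * (1 / 2 + 1 / 2 ^ (n + 1)) ≤ D.se n * 1 := by
    have h9 : (1 : ℝ) / 2 ^ (n + 1) ≤ 1 / 2 := by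
      apply one_div_le_one_div_of_le (by norm_num)
      rw [pow_succ]
      have : (1 : ℝ) ≤ 2 ^ n := one_le_pow₀ (by norm_num)
      linarith
    have := D.se_pos n
    gcongr
    linarith
  linarith

/-- Uniform gap. -/
theorem ugap {n : ℕ} {f : C(ℝ, ℝ)}
    (h : ∀ j ≤ n, ∀ X ∈ En2 D.δ j, Gap (qlaw X) d (D.ρ n) f (D.se j * (1 / 2 + 1 / 2 ^ (n + 1)))) :
    ∃ σ : ℝ, 0 < σ ∧ (∀ j ≤ n, σ ≤ D.se j / 2) ∧ ∀ X ∈ Xn2 D.δ n, Gap (qlaw X) d (D.ρ n) f σ := by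
  obtain ⟨σ, h1, h2⟩ := exists_lb (fun j => D.se j / 2) (fun j => by
    have := D.se_pos j
    positivity) n
  refine ⟨σ, h1, h2, ?_⟩
  rintro X ⟨j, hj, hX⟩ z hz s hs
  have h3 := h j hj X hX z hz s hs
  have h4 := h2 j hj
  have h5 : 0 < D.se j * (1 / 2 ^ (n + 1)) := by
    have := D.se_pos j
    positivity
  linarith

theorem ctr (hU2 : S_UNI2) {n : ℕ} {f : C(ℝ, ℝ)}
    (h : ∀ j ≤ n, ∀ X ∈ En2 D.δ j, Gap (qlaw X) d (D.ρ n) f (D.se j * (1 / 2 + 1 / 2 ^ (n + 1)))) :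
    ∃ q : ℝ, 0 ≤ q ∧ q < 1 ∧ ∀ X ∈ Xn2 D.δ n, Ctr (qlaw X) d (D.ρ n) f q := by
  obtain ⟨σ, h1, -, h2⟩ := D.ugap h
  have := D.hρ1 n
  obtain ⟨q, h3, h4, h5⟩ := (hU2 d (D.ρ n) (D.T n) σ (fK f d) (D.hρ3 n) (D.hρ4 n) h1).1
  exact ⟨q, h3, h4, fun X hX => (h5 (qlaw X) (Xn2_vr hX) (h2 X hX)).2⟩

theorem init (hU2 : S_UNI2) : ∃ a, Inv2 d D.ρ D.T D.J D.δ D.se 0 a ∧ (0 = 0 → a.1 = ContinuousMap.id ℝ) := by
  have h0 : ∀ j ≤ 0, ∀ X ∈ En2 D.δ j, Gap (qlaw X) d (D.ρ 0) (ContinuousMap.id ℝ)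
      (D.se j * (1 / 2 + 1 / 2 ^ (0 + 1))) := by
    intro j hj X hX
    obtain rfl := Nat.le_zero.1 hj
    refine D.entry 0 (fun t => by simp) (fun z hz => ?_) hX
    rw [fK_id]
    have := D.hJ0 z hz
    have := D.hJ
    linarith
  obtain ⟨q, hq0, hq1, hq2⟩ := D.ctr hU2 h0
  have hq3 : 0 < (1 - q ^ 2) / 8 := by
    have : q ^ 2 < 1 := by nlinarith
    linarith
  refine ⟨(ContinuousMap.id ℝ, (1 - q ^ 2) / 8), ⟨fun t => by simp, h0, fun z hz => ?_, hq3, q, hq0, hq1, le_rfl,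
    hq2⟩, fun _ => rfl⟩
  have e : D.J * (1 / 2 + 1 / 2 ^ (0 + 1)) = D.J := by ring
  rw [e]
  exact D.hJ0 z hz

theorem step (hU2 : S_UNI2) (hS2 : S_STEP2) (hJS : S_JSTEP) (hN : S_NETX2) (hd : 0 < d)
    (hψ : IsSemi ψ) (n : ℕ) (a : C(ℝ, ℝ) × ℝ) (ha : Inv2 d D.ρ D.T D.J D.δ D.se n a) :
    ∃ b, Inv2 d D.ρ D.T D.J D.δ D.se (n + 1) b ∧ Rel2 d ψ D.l D.ρ D.δ n a b := by
  obtain ⟨h0, h1, h2, h3, -⟩ := ha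
  obtain ⟨σ, hσ, hσ1, hσ2⟩ := D.ugap h1
  have i0 := D.hρ1 n
  have i1 := D.hρ1 (n + 1)
  have i2 := D.hρ1 (n + 1 + 1)
  have hJ := D.hJ
  set e : ℝ := min (a.2 / (64 * 8 ^ n)) (σ / 2 ^ (n + 1)) with he
  have he0 : 0 < e := lt_min (by positivity) (by positivity)
  have hσ2' : ∀ X ∈ Xn2 D.δ n, ∀ z ∈ Zs d, ∀ s,
      IsFix (qlaw X) ((lev ψ (D.l n)).conv (D.ρ (n + 1))) (wz (fK a.1 d) z) s → ‖s‖ ≤ 1 - σ := by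
    rw [← D.hρ2 n]; exact hσ2
  obtain ⟨M₁, hM₁⟩ := hS2 d ψ (D.ρ (n + 1)) (D.T (n + 1)) σ (D.l n) (fK a.1 d) (Xn2 D.δ n) hd hψ
    (fun X hX => Xn2_vr hX) (Xn2_TB hN n) (D.hρ3 (n + 1)) (D.hρ4 (n + 1)) (D.hl n)
    hσ hσ2' e he0
  obtain ⟨M₂, hM₂⟩ := hJS ψ hψ d (fK a.1 d) (D.l n) (D.l (n + 1)) (D.T (n + 1 + 1))
    (D.ρ (n + 1 + 1)) hd (D.hl n) (D.hl (n + 1)) (D.hρ3 _) (D.J / 2 ^ (n + 2)) (by positivity)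
  have hM1 := hM₁ (max M₁ M₂) (le_max_left _ _)
  have hM2 := hM₂ (max M₁ M₂) (le_max_right _ _)
  rw [← D.hρ2 n] at hM1
  rw [← D.hρ2 (n + 1), ← D.hρ2 n] at hM2
  set M := max M₁ M₂ with hM
  have hjf : ∀ z ∈ Zs d, D.J * (1 / 2 + 1 / 2 ^ (n + 1 + 1))
      ≤ jf (D.ρ (n + 1)) (fK (nx ψ a.1 (D.l n) M) d) z := by
    intro z hz
    have h4 := h2 z hz
    have h5 := hM2 z hz
    rw [fK_nx]
    have h6 : D.J * (1 / 2 + 1 / 2 ^ (n + 1)) = D.J * (1 / 2 + 1 / 2 ^ (n + 1 + 1))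
        + D.J / 2 ^ (n + 2) := by
      field_simp
      ring
    linarith
  have hid : ∀ t, |nx ψ a.1 (D.l n) M t - t| ≤ D.T 0 - D.T (n + 1) := by
    intro t
    have h4 := h0 t
    have h5 := D.hT n
    have h6 : |D.l n * ψ ((M * t / (2 * Real.pi) : ℝ) : UnitAddCircle)| ≤ D.l n := by
      rw [abs_mul, abs_of_pos (D.hl n)]
      exact mul_le_of_le_one_right (D.hl n).le (D.hψ _)
    have h7 : nx ψ a.1 (D.l n) M t - t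
        = (a.1 t - t) + D.l n * ψ ((M * t / (2 * Real.pi) : ℝ) : UnitAddCircle) := by
      change a.1 t + D.l n * ψ _ - t = _
      ring
    rw [h7]
    refine (abs_add_le _ _).trans ?_
    linarith
  have hgap : ∀ j ≤ n + 1, ∀ X ∈ En2 D.δ j, Gap (qlaw X) d (D.ρ (n + 1))
      (nx ψ a.1 (D.l n) M) (D.se j * (1 / 2 + 1 / 2 ^ (n + 1 + 1))) := by
    intro j hj X hX
    rcases Nat.lt_or_ge n j with h | h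
    · obtain rfl : j = n + 1 := by omega
      refine D.entry (n + 1) hid (fun z hz => ?_) hX
      refine le_trans ?_ (hjf z hz)
      have : 0 < D.J * (1 / 2 ^ (n + 1 + 1)) := by positivity
      linarith
    · intro z hz s' hs'
      have hXn : X ∈ Xn2 D.δ n := ⟨j, h, hX⟩
      have hex := ((hU2 d (D.ρ n) (D.T n) σ (fK a.1 d) (D.hρ3 n) (D.hρ4 n) hσ).1.choose_spec.2.2
        (qlaw X) (Xn2_vr hXn) (hσ2 X hXn)).1 z hz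
      obtain ⟨s, hs, -⟩ := hex
      have h4 := (hM1 X hXn z hz s s' hs hs').1
      have h5 := h1 j h X hX z hz s hs
      have h6 : ‖s'‖ ≤ ‖s‖ + ‖s - s'‖ := by
        have := norm_sub_le s (s - s')
        rwa [sub_sub_cancel] at this
      have h7 : e ≤ σ / 2 ^ (n + 1) := min_le_right _ _
      have h8 : σ / 2 ^ (n + 1) ≤ D.se j / 2 / 2 ^ (n + 1) := by
        have := hσ1 j h
        gcongr
      have h9 : D.se j * (1 / 2 + 1 / 2 ^ (n + 1)) = D.se j * (1 / 2 + 1 / 2 ^ (n + 1 + 1))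
          + D.se j / 2 / 2 ^ (n + 1) := by
        field_simp
        ring
      linarith
  obtain ⟨q, hq0, hq1, hq2⟩ := D.ctr hU2 hgap
  have hq3 : 0 < (1 - q ^ 2) / 8 := by
    have : q ^ 2 < 1 := by nlinarith
    linarith
  refine ⟨(nx ψ a.1 (D.l n) M, min a.2 ((1 - q ^ 2) / 8)), ⟨hid, hgap, hjf, lt_min h3 hq3,
    q, hq0, hq1, min_le_right _ _, hq2⟩, ⟨M, rfl⟩, min_le_left _ _, ?_⟩
  intro X hX z hz s s' hs hs'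
  exact (hM1 X hX z hz s s' hs hs').2.trans (min_le_left _ _)

end Pr2

end

end Pool.Agent.W792.WA.Ch
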